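import Mathlib

set_option autoImplicit false
set_option linter.unusedSectionVars false
set_option linter.unusedVariables false

namespace Pool.Agent.Lib.R97Q2

open Finset Function

section av

variable {Z Z' : Type*} [Fintype Z] [Fintype Z']

/-- the average of a function on a finite type -/
noncomputable def av (f : Z → ℝ) : ℝ := (∑ z, f z) / Fintype.card Z

lemma av_const [Nonempty Z] (c : ℝ) : av (fun _ : Z => c) = c := by
  have : (Fintype.card Z : ℝ) ≠ 0 := by exact_mod_cast Fintype.card_ne_zero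
  unfold av
  rw [Finset.sum_const, Finset.card_univ, nsmul_eq_mul]
  field_simp

lemma av_add (f g : Z → ℝ) : av (fun z => f z + g z) = av f + av g := by
  unfold av; rw [Finset.sum_add_distrib, add_div]

lemma av_sub (f g : Z → ℝ) : av (fun z => f z - g z) = av f - av g := by
  unfold av; rw [Finset.sum_sub_distrib, sub_div]

lemma av_mul_left (c : ℝ) (f : Z → ℝ) : av (fun z => c * f z) = c * av f := by
  unfold av; rw [← Finset.mul_sum, mul_div_assoc]

lemma av_mul_right (c : ℝ) (f : Z → ℝ) : av (fun z => f z * c) = av f * c := by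
  unfold av; rw [← Finset.sum_mul]; ring

lemma av_neg (f : Z → ℝ) : av (fun z => - f z) = - av f := by
  unfold av; rw [Finset.sum_neg_distrib, neg_div]

lemma av_sum {β : Type*} (s : Finset β) (f : β → Z → ℝ) :
    av (fun z => ∑ b ∈ s, f b z) = ∑ b ∈ s, av (f b) := by
  unfold av; rw [Finset.sum_comm, Finset.sum_div]

lemma av_mono {f g : Z → ℝ} (h : ∀ z, f z ≤ g z) : av f ≤ av g :=
  div_le_div_of_nonneg_right (Finset.sum_le_sum fun z _ => h z) (Nat.cast_nonneg _)

lemma av_congr {f g : Z → ℝ} (h : ∀ z, f z = g z) : av f = av g := by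
  have : f = g := funext h
  rw [this]

lemma av_le [Nonempty Z] {f : Z → ℝ} {c : ℝ} (h : ∀ z, f z ≤ c) : av f ≤ c := by
  have := av_mono (g := fun _ => c) h
  rwa [av_const] at this

lemma le_av [Nonempty Z] {f : Z → ℝ} {c : ℝ} (h : ∀ z, c ≤ f z) : c ≤ av f := by
  have := av_mono (f := fun _ => c) h
  rwa [av_const] at this

lemma av_nonneg {f : Z → ℝ} (h : ∀ z, 0 ≤ f z) : 0 ≤ av f :=
  div_nonneg (Finset.sum_nonneg fun z _ => h z) (Nat.cast_nonneg _)

lemma abs_av_le (f : Z → ℝ) : |av f| ≤ av (fun z => |f z|) := by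
  unfold av
  rw [abs_div, Nat.abs_cast]
  exact div_le_div_of_nonneg_right (Finset.abs_sum_le_sum_abs _ _) (Nat.cast_nonneg _)

lemma abs_av_le_of [Nonempty Z] {f : Z → ℝ} {c : ℝ} (h : ∀ z, |f z| ≤ c) : |av f| ≤ c :=
  (abs_av_le f).trans (av_le h)

lemma av_equiv (e : Z ≃ Z') (f : Z' → ℝ) : av (fun z => f (e z)) = av f := by
  unfold av
  rw [Equiv.sum_comp e f, Fintype.card_congr e]

lemma av_prod (f : Z × Z' → ℝ) : av f = av (fun z => av (fun z' => f (z, z'))) := by
  unfold av
  rw [Fintype.sum_prod_type, ← Finset.sum_div, Fintype.card_prod, Nat.cast_mul, div_div,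
    mul_comm (Fintype.card Z : ℝ)]

lemma av_comm (f : Z → Z' → ℝ) : av (fun z => av (fun z' => f z z')) =
    av (fun z' => av (fun z => f z z')) := by
  rw [← av_prod (fun p : Z × Z' => f p.1 p.2), ← av_prod (fun p : Z' × Z => f p.2 p.1),
    ← av_equiv (Equiv.prodComm Z Z')]
  rfl

lemma av_unit (f : PUnit → ℝ) : av f = f PUnit.unit := by
  unfold av; simp

lemma av_unique [Unique Z] (f : Z → ℝ) : av f = f default := by
  unfold av; simp

lemma av_pow_mul {n : ℕ} (f g : Z → ℝ) (h : ∀ z, f z = g z) : av f = av g := av_congr h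

lemma continuous_av {f : ℝ → Z → ℝ} (hf : ∀ z, Continuous (fun l => f l z)) :
    Continuous (fun l => av (f l)) := by
  unfold av
  exact (continuous_finsetSum _ fun z _ => hf z).div_const _

lemma integral_av {f : ℝ → Z → ℝ} (hf : ∀ z, Continuous (fun l => f l z)) (a b : ℝ) :
    ∫ l in a..b, av (f l) = av (fun z => ∫ l in a..b, f l z) := by
  unfold av
  rw [intervalIntegral.integral_div, intervalIntegral.integral_finsetSum]
  intro z _
  exact (hf z).intervalIntegrable _ _

/-- exponential moment of a bounded centred variable -/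
lemma av_exp_le [Nonempty Z] {f : Z → ℝ} {b : ℝ} (hb : 0 ≤ b) (h0 : av f = 0)
    (h : ∀ z, |f z| ≤ b) : av (fun z => Real.exp (f z)) ≤ Real.exp (b ^ 2) := by
  rcases hb.eq_or_lt with h1 | hb0
  · have : ∀ z, f z = 0 := fun z => by
      have := h z
      rw [← h1] at this
      exact abs_nonpos_iff.1 this
    rw [av_congr (fun z => by rw [this z]), av_const]
    rw [Real.exp_zero]
    exact Real.one_le_exp (sq_nonneg _)
  have key : ∀ z, Real.exp (f z) ≤ Real.cosh b + f z * (Real.sinh b / b) := by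
    intro z
    have hz := abs_le.1 (h z)
    have a1 : 0 ≤ (b - f z) / (2 * b) := div_nonneg (by linarith [hz.2]) (by linarith)
    have a2 : 0 ≤ (b + f z) / (2 * b) := div_nonneg (by linarith [hz.1]) (by linarith)
    have a3 : (b - f z) / (2 * b) + (b + f z) / (2 * b) = 1 := by field_simp; ring
    have hconv := convexOn_exp.2 (Set.mem_univ (-b)) (Set.mem_univ b) a1 a2 a3
    simp only [smul_eq_mul] at hconv
    have e1 : (b - f z) / (2 * b) * -b + (b + f z) / (2 * b) * b = f z := by
      field_simp; ring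
    rw [e1] at hconv
    refine hconv.trans (le_of_eq ?_)
    rw [Real.cosh_eq, Real.sinh_eq]
    field_simp
    ring
  have h2 := av_mono key
  rw [av_add, av_const, av_mul_right, h0, zero_mul, add_zero] at h2
  refine h2.trans ((Real.cosh_le_exp_half_sq b).trans (Real.exp_le_exp.2 ?_))
  nlinarith [sq_nonneg b]

end av

section conc

/-- subgaussian concentration of all functions that are `c`-Lipschitz along the relation `R` -/
def Conc (Z : Type*) [Fintype Z] (R : Z → Z → Prop) (K : ℝ) : Prop :=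
  ∀ (f : Z → ℝ) (c : ℝ), 0 ≤ c → (∀ x y, R x y → |f x - f y| ≤ c) →
    av (fun x => Real.exp (f x - av f)) ≤ Real.exp (K * c ^ 2)

variable {Z Z' : Type*} [Fintype Z] [Fintype Z']

lemma Conc.equiv {R : Z → Z → Prop} {R' : Z' → Z' → Prop} {K : ℝ} (h : Conc Z R K)
    (e : Z ≃ Z') (he : ∀ x y, R x y → R' (e x) (e y)) : Conc Z' R' K := by
  intro f c hc hf
  have := h (fun x => f (e x)) c hc (fun x y hxy => hf _ _ (he x y hxy))
  rw [av_equiv e f] at this
  rwa [av_equiv e (fun x => Real.exp (f x - av f))] at this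

/-- the relation on a product -/
def RP (R : Z → Z → Prop) (R' : Z' → Z' → Prop) : Z × Z' → Z × Z' → Prop :=
  fun p q => (R p.1 q.1 ∧ p.2 = q.2) ∨ (p.1 = q.1 ∧ R' p.2 q.2)

lemma Conc.prod [Nonempty Z'] {R : Z → Z → Prop} {R' : Z' → Z' → Prop} {K K' : ℝ}
    (h : Conc Z R K) (h' : Conc Z' R' K') : Conc (Z × Z') (RP R R') (K + K') := by
  intro f c hc hf
  set φ : Z → ℝ := fun z => av (fun z' => f (z, z')) with hφ
  have hφl : ∀ x y, R x y → |φ x - φ y| ≤ c := by
    intro x y hxy
    simp only [hφ]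
    rw [← av_sub]
    exact abs_av_le_of fun z' => hf _ _ (Or.inl ⟨hxy, rfl⟩)
  have e1 : av f = av φ := av_prod f
  have h1 := h φ c hc hφl
  rw [av_prod]
  have h2 : ∀ z, av (fun z' => Real.exp (f (z, z') - av f)) ≤
      Real.exp (φ z - av φ) * Real.exp (K' * c ^ 2) := by
    intro z
    have e2 : ∀ z', Real.exp (f (z, z') - av f) =
        Real.exp (φ z - av φ) * Real.exp (f (z, z') - av (fun z' => f (z, z'))) := by
      intro z'
      rw [← Real.exp_add, e1]
      congr 1
      simp only [hφ]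
      ring
    rw [av_congr e2, av_mul_left]
    refine mul_le_mul_of_nonneg_left ?_ (Real.exp_pos _).le
    exact h' (fun z' => f (z, z')) c hc fun x y hxy => hf _ _ (Or.inr ⟨rfl, hxy⟩)
  refine (av_mono h2).trans ?_
  rw [av_mul_right, add_mul, Real.exp_add]
  exact mul_le_mul_of_nonneg_right h1 (Real.exp_pos _).le

/-- one-sided mgf with parameter -/
lemma Conc.mgf {R : Z → Z → Prop} {K : ℝ} (h : Conc Z R K) {f : Z → ℝ} {c : ℝ} (hc : 0 ≤ c)
    (hf : ∀ x y, R x y → |f x - f y| ≤ c) (θ : ℝ) :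
    av (fun x => Real.exp (θ * (f x - av f))) ≤ Real.exp (K * (c * θ) ^ 2) := by
  have := h (fun x => θ * f x) (|θ| * c) (by positivity) (fun x y hxy => by
    rw [← mul_sub, abs_mul]
    exact mul_le_mul_of_nonneg_left (hf x y hxy) (abs_nonneg _))
  rw [av_mul_left] at this
  have e : ∀ x, Real.exp (θ * (f x - av f)) = Real.exp (θ * f x - θ * av f) := fun x => by
    rw [mul_sub]
  rw [av_congr e]
  refine this.trans (le_of_eq ?_)
  congr 1
  rw [mul_pow, mul_pow, sq_abs]
  ring

/-- mean absolute deviation -/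
lemma Conc.l1 [Nonempty Z] {R : Z → Z → Prop} {K : ℝ} (hK : 0 < K) (h : Conc Z R K) {f : Z → ℝ}
    {c : ℝ} (hc : 0 < c) (hf : ∀ x y, R x y → |f x - f y| ≤ c) :
    av (fun x => |f x - av f|) ≤ 5 * (c * Real.sqrt K) := by
  set θ : ℝ := 1 / (c * Real.sqrt K) with hθ
  have hsK : 0 < Real.sqrt K := Real.sqrt_pos.2 hK
  have hcK : 0 < c * Real.sqrt K := mul_pos hc hsK
  have hθ0 : 0 < θ := by positivity
  have h1 := h.mgf hc.le hf θ
  have h2 := h.mgf hc.le hf (-θ)
  have e1 : K * (c * θ) ^ 2 = 1 := by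
    rw [hθ, mul_pow, div_pow, mul_pow, Real.sq_sqrt hK.le]
    field_simp
  have e2 : K * (c * (-θ)) ^ 2 = 1 := by
    rw [← e1]; ring
  rw [e1] at h1
  rw [e2] at h2
  have h3 : ∀ x, |f x - av f| ≤ (Real.exp (θ * (f x - av f)) + Real.exp (-θ * (f x - av f)) - 1) * (c * Real.sqrt K) := by
    intro x
    have e3 : |f x - av f| = (θ * |f x - av f|) * (c * Real.sqrt K) := by
      rw [hθ]; field_simp
    rw [e3]
    refine mul_le_mul_of_nonneg_right ?_ hcK.le
    have h4 : θ * |f x - av f| + 1 ≤ Real.exp (θ * |f x - av f|) := Real.add_one_le_exp _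
    have h5 : Real.exp (θ * |f x - av f|) ≤
        Real.exp (θ * (f x - av f)) + Real.exp (-θ * (f x - av f)) := by
      rcases abs_cases (f x - av f) with h | h
      · rw [h.1]; linarith [Real.exp_pos (-θ * (f x - av f))]
      · rw [h.1]
        have : θ * -(f x - av f) = -θ * (f x - av f) := by ring
        rw [this]; linarith [Real.exp_pos (θ * (f x - av f))]
    linarith
  refine (av_mono h3).trans ?_
  rw [av_mul_right, av_sub, av_add, av_const]
  refine mul_le_mul_of_nonneg_right ?_ hcK.le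
  have h6 : Real.exp 1 ≤ 3 := by linarith [Real.exp_one_lt_d9]
  linarith

/-- two-sided exponential moment -/
lemma Conc.tail [Nonempty Z] {R : Z → Z → Prop} {K : ℝ} (h : Conc Z R K) {f : Z → ℝ}
    {c : ℝ} (hc : 0 ≤ c) (hf : ∀ x y, R x y → |f x - f y| ≤ c) {θ s : ℝ} (hθ : 0 ≤ θ) :
    av (fun x => Real.exp (θ * (|f x - av f| - s))) ≤ 2 * Real.exp (K * (c * θ) ^ 2 - θ * s) := by
  have h1 := h.mgf hc hf θ
  have h2 := h.mgf hc hf (-θ)
  have e2 : K * (c * (-θ)) ^ 2 = K * (c * θ) ^ 2 := by ring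
  rw [e2] at h2
  have h3 : ∀ x, Real.exp (θ * (|f x - av f| - s)) ≤
      (Real.exp (θ * (f x - av f)) + Real.exp (-θ * (f x - av f))) * Real.exp (-(θ * s)) := by
    intro x
    have e3 : Real.exp (θ * (|f x - av f| - s)) = Real.exp (θ * |f x - av f|) * Real.exp (-(θ * s)) := by
      rw [← Real.exp_add]; congr 1; ring
    rw [e3]
    refine mul_le_mul_of_nonneg_right ?_ (Real.exp_pos _).le
    rcases abs_cases (f x - av f) with h | h
    · rw [h.1]; linarith [Real.exp_pos (-θ * (f x - av f))]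
    · rw [h.1]
      have : θ * -(f x - av f) = -θ * (f x - av f) := by ring
      rw [this]; linarith [Real.exp_pos (θ * (f x - av f))]
  refine (av_mono h3).trans ?_
  rw [av_mul_right, av_add]
  have e4 : Real.exp (K * (c * θ) ^ 2 - θ * s) = Real.exp (K * (c * θ) ^ 2) * Real.exp (-(θ * s)) := by
    rw [← Real.exp_add]; congr 1
  rw [e4, ← mul_assoc]
  refine mul_le_mul_of_nonneg_right ?_ (Real.exp_pos _).le
  linarith

end conc

end Pool.Agent.Lib.R97Q2
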