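import Pool.Agent.Lib.R97Q2.Path

set_option autoImplicit false
set_option linter.unusedSectionVars false
set_option linter.unusedVariables false

namespace Pool.Agent.Lib.R97Q2

open Finset Equiv
open Function (update update_self update_of_ne update_eq_self update_comm)
open Pool.Agent.Lib.MP_7587db

lemma av_eval {J Z : Type*} [Fintype J] [DecidableEq J] [Fintype Z] [Nonempty Z] (j : J)
    (F : Z → ℝ) : av (fun g : J → Z => F (g j)) = av F := by
  have h := av_equiv (Equiv.funSplitAt j Z) (fun p => F p.1)
  have h2 : av (fun p : Z × ({i // i ≠ j} → Z) => F p.1) = av F := by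
    rw [av_prod]
    exact av_congr fun z => av_const (Z := {i // i ≠ j} → Z) (F z)
  rw [← h2, ← h]
  rfl

section block

variable {J T X : Type*} [Fintype J] [DecidableEq J] [AddCommGroup J] [Fintype T] [DecidableEq T]
  [Fintype X] [DecidableEq X] {k : ℕ} {α : Fin k → ℝ} {A : Fin k → Fin k → ℝ}

/-- log-partition function of the configuration `E` -/
noncomputable def ZL (α : Fin k → ℝ) (A : Fin k → Fin k → ℝ) (vtx : T × Bool → X)
    (E : Perm (T × Bool)) : ℝ :=
  Real.log (∑ σ : X → Fin k, EW α A (univ : Finset T) (fun t => vtx (E (t, false)))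
    (fun t => vtx (E (t, true))) σ)

/-- mean log-partition function of the configuration model -/
noncomputable def CF (α : Fin k → ℝ) (A : Fin k → Fin k → ℝ) (vtx : T × Bool → X) : ℝ :=
  av (ZL α A vtx)

variable [NeZero k]

lemma ZL_block (hα : ∀ i, 0 < α i) (hA : ∀ i j, 0 < A i j) (vtx : T × Bool → X)
    (g : J → Perm (T × Bool)) :
    Real.log (∑ σ, CW α A vtx (fun _ : T => (0 : J)) univ g σ) = ∑ j, ZL α A vtx (g j) := by
  have e1 : ∑ σ, CW α A vtx (fun _ : T => (0 : J)) univ g σ =
      ∏ j : J, ∑ τ : X → Fin k, EW α A (univ : Finset T) (fun t => vtx (g j (t, false)))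
        (fun t => vtx (g j (t, true))) τ := by
    rw [Fintype.prod_sum, ← Equiv.sum_comp (Equiv.curry J X (Fin k))]
    refine Finset.sum_congr rfl fun σ _ => ?_
    unfold CW EW
    rw [Finset.prod_mul_distrib]
    congr 1
    · rw [Fintype.prod_prod_type]
      rfl
    · rw [Finset.prod_product]
      refine Finset.prod_congr rfl fun j _ => Finset.prod_congr rfl fun t _ => ?_
      simp only [eP, eQ, add_zero]
      rfl
  rw [e1, Real.log_prod fun j _ => (sum_W_pos (EW_pos hα hA _ _ _)).ne']
  rfl

lemma Lc_zero (hα : ∀ i, 0 < α i) (hA : ∀ i j, 0 < A i j) (vtx : T × Bool → X) :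
    Lc α A vtx (fun _ : T => (0 : J)) univ = Fintype.card J * CF α A vtx := by
  unfold Lc
  rw [av_congr (fun g => ZL_block hα hA vtx g), av_sum]
  have : ∀ j ∈ (univ : Finset J), av (fun g : J → Perm (T × Bool) => ZL α A vtx (g j)) =
      CF α A vtx := fun j _ => av_eval j _
  rw [Finset.sum_congr rfl this, Finset.sum_const, Finset.card_univ, nsmul_eq_mul]

end block

end Pool.Agent.Lib.R97Q2
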