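import Pool.Agent.Lib.R97Q2.Iso
import Pool.Agent.Lib.MP_7587db.Seq

set_option autoImplicit false
set_option linter.unusedSectionVars false
set_option linter.unusedVariables false

namespace Pool.Agent.Lib.R97Q2

open Finset Equiv Filter
open Function (update update_self update_of_ne update_eq_self update_comm)
open Pool.Agent.Lib.MP_7587db

/-- almost-multiplicativity and slow variation imply convergence -/
theorem conv_seq (a : ℕ → ℝ) {B S δ : ℝ} (hB0 : 0 ≤ B) (hS0 : 0 ≤ S)
    (hB : ∀ n, 1 ≤ n → |a n| ≤ B * n) (hS : ∀ n, 1 ≤ n → |a (n + 1) - a n| ≤ S) (hδ0 : 0 < δ)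
    (hmul : ∀ L : ℕ, 2 ≤ L → ∃ C : ℝ, 0 ≤ C ∧ ∀ n : ℕ, 1 ≤ n →
      L * a n ≤ a (L * n) + C * ((n : ℝ) * (n : ℝ) ^ (-δ))) :
    ∃ l, Tendsto (fun n : ℕ => a n / n) atTop (nhds l) := by
  set b : ℕ → ℝ := fun n => a n / n with hb
  have hbound : ∀ n, |b n| ≤ B := by
    intro n
    rcases Nat.eq_zero_or_pos n with h | h
    · subst h; simp [hb, hB0]
    · have hn0 : (0 : ℝ) < n := by exact_mod_cast h
      simp only [hb]
      rw [abs_div, abs_of_pos hn0, div_le_iff₀ hn0]
      exact hB n h
  have hdiff : ∀ m n, 1 ≤ m → m ≤ n → |a n - a m| ≤ S * ((n : ℝ) - m) := by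
    intro m n hm hmn
    induction n, hmn using Nat.le_induction with
    | base => simp
    | succ n hn ih =>
      have h2 := hS n (hm.trans hn)
      have : a (n + 1) - a m = (a (n + 1) - a n) + (a n - a m) := by ring
      rw [this]
      refine (abs_add_le _ _).trans ?_
      push_cast
      linarith
  have hstep : ∀ m n : ℕ, 1 ≤ m → m ≤ n → b m ≤ b n + (B + S) * ((n : ℝ) - m) / m := by
    intro m n hm hmn
    have hm0 : (0 : ℝ) < m := by exact_mod_cast hm
    have hn0 : (0 : ℝ) < n := by exact_mod_cast hm.trans hmn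
    have h1 := hdiff m n hm hmn
    have h2 : |a n / n| ≤ B := hbound n
    have hnm : (0 : ℝ) ≤ (n : ℝ) - m := by
      have : (m : ℝ) ≤ n := by exact_mod_cast hmn
      linarith
    simp only [hb]
    have h3 : a m / m = a n / n - (a n - a m) / m + (a n / n) * (((n : ℝ) - m) / m) := by
      field_simp
      ring
    rw [h3]
    have h4 : -(a n - a m) / m ≤ S * ((n : ℝ) - m) / m := by
      refine div_le_div_of_nonneg_right ?_ hm0.le
      linarith [neg_abs_le (a n - a m)]
    have h5 : (a n / n) * (((n : ℝ) - m) / m) ≤ B * (((n : ℝ) - m) / m) :=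
      mul_le_mul_of_nonneg_right ((le_abs_self _).trans h2) (by positivity)
    have h6 : -(a n - a m) / m = - ((a n - a m) / m) := by ring
    rw [h6] at h4
    have h7 : (B + S) * ((n : ℝ) - m) / m = S * ((n : ℝ) - m) / m + B * (((n : ℝ) - m) / m) := by
      ring
    rw [h7]
    linarith
  have hmulL : ∀ L : ℕ, 2 ≤ L → ∃ CL : ℝ, ∃ n₁ : ℕ, ∀ n ≥ n₁,
      b n ≤ b (L * n) + CL * (n : ℝ) ^ (-δ) := by
    intro L hL
    obtain ⟨C, hC0, hC⟩ := hmul L hL
    refine ⟨C, 1, fun n hn => ?_⟩
    have hn0 : (0 : ℝ) < n := by exact_mod_cast hn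
    have hL0 : (0 : ℝ) < L := by exact_mod_cast (by omega : 0 < L)
    have h6 := hC n hn
    simp only [hb]
    have h7 : a n / n ≤ a (L * n) / ((L * n : ℕ) : ℝ) + C * (n : ℝ) ^ (-δ) / L := by
      push_cast
      have : a n / n = (L * a n) / (L * n) := by field_simp
      rw [this]
      have h8 : a (L * n) / (L * n) + C * (n : ℝ) ^ (-δ) / L =
        (a (L * n) + C * ((n : ℝ) * (n : ℝ) ^ (-δ))) / (L * n) := by field_simp
      rw [h8]
      exact div_le_div_of_nonneg_right h6 (by positivity)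
    have h9 : C * (n : ℝ) ^ (-δ) / L ≤ C * (n : ℝ) ^ (-δ) := by
      have hL1 : (1 : ℝ) ≤ L := by exact_mod_cast (by omega : 1 ≤ L)
      exact div_le_self (by positivity) hL1
    linarith
  exact tendsto_of_almost_mul b (B + S) δ hδ0
    (fun n => (hbound n).trans (by linarith)) hstep hmulL

section aR

variable {k : ℕ} [NeZero k] {α : Fin k → ℝ} {A : Fin k → Fin k → ℝ} {D : ℝ} {Δ g r : ℕ}

lemma exists_vtx {T X : Type*} [Fintype T] [DecidableEq T] [Fintype X] [DecidableEq X]
    (h : 2 * Fintype.card T = Δ * Fintype.card X) :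
    ∃ vtx : T × Bool → X, ∀ x, (univ.filter (fun a => vtx a = x)).card = Δ := by
  have h2 : Fintype.card (T × Bool) = Fintype.card (X × Fin Δ) := by
    rw [Fintype.card_prod, Fintype.card_prod, Fintype.card_bool, Fintype.card_fin]
    linarith
  let E : T × Bool ≃ X × Fin Δ := Fintype.equivOfCardEq h2
  refine ⟨fun a => (E a).1, fun x => ?_⟩
  have : (univ.filter (fun a => (E a).1 = x)).card = (univ : Finset (Fin Δ)).card := by
    refine Finset.card_bij (fun a _ => (E a).2) (fun _ _ => Finset.mem_univ _) ?_ ?_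
    · intro a ha b hb hab
      simp only [Finset.mem_filter, Finset.mem_univ, true_and] at ha hb
      exact E.injective (Prod.ext (by rw [ha, hb]) hab)
    · intro i _
      refine ⟨E.symm (x, i), ?_, by simp⟩
      simp
  rw [this, Finset.card_univ, Fintype.card_fin]

lemma card_of_fibres {T X : Type*} [Fintype T] [DecidableEq T] [Fintype X] [DecidableEq X]
    (vtx : T × Bool → X) (h : ∀ x, (univ.filter (fun a => vtx a = x)).card = Δ) :
    2 * Fintype.card T = Δ * Fintype.card X := by
  have h1 := Finset.card_eq_sum_card_fiberwise (f := vtx) (s := univ) (t := univ)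
    (fun x _ => Finset.mem_univ _)
  rw [Finset.sum_congr rfl fun x _ => h x, Finset.sum_const, Finset.card_univ, Finset.card_univ,
    Fintype.card_prod, Fintype.card_bool, smul_eq_mul] at h1
  linarith

/-- mean log-partition function on `g m` vertices with `r m` edges -/
noncomputable def aR (α : Fin k → ℝ) (A : Fin k → Fin k → ℝ) (Δ g r m : ℕ) : ℝ := by
  classical
  exact if h : ∃ vtx : Fin (r * m) × Bool → Fin (g * m),
    ∀ x, (univ.filter (fun a => vtx a = x)).card = Δ then CF α A h.choose else 0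

lemma aR_eq {T X : Type*} [Fintype T] [DecidableEq T] [Fintype X] [DecidableEq X]
    (vtx : T × Bool → X) (h : ∀ x, (univ.filter (fun a => vtx a = x)).card = Δ) {m : ℕ}
    (hT : Fintype.card T = r * m) (hX : Fintype.card X = g * m) :
    CF α A vtx = aR α A Δ g r m := by
  have h1 := card_of_fibres vtx h
  rw [hT, hX] at h1
  have hex : ∃ vtx : Fin (r * m) × Bool → Fin (g * m),
      ∀ x, (univ.filter (fun a => vtx a = x)).card = Δ :=
    exists_vtx (by rw [Fintype.card_fin, Fintype.card_fin]; exact h1)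
  unfold aR
  rw [dif_pos hex]
  exact CF_iso vtx hex.choose h hex.choose_spec (by rw [hT, Fintype.card_fin])
    (by rw [hX, Fintype.card_fin])

lemma vX_fibres {J T X : Type*} [Fintype J] [DecidableEq J] [Fintype T] [DecidableEq T]
    [Fintype X] [DecidableEq X] (vtx : T × Bool → X)
    (h : ∀ x, (univ.filter (fun a => vtx a = x)).card = Δ) (v : J × X) :
    (univ.filter (fun a => (vX vtx : (J × T) × Bool → J × X) a = v)).card = Δ := by
  rw [← h v.2]
  refine Finset.card_bij (fun a _ => (a.1.2, a.2)) ?_ ?_ ?_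
  · intro a ha
    simp only [Finset.mem_filter, Finset.mem_univ, true_and] at ha ⊢
    rw [← ha]; rfl
  · intro a ha b hb hab
    simp only [Finset.mem_filter, Finset.mem_univ, true_and] at ha hb
    simp only [Prod.mk.injEq] at hab
    have h1 : a.1.1 = v.1 := by rw [← ha]; rfl
    have h2 : b.1.1 = v.1 := by rw [← hb]; rfl
    exact Prod.ext (Prod.ext (by rw [h1, h2]) hab.1) hab.2
  · intro b hb
    simp only [Finset.mem_filter, Finset.mem_univ, true_and] at hb
    refine ⟨((v.1, b.1), b.2), ?_, rfl⟩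
    simp only [Finset.mem_filter, Finset.mem_univ, true_and]
    exact Prod.ext rfl hb

/-! ### crude bounds and one more block of vertices -/

lemma log_sum_sites {V : Type*} [Fintype V] [DecidableEq V] (α : Fin k → ℝ) :
    Real.log (∑ σ : V → Fin k, ∏ u, α (σ u)) = Fintype.card V * Real.log (∑ i, α i) := by
  have hsum : ∑ σ : V → Fin k, ∏ u, α (σ u) = (∑ i, α i) ^ Fintype.card V := by
    rw [← Fintype.prod_sum (fun (_ : V) (i : Fin k) => α i)]
    simp
  rw [hsum, Real.log_pow]

lemma abs_ZL_le {T X : Type*} [Fintype T] [DecidableEq T] [Fintype X] [DecidableEq X]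
    (hα : ∀ i, 0 < α i) (hD : 0 ≤ D) (hA1 : ∀ i j, Real.exp (-D) ≤ A i j)
    (hA2 : ∀ i j, A i j ≤ Real.exp D) (vtx : T × Bool → X) (E : Perm (T × Bool)) :
    |ZL α A vtx E| ≤ Fintype.card X * |Real.log (∑ i, α i)| + D * Fintype.card T := by
  have h1 := edges_diff (V := X) hα hD hA1 hA2 (Finset.empty_subset (univ : Finset T))
    (fun t => vtx (E (t, false))) (fun t => vtx (E (t, true)))
  have h2 : ∀ σ : X → Fin k, EW α A (∅ : Finset T) (fun t => vtx (E (t, false)))
      (fun t => vtx (E (t, true))) σ = ∏ u, α (σ u) := by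
    intro σ; unfold EW; simp
  simp only [h2] at h1
  rw [log_sum_sites] at h1
  rw [Finset.card_empty, Finset.card_univ, Nat.cast_zero, sub_zero] at h1
  have h3 : ZL α A vtx E = (ZL α A vtx E - Fintype.card X * Real.log (∑ i, α i)) +
      Fintype.card X * Real.log (∑ i, α i) := by ring
  rw [h3]
  refine (abs_add_le _ _).trans ?_
  rw [abs_mul, Nat.abs_cast]
  have h4 : |ZL α A vtx E - Fintype.card X * Real.log (∑ i, α i)| ≤ D * Fintype.card T := h1
  linarith

lemma ZL_sum {T R X Y : Type*} [Fintype T] [DecidableEq T] [Fintype X] [DecidableEq X]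
    [Fintype R] [DecidableEq R] [Fintype Y] [DecidableEq Y]
    (hα : ∀ i, 0 < α i) (hA : ∀ i j, 0 < A i j)
    (p q : T → X) (p' q' : R → Y) :
    Real.log (∑ σ : X ⊕ Y → Fin k, EW α A (univ : Finset (T ⊕ R))
      (Sum.map p p') (Sum.map q q') σ) =
    Real.log (∑ σ : X → Fin k, EW α A (univ : Finset T) p q σ) +
    Real.log (∑ σ : Y → Fin k, EW α A (univ : Finset R) p' q' σ) := by
  rw [← Real.log_mul (sum_W_pos (EW_pos hα hA _ _ _)).ne' (sum_W_pos (EW_pos hα hA _ _ _)).ne']
  congr 1
  rw [Finset.sum_mul_sum, ← Fintype.sum_prod_type',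
    ← Equiv.sum_comp (Equiv.sumArrowEquivProdArrow X Y (Fin k))]
  refine Finset.sum_congr rfl fun σ _ => ?_
  unfold EW
  rw [Fintype.prod_sum_type, Fintype.prod_sum_type]
  simp only [Equiv.sumArrowEquivProdArrow, Equiv.coe_fn_mk, Sum.map_inl, Sum.map_inr,
    Function.comp_apply]
  ring

lemma CF_sum {T R X Y : Type*} [Fintype T] [DecidableEq T] [Fintype X] [DecidableEq X]
    [Fintype R] [DecidableEq R] [Fintype Y] [DecidableEq Y]
    (hα : ∀ i, 0 < α i) (hD : 0 ≤ D) (hA1 : ∀ i j, Real.exp (-D) ≤ A i j)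
    (hA2 : ∀ i j, A i j ≤ Real.exp D) (v : T × Bool → X) (v' : R × Bool → Y) :
    |CF α A (fun a : (T ⊕ R) × Bool => Sum.map v v' (Equiv.sumProdDistrib T R Bool a)) -
      CF α A v| ≤ 8 * D * Fintype.card R +
      (Fintype.card Y * |Real.log (∑ i, α i)| + D * Fintype.card R) := by
  have hA : ∀ i j, 0 < A i j := fun i j => (Real.exp_pos _).trans_le (hA1 i j)
  set W : (T ⊕ R) × Bool → X ⊕ Y :=
    fun a => Sum.map v v' (Equiv.sumProdDistrib T R Bool a) with hW
  let S := (Equiv.sumProdDistrib T R Bool).symm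
  let f : Perm ((T × Bool) ⊕ (R × Bool)) → ℝ := fun E => ZL α A W (S.permCongr E)
  have hf : ∀ x y, RS _ x y → |f x - f y| ≤ 4 * D := by
    rintro x y ⟨a, b, rfl⟩
    exact ZL_RS hα hD hA1 hA2 W _ _ ⟨S a, S b, permCongr_mul_swap S x a b⟩
  have h1 := av_perm_sum hf
  have h2 : av f = CF α A W := av_equiv S.permCongr (ZL α A W)
  have h3 : ∀ e : Perm (T × Bool), f (Equiv.sumCongr e 1) =
      ZL α A v e + ZL α A v' 1 := by
    intro e
    have := ZL_sum (α := α) (A := A) hα hA (fun t => v (e (t, false))) (fun t => v (e (t, true)))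
      (fun t : R => v' (t, false)) (fun t => v' (t, true))
    have e1 : f (Equiv.sumCongr e 1) = Real.log (∑ σ : X ⊕ Y → Fin k,
        EW α A (univ : Finset (T ⊕ R))
        (Sum.map (fun t => v (e (t, false))) (fun t : R => v' (t, false)))
        (Sum.map (fun t => v (e (t, true))) (fun t => v' (t, true))) σ) := by
      simp only [f]
      unfold ZL
      congr 1
      refine Finset.sum_congr rfl fun σ _ => ?_
      unfold EW
      congr 1
      refine Finset.prod_congr rfl fun t _ => ?_
      rcases t with t | t <;> simp [W, S, Equiv.permCongr_apply]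
    rw [e1, this]
    rfl
  rw [h2, av_congr h3, av_add, av_const, Fintype.card_prod, Fintype.card_bool] at h1
  have h4 := abs_ZL_le hα hD hA1 hA2 v' 1
  have e2 : CF α A W - CF α A v = (CF α A W - (CF α A v + ZL α A v' 1)) + ZL α A v' 1 := by ring
  have h5 : |CF α A W - (CF α A v + ZL α A v' 1)| ≤ 8 * D * Fintype.card R := by
    refine le_trans h1 (le_of_eq ?_)
    push_cast; ring
  rw [e2]
  refine (abs_add_le _ _).trans ?_
  linarith

end aR

end Pool.Agent.Lib.R97Q2
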