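import Pool.Agent.Lib.R97Q2.NearAdd

set_option autoImplicit false
set_option linter.unusedSectionVars false
set_option linter.unusedVariables false

namespace Pool.Agent.Lib.R97Q2

open Finset Equiv Filter
open Function (update update_self update_of_ne update_eq_self update_comm)
open Pool.Agent.Lib.MP_7587db

section

variable {k : ℕ} [NeZero k] {α : Fin k → ℝ} {A : Fin k → Fin k → ℝ} {D : ℝ} {Δ g r : ℕ}

lemma exists_vtx_fin (hgr : 2 * r = Δ * g) (m : ℕ) :
    ∃ vtx : Fin (r * m) × Bool → Fin (g * m),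
      ∀ x, (univ.filter (fun a => vtx a = x)).card = Δ :=
  exists_vtx (by
    rw [Fintype.card_fin, Fintype.card_fin]
    calc 2 * (r * m) = (2 * r) * m := by ring
      _ = (Δ * g) * m := by rw [hgr]
      _ = Δ * (g * m) := by ring)

lemma abs_CF_le {T X : Type*} [Fintype T] [DecidableEq T] [Fintype X] [DecidableEq X]
    (hα : ∀ i, 0 < α i) (hD : 0 ≤ D) (hA1 : ∀ i j, Real.exp (-D) ≤ A i j)
    (hA2 : ∀ i j, A i j ≤ Real.exp D) (vtx : T × Bool → X) :
    |CF α A vtx| ≤ Fintype.card X * |Real.log (∑ i, α i)| + D * Fintype.card T :=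
  abs_av_le_of fun E => abs_ZL_le hα hD hA1 hA2 vtx E

lemma abs_aR_le (hα : ∀ i, 0 < α i) (hD : 0 ≤ D) (hA1 : ∀ i j, Real.exp (-D) ≤ A i j)
    (hA2 : ∀ i j, A i j ≤ Real.exp D) (hgr : 2 * r = Δ * g) (m : ℕ) :
    |aR α A Δ g r m| ≤ (g * |Real.log (∑ i, α i)| + D * r) * m := by
  obtain ⟨vtx, hv⟩ := exists_vtx_fin (Δ := Δ) (g := g) (r := r) hgr m
  rw [← aR_eq vtx hv (by rw [Fintype.card_fin]) (by rw [Fintype.card_fin])]
  refine (abs_CF_le hα hD hA1 hA2 vtx).trans (le_of_eq ?_)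
  rw [Fintype.card_fin, Fintype.card_fin]
  push_cast
  ring

lemma sum_fibres {T R X Y : Type*} [Fintype T] [DecidableEq T] [Fintype X] [DecidableEq X]
    [Fintype R] [DecidableEq R] [Fintype Y] [DecidableEq Y] (v : T × Bool → X) (v' : R × Bool → Y)
    (h : ∀ x, (univ.filter (fun a => v a = x)).card = Δ)
    (h' : ∀ x, (univ.filter (fun a => v' a = x)).card = Δ) (z : X ⊕ Y) :
    (univ.filter (fun a : (T ⊕ R) × Bool =>
      Sum.map v v' (Equiv.sumProdDistrib T R Bool a) = z)).card = Δ := by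
  rcases z with x | y
  · rw [← h x]
    symm
    refine Finset.card_bij (fun a _ => (Sum.inl a.1, a.2)) ?_ ?_ ?_
    · intro a ha
      simp only [Finset.mem_filter, Finset.mem_univ, true_and] at ha ⊢
      simp [ha]
    · intro a _ b _ hab
      simp only [Prod.mk.injEq, Sum.inl.injEq] at hab
      exact Prod.ext hab.1 hab.2
    · rintro ⟨b | b, β⟩ hb
      · refine ⟨(b, β), ?_, rfl⟩
        simpa using hb
      · simp at hb
  · rw [← h' y]
    symm
    refine Finset.card_bij (fun a _ => (Sum.inr a.1, a.2)) ?_ ?_ ?_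
    · intro a ha
      simp only [Finset.mem_filter, Finset.mem_univ, true_and] at ha ⊢
      simp [ha]
    · intro a _ b _ hab
      simp only [Prod.mk.injEq, Sum.inr.injEq] at hab
      exact Prod.ext hab.1 hab.2
    · rintro ⟨b | b, β⟩ hb
      · simp at hb
      · refine ⟨(b, β), ?_, rfl⟩
        simpa using hb

lemma aR_succ_le (hα : ∀ i, 0 < α i) (hD : 0 ≤ D) (hA1 : ∀ i j, Real.exp (-D) ≤ A i j)
    (hA2 : ∀ i j, A i j ≤ Real.exp D) (hgr : 2 * r = Δ * g) (m : ℕ) :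
    |aR α A Δ g r (m + 1) - aR α A Δ g r m| ≤
      8 * D * r + (g * |Real.log (∑ i, α i)| + D * r) := by
  obtain ⟨v, hv⟩ := exists_vtx_fin (Δ := Δ) (g := g) (r := r) hgr m
  obtain ⟨v', hv'⟩ : ∃ v' : Fin r × Bool → Fin g,
      ∀ x, (univ.filter (fun a => v' a = x)).card = Δ :=
    exists_vtx (by rw [Fintype.card_fin, Fintype.card_fin]; exact hgr)
  have h1 := CF_sum hα hD hA1 hA2 v v'
  have h2 := aR_eq (α := α) (A := A) (m := m + 1) (r := r) (g := g)
    (fun a : (Fin (r * m) ⊕ Fin r) × Bool =>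
      Sum.map v v' (Equiv.sumProdDistrib (Fin (r * m)) (Fin r) Bool a))
    (sum_fibres v v' hv hv') (by
      rw [Fintype.card_sum, Fintype.card_fin, Fintype.card_fin]; ring) (by
      rw [Fintype.card_sum, Fintype.card_fin, Fintype.card_fin]; ring)
  have h3 : CF α A v = aR α A Δ g r m := aR_eq v hv (by rw [Fintype.card_fin])
    (by rw [Fintype.card_fin])
  rw [h2, h3, Fintype.card_fin, Fintype.card_fin] at h1
  exact h1

variable {L : Type} [DistribLattice L] [Fintype L] {e : Fin k ≃ L}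

/-- convergence of the mean free energy of the configuration model -/
theorem conv_aR (H : Att e α A D) (hgr : 2 * r = Δ * g) (hg : 1 ≤ g) (hr : 1 ≤ r) :
    ∃ l, Tendsto (fun m : ℕ => aR α A Δ g r m / m) atTop (nhds l) := by
  set δ : ℝ := 1 / (4 * k + 8) with hδ
  have hδ0 : 0 < δ := by positivity
  have hD := H.D0
  refine conv_seq (aR α A Δ g r) (B := g * |Real.log (∑ i, α i)| + D * r)
    (S := 8 * D * r + (g * |Real.log (∑ i, α i)| + D * r)) (δ := δ) (by positivity) (by positivity)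
    (fun n _ => abs_aR_le H.αp hD.le H.A1 H.A2 hgr n)
    (fun n _ => aR_succ_le H.αp hD.le H.A1 H.A2 hgr n) hδ0 fun N hN => ?_
  obtain ⟨C, hC0, hC⟩ := near_add_aR H hgr hg hr N (by omega)
  refine ⟨2 * C, by positivity, fun n hn1 => ?_⟩
  have hn0 : (0 : ℝ) < n := by exact_mod_cast hn1
  set K := ⌊(n : ℝ) ^ δ⌋₊ with hK
  have hnδ : (1 : ℝ) ≤ (n : ℝ) ^ δ := Real.one_le_rpow (by exact_mod_cast hn1) hδ0.le
  have hK1 : 1 ≤ K := by
    rw [hK]; exact (Nat.one_le_floor_iff _).2 hnδ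
  have hK0 : (0 : ℝ) < K := by exact_mod_cast hK1
  have hKle : (K : ℝ) ≤ (n : ℝ) ^ δ := Nat.floor_le (by positivity)
  have hKpow : K ^ (4 * k + 8) ≤ n := by
    have h1 : (K : ℝ) ^ (4 * k + 8) ≤ ((n : ℝ) ^ δ) ^ (4 * k + 8) :=
      pow_le_pow_left₀ hK0.le hKle _
    have h2 : ((n : ℝ) ^ δ) ^ (4 * k + 8) = n := by
      rw [← Real.rpow_natCast, ← Real.rpow_mul hn0.le, hδ]
      push_cast
      rw [one_div, inv_mul_cancel₀ (by positivity), Real.rpow_one]
    rw [h2] at h1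
    exact_mod_cast h1
  have h3 := hC K n hK1 hKpow
  have h4 : (n : ℝ) ^ δ ≤ 2 * K := by
    have := Nat.lt_floor_add_one ((n : ℝ) ^ δ)
    have h5 : (1 : ℝ) ≤ K := by exact_mod_cast hK1
    rw [← hK] at this
    linarith
  have h5 : (1 : ℝ) / K ≤ 2 * (n : ℝ) ^ (-δ) := by
    rw [Real.rpow_neg hn0.le, div_le_iff₀ hK0]
    have hpos : 0 < (n : ℝ) ^ δ := by positivity
    calc (1 : ℝ) = ((n : ℝ) ^ δ)⁻¹ * (n : ℝ) ^ δ := by field_simp
      _ ≤ ((n : ℝ) ^ δ)⁻¹ * (2 * K) := mul_le_mul_of_nonneg_left h4 (by positivity)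
      _ = 2 * ((n : ℝ) ^ δ)⁻¹ * K := by ring
  have h6 := (abs_le.1 h3).1
  have h7 : C * ((n : ℝ) / K) ≤ 2 * C * ((n : ℝ) * (n : ℝ) ^ (-δ)) := by
    calc C * ((n : ℝ) / K) = C * ((n : ℝ) * (1 / K)) := by ring
      _ ≤ C * ((n : ℝ) * (2 * (n : ℝ) ^ (-δ))) := by
          refine mul_le_mul_of_nonneg_left ?_ hC0
          exact mul_le_mul_of_nonneg_left h5 hn0.le
      _ = 2 * C * ((n : ℝ) * (n : ℝ) ^ (-δ)) := by ring
  linarith

end

end Pool.Agent.Lib.R97Q2
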