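import Pool.Agent.Lib.R97Q2.Hom

set_option autoImplicit false
set_option linter.unusedSectionVars false
set_option linter.unusedVariables false

namespace Pool.Agent.Lib.R97Q2

open Finset Equiv
open Function (update update_self update_of_ne update_eq_self update_comm)
open Pool.Agent.Lib.MP_7587db

section pts

variable {P : Type*} [Fintype P] [DecidableEq P]

lemma av_perm_one (f : P → ℝ) (x : P) :
    (Fintype.card P : ℝ) * av (fun E : Perm P => f (E x)) = ∑ p, f p := by
  have h1 : ∀ x' : P, av (fun E : Perm P => f (E x')) = av (fun E : Perm P => f (E x)) := by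
    intro x'
    rw [← av_mulRight (swap x x') (fun E : Perm P => f (E x'))]
    exact av_congr fun E => by rw [Perm.mul_apply, swap_apply_right]
  have h2 : (Fintype.card P : ℝ) * av (fun E : Perm P => f (E x)) =
      ∑ x', av (fun E : Perm P => f (E x')) := by
    rw [Finset.sum_congr rfl fun x' _ => h1 x', Finset.sum_const, Finset.card_univ, nsmul_eq_mul]
  rw [h2, ← av_sum]
  have h3 : ∀ E : Perm P, ∑ x', f (E x') = ∑ p, f p := fun E => Equiv.sum_comp E f
  rw [av_congr h3, av_const]

lemma av_perm_two (f f' : P → ℝ) {x x' : P} (hx : x ≠ x') :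
    ((Fintype.card P : ℝ) - 1) * av (fun E : Perm P => f (E x) * f' (E x')) =
      av (fun E : Perm P => f (E x) * ((∑ p, f' p) - f' (E x))) := by
  have h1 : ∀ y ∈ univ.erase x, av (fun E : Perm P => f (E x) * f' (E y)) =
      av (fun E : Perm P => f (E x) * f' (E x')) := by
    intro y hy
    have hyx : y ≠ x := Finset.ne_of_mem_erase hy
    rw [← av_mulRight (swap x' y) (fun E : Perm P => f (E x) * f' (E y))]
    exact av_congr fun E => by
      rw [Perm.mul_apply, Perm.mul_apply, swap_apply_right, swap_apply_of_ne_of_ne hx hyx.symm]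
  have h2 : ((Fintype.card P : ℝ) - 1) * av (fun E : Perm P => f (E x) * f' (E x')) =
      ∑ y ∈ univ.erase x, av (fun E : Perm P => f (E x) * f' (E y)) := by
    rw [Finset.sum_congr rfl h1, Finset.sum_const, Finset.card_erase_of_mem (Finset.mem_univ x),
      Finset.card_univ, nsmul_eq_mul, Nat.cast_sub (Fintype.card_pos_iff.2 ⟨x⟩)]
    simp
  rw [h2, ← av_sum]
  refine av_congr fun E => ?_
  rw [← Finset.mul_sum]
  congr 1
  have h3 := Finset.add_sum_erase univ (fun y => f' (E y)) (Finset.mem_univ x)
  have h4 : ∑ y, f' (E y) = ∑ p, f' p := Equiv.sum_comp E f'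
  linarith

end pts

section types

variable {J T : Type*} [Fintype J] [DecidableEq J] [AddCommGroup J] [Fintype T] [DecidableEq T]

lemma Nz_eq (E : Perm ((J × T) × Bool)) (z : J × J) :
    Nz E z = ∑ i : J × T, (if (E (i, false)).1.1 = z.1 then (1 : ℝ) else 0) *
      (if (E (i, true)).1.1 = z.2 then (1 : ℝ) else 0) := by
  unfold Nz
  rw [Finset.card_filter]
  push_cast
  refine Finset.sum_congr rfl fun i _ => ?_
  have : typ E i = z ↔ (E (i, false)).1.1 = z.1 ∧ (E (i, true)).1.1 = z.2 := by
    unfold typ
    exact Prod.ext_iff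
  by_cases h1 : (E (i, false)).1.1 = z.1 <;> by_cases h2 : (E (i, true)).1.1 = z.2 <;>
    simp [this, h1, h2]

lemma part_sum (a : J) : ∑ p : (J × T) × Bool, (if p.1.1 = a then (1 : ℝ) else 0) =
    2 * Fintype.card T := by
  have h1 : ∀ x : J, ∑ y : T, ∑ b : Bool, (if ((x, y), b).1.1 = a then (1 : ℝ) else 0) =
      if x = a then 2 * (Fintype.card T : ℝ) else 0 := by
    intro x
    by_cases h : x = a
    · simp [h, mul_comm]
    · simp [h]
  rw [Fintype.sum_prod_type, Fintype.sum_prod_type]
  rw [Finset.sum_congr rfl fun x _ => h1 x]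
  simp

/-- the mean number of edges of a given type -/
lemma av_Nz (hT : 0 < Fintype.card T) (z : J × J) :
    |av (fun E : Perm ((J × T) × Bool) => Nz E z) - (Fintype.card T : ℝ) / Fintype.card J| ≤ 1 := by
  have hJ1 : (1 : ℝ) ≤ Fintype.card J := by
    exact_mod_cast Fintype.card_pos_iff.2 ⟨(0 : J)⟩
  have hT1 : (1 : ℝ) ≤ Fintype.card T := by exact_mod_cast hT
  set t : ℝ := (Fintype.card T : ℝ) with ht
  set j : ℝ := (Fintype.card J : ℝ) with hj
  set ε : ℝ := if z.1 = z.2 then 1 else 0 with hε
  have hM : (Fintype.card ((J × T) × Bool) : ℝ) = 2 * (j * t) := by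
    rw [Fintype.card_prod, Fintype.card_prod, Fintype.card_bool]
    push_cast; ring
  have hjt : 1 ≤ j * t := by nlinarith
  have hP : ∀ i : J × T, av (fun E : Perm ((J × T) × Bool) =>
      (if (E (i, false)).1.1 = z.1 then (1 : ℝ) else 0) *
      (if (E (i, true)).1.1 = z.2 then (1 : ℝ) else 0)) =
      (1 / j) * (2 * t - ε) / (2 * (j * t) - 1) := by
    intro i
    have h1 := av_perm_one (fun p : (J × T) × Bool => if p.1.1 = z.1 then (1 : ℝ) else 0)
      (i, false)
    rw [part_sum, hM] at h1
    have h2 := av_perm_two (fun p : (J × T) × Bool => if p.1.1 = z.1 then (1 : ℝ) else 0)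
      (fun p : (J × T) × Bool => if p.1.1 = z.2 then (1 : ℝ) else 0)
      (x := (i, false)) (x' := (i, true)) (by simp)
    rw [part_sum, hM] at h2
    have h3 : ∀ E : Perm ((J × T) × Bool), (if (E (i, false)).1.1 = z.1 then (1 : ℝ) else 0) *
        (2 * t - (if (E (i, false)).1.1 = z.2 then (1 : ℝ) else 0)) =
        (if (E (i, false)).1.1 = z.1 then (1 : ℝ) else 0) * (2 * t - ε) := by
      intro E
      by_cases h4 : (E (i, false)).1.1 = z.1
      · rw [if_pos h4, hε, h4]
      · rw [if_neg h4]; ring
    rw [av_congr h3, av_mul_right] at h2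
    have h5 : av (fun E : Perm ((J × T) × Bool) =>
        (if (E (i, false)).1.1 = z.1 then (1 : ℝ) else 0)) = 1 / j := by
      rw [eq_div_iff (by positivity)]
      have h6 : 2 * t * (j * av (fun E : Perm ((J × T) × Bool) =>
          (if (E (i, false)).1.1 = z.1 then (1 : ℝ) else 0))) = 2 * t * 1 := by
        rw [mul_one]
        rw [← ht] at h1
        linarith [h1]
      have := mul_left_cancel₀ (by positivity) h6
      linarith
    rw [h5] at h2
    rw [eq_div_iff (by linarith)]
    linarith
  have hN : av (fun E : Perm ((J × T) × Bool) => Nz E z) =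
      j * t * ((1 / j) * (2 * t - ε) / (2 * (j * t) - 1)) := by
    rw [av_congr (fun E => Nz_eq E z), av_sum, Finset.sum_congr rfl fun i _ => hP i,
      Finset.sum_const, Finset.card_univ, Fintype.card_prod, nsmul_eq_mul]
    push_cast
    ring
  rw [hN]
  have hden : 0 < j * (2 * (j * t) - 1) := by
    have : 0 < 2 * (j * t) - 1 := by linarith
    positivity
  have e1 : j * t * ((1 / j) * (2 * t - ε) / (2 * (j * t) - 1)) - t / j =
      t * (1 - ε * j) / (j * (2 * (j * t) - 1)) := by
    obtain ⟨c, hc⟩ : ∃ c : ℝ, c = 2 * (j * t) - 1 := ⟨_, rfl⟩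
    have h1 : c ≠ 0 := by
      have : 0 < 2 * (j * t) - 1 := by linarith
      rw [hc]; exact this.ne'
    have h2 : j ≠ 0 := by positivity
    rw [← hc]
    field_simp
    rw [hc]
    ring
  rw [e1, abs_div, abs_of_pos hden, div_le_one hden, abs_mul, abs_of_nonneg (by linarith : 0 ≤ t)]
  have h7 : |1 - ε * j| ≤ j := by
    rw [hε]
    split_ifs
    · rw [one_mul, abs_of_nonpos (by linarith)]; linarith
    · rw [zero_mul, sub_zero, abs_one]; exact hJ1
  calc t * |1 - ε * j| ≤ t * j := mul_le_mul_of_nonneg_left h7 (by linarith)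
    _ = j * t := by ring
    _ ≤ j * (2 * (j * t) - 1) := by
        refine mul_le_mul_of_nonneg_left ?_ (by linarith)
        nlinarith

/-- the numbers of edges of a given type are concentrated -/
lemma Nz_conc (hT : 0 < Fintype.card T) (z : J × J) :
    av (fun E : Perm ((J × T) × Bool) => |Nz E z - (Fintype.card T : ℝ) / Fintype.card J|) ≤
      10 * Real.sqrt (8 * (Fintype.card J * Fintype.card T)) + 1 := by
  have hlip : ∀ E E' : Perm ((J × T) × Bool), RS _ E E' → |Nz E z - Nz E' z| ≤ 2 := by
    rintro E E' ⟨a, b, rfl⟩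
    have hch := swap_changed E a b
    have hsub : ∀ E1 E2 : Perm ((J × T) × Bool), (univ.filter (fun i => typ E1 i = z)) ⊆
        (univ.filter (fun i => typ E2 i = z)) ∪
        (univ.filter (fun t => E1 (t, false) ≠ E2 (t, false) ∨ E1 (t, true) ≠ E2 (t, true))) := by
      intro E1 E2 i hi
      simp only [Finset.mem_union, Finset.mem_filter, Finset.mem_univ, true_and] at hi ⊢
      by_cases h1 : E1 (i, false) = E2 (i, false)
      · by_cases h2 : E1 (i, true) = E2 (i, true)
        · left
          rw [← hi]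
          unfold typ
          rw [h1, h2]
        · exact Or.inr (Or.inr h2)
      · exact Or.inr (Or.inl h1)
    have c1 := (Finset.card_le_card (hsub E (E * swap a b))).trans (Finset.card_union_le _ _)
    have c2 := (Finset.card_le_card (hsub (E * swap a b) E)).trans (Finset.card_union_le _ _)
    have c3 : (univ.filter (fun t => (E * swap a b) (t, false) ≠ E (t, false) ∨
        (E * swap a b) (t, true) ≠ E (t, true))).card ≤ 2 := by
      refine le_trans (le_of_eq ?_) hch
      congr 1
      refine Finset.filter_congr fun i _ => ?_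
      rw [ne_comm, ne_comm (a := (E * swap a b) (i, true))]
    have d1 : (univ.filter (fun i => typ E i = z)).card ≤
        (univ.filter (fun i => typ (E * swap a b) i = z)).card + 2 := by omega
    have d2 : (univ.filter (fun i => typ (E * swap a b) i = z)).card ≤
        (univ.filter (fun i => typ E i = z)).card + 2 := by omega
    have d1' : ((univ.filter (fun i => typ E i = z)).card : ℝ) ≤
        (univ.filter (fun i => typ (E * swap a b) i = z)).card + 2 := by exact_mod_cast d1
    have d2' : ((univ.filter (fun i => typ (E * swap a b) i = z)).card : ℝ) ≤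
        (univ.filter (fun i => typ E i = z)).card + 2 := by exact_mod_cast d2
    unfold Nz
    rw [abs_le]
    constructor <;> linarith
  have hJ0 : (0 : ℝ) < Fintype.card J := by
    exact_mod_cast Fintype.card_pos_iff.2 ⟨(0 : J)⟩
  have hT0 : (0 : ℝ) < Fintype.card T := by exact_mod_cast hT
  have hconc : Conc (Perm ((J × T) × Bool)) (RS _) (8 * (Fintype.card J * Fintype.card T)) := by
    refine (conc_perm ((J × T) × Bool)).mono (le_of_eq ?_)
    rw [Fintype.card_prod, Fintype.card_prod, Fintype.card_bool]
    push_cast; ring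
  have h1 := hconc.l1 (by positivity) (by norm_num : (0 : ℝ) < 2) hlip
  have h2 := av_Nz hT z
  have h3 : av (fun E : Perm ((J × T) × Bool) => |Nz E z - (Fintype.card T : ℝ) / Fintype.card J|) ≤
      av (fun E : Perm ((J × T) × Bool) =>
        |Nz E z - av (fun E : Perm ((J × T) × Bool) => Nz E z)| + 1) := by
    refine av_mono fun E => ?_
    have e1 : Nz E z - (Fintype.card T : ℝ) / Fintype.card J =
      (Nz E z - av (fun E : Perm ((J × T) × Bool) => Nz E z)) +
      (av (fun E : Perm ((J × T) × Bool) => Nz E z) - (Fintype.card T : ℝ) / Fintype.card J) := by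
      ring
    rw [e1]
    refine (abs_add_le _ _).trans ?_
    linarith
  rw [av_add, av_const] at h3
  linarith

/-- types of the shifted template -/
lemma Nz_Td (δ : T → J) (z : J × J) :
    Nz (Td δ) z = ((univ.filter (fun t => δ t = z.2 - z.1)).card : ℝ) := by
  unfold Nz
  congr 1
  refine Finset.card_bij (fun i _ => i.2) ?_ ?_ ?_
  · intro i hi
    simp only [Finset.mem_filter, Finset.mem_univ, true_and] at hi ⊢
    rw [← hi]
    unfold typ
    rw [Td_false, Td_true]
    simp
  · intro i hi i' hi' h
    simp only [Finset.mem_filter, Finset.mem_univ, true_and] at hi hi'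
    have h1 : i.1 = z.1 := by rw [← hi]; rfl
    have h2 : i'.1 = z.1 := by rw [← hi']; rfl
    exact Prod.ext (by rw [h1, h2]) h
  · intro t ht
    simp only [Finset.mem_filter, Finset.mem_univ, true_and] at ht
    refine ⟨(z.1, t), ?_, rfl⟩
    simp only [Finset.mem_filter, Finset.mem_univ, true_and]
    unfold typ
    rw [Td_false, Td_true]
    refine Prod.ext rfl ?_
    simp only
    rw [ht]
    simp

end types

/-- balanced shifts exist -/
lemma exists_balanced (J T : Type*) [Fintype J] [DecidableEq J] [Nonempty J] [Fintype T]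
    [DecidableEq T] :
    ∃ δ : T → J, ∀ c, |((univ.filter (fun t => δ t = c)).card : ℝ) -
      (Fintype.card T : ℝ) / Fintype.card J| ≤ 1 := by
  set j := Fintype.card J with hj
  have hj0 : 0 < j := Fintype.card_pos
  let eT := Fintype.equivFin T
  let eJ := Fintype.equivFin J
  refine ⟨fun t => eJ.symm ⟨(eT t : ℕ) % j, Nat.mod_lt _ hj0⟩, fun c => ?_⟩
  have h1 : (univ.filter (fun t : T => eJ.symm ⟨(eT t : ℕ) % j, Nat.mod_lt _ hj0⟩ = c)).card =
      (Fintype.card T).count (· ≡ (eJ c : ℕ) [MOD j]) := by
    rw [Nat.count_eq_card_filter_range]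
    refine Finset.card_bij (fun t _ => (eT t : ℕ)) ?_ ?_ ?_
    · intro t ht
      simp only [Finset.mem_filter, Finset.mem_univ, true_and, Finset.mem_range] at ht ⊢
      refine ⟨(eT t).isLt, ?_⟩
      have h2 : (eJ c : ℕ) = (eT t : ℕ) % j := by rw [← ht]; simp
      rw [h2]
      exact (Nat.mod_modEq _ _).symm
    · intro t _ t' _ h
      exact eT.injective (Fin.ext h)
    · intro x hx
      simp only [Finset.mem_filter, Finset.mem_range] at hx
      refine ⟨eT.symm ⟨x, hx.1⟩, ?_, by simp⟩
      simp only [Finset.mem_filter, Finset.mem_univ, true_and, Equiv.apply_symm_apply]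
      rw [Equiv.symm_apply_eq]
      apply Fin.ext
      simp only
      have h3 : x % j = (eJ c : ℕ) % j := hx.2
      rw [h3]
      exact Nat.mod_eq_of_lt (eJ c).isLt
  rw [h1, Nat.count_modEq_card _ hj0]
  have hj0' : (0 : ℝ) < j := by exact_mod_cast hj0
  have h4 : ((Fintype.card T : ℕ) : ℝ) = j * ((Fintype.card T / j : ℕ) : ℝ) +
      ((Fintype.card T % j : ℕ) : ℝ) := by
    exact_mod_cast (Nat.div_add_mod (Fintype.card T) j).symm
  have h5 : ((Fintype.card T % j : ℕ) : ℝ) < j := by exact_mod_cast Nat.mod_lt _ hj0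
  have h6 : (0 : ℝ) ≤ ((Fintype.card T % j : ℕ) : ℝ) := Nat.cast_nonneg _
  have h7 : (Fintype.card T : ℝ) / j = ((Fintype.card T / j : ℕ) : ℝ) +
      ((Fintype.card T % j : ℕ) : ℝ) / j := by
    rw [h4]; field_simp
  have h8 : ((Fintype.card T % j : ℕ) : ℝ) / j ≤ 1 := (div_le_one hj0').2 h5.le
  have h9 : 0 ≤ ((Fintype.card T % j : ℕ) : ℝ) / j := by positivity
  rw [h7]
  push_cast
  split_ifs
  · rw [abs_le]; constructor <;> push_cast <;> linarith
  · rw [abs_le]; constructor <;> push_cast <;> linarith

end Pool.Agent.Lib.R97Q2
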