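import Pool.Agent.Lib.R97Q2.Marks

set_option autoImplicit false
set_option linter.unusedSectionVars false
set_option linter.unusedVariables false

namespace Pool.Agent.Lib.R97Q2

open Finset Equiv
open Function (update update_self update_of_ne update_eq_self update_comm)
open Pool.Agent.Lib.MP_7587db

/-- an attractive target -/
structure Att {k : ℕ} {L : Type} [DistribLattice L] [Fintype L] (e : Fin k ≃ L)
    (α : Fin k → ℝ) (A : Fin k → Fin k → ℝ) (D : ℝ) : Prop where
  αp : ∀ i, 0 < α i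
  αL : LSM1 e α
  AL : LSM2 e A
  D0 : 0 < D
  A1 : ∀ i j, Real.exp (-D) ≤ A i j
  A2 : ∀ i j, A i j ≤ Real.exp D

section ew

variable {k : ℕ} {V : Type*} [Fintype V] [DecidableEq V] {ι : Type*}

/-- weight of a configuration of spins on a multigraph -/
noncomputable def EW (α : Fin k → ℝ) (A : Fin k → Fin k → ℝ) (I : Finset ι) (p q : ι → V)
    (σ : V → Fin k) : ℝ :=
  (∏ u, α (σ u)) * ∏ i ∈ I, A (σ (p i)) (σ (q i))

variable {α : Fin k → ℝ} {A : Fin k → Fin k → ℝ} {D : ℝ}

lemma Att.Ap {L : Type} [DistribLattice L] [Fintype L] {e : Fin k ≃ L} (H : Att e α A D) :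
    ∀ i j, 0 < A i j := fun i j => (Real.exp_pos _).trans_le (H.A1 i j)

lemma EW_pos (hα : ∀ i, 0 < α i) (hA : ∀ i j, 0 < A i j) (I : Finset ι) (p q : ι → V)
    (σ : V → Fin k) : 0 < EW α A I p q σ :=
  mul_pos (Finset.prod_pos fun _ _ => hα _) (Finset.prod_pos fun _ _ => hA _ _)

variable [NeZero k]

lemma EW_lsmv {L : Type} [DistribLattice L] [Fintype L] {e : Fin k ≃ L} (H : Att e α A D)
    (I : Finset ι) (p q : ι → V) : LSMV e (EW α A I p q) :=
  lsmv_mul (fun σ => Finset.prod_pos fun _ _ => H.αp _)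
    (fun σ => Finset.prod_pos fun _ _ => H.Ap _ _)
    (lsmv_prod e Finset.univ (fun u σ => H.αp _) fun u => lsmv_site H.αL u)
    (lsmv_prod e I (fun i σ => H.Ap _ _) fun i => lsmv_edge H.AL _ _)

lemma prod_lip {β : Type*} (I : Finset β) (P : β → Prop) [DecidablePred P] {f f' : β → ℝ}
    {D : ℝ} (h1 : ∀ i, Real.exp (-D) ≤ f' i) (h2 : ∀ i, f i ≤ Real.exp D)
    (h0 : ∀ i, 0 < f i) (h3 : ∀ i, ¬ P i → f i = f' i) :
    ∏ i ∈ I, f i ≤ (∏ i ∈ I, f' i) * Real.exp (2 * D * (I.filter P).card) := by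
  have e1 : Real.exp (2 * D * (I.filter P).card) =
      ∏ i ∈ I, (if P i then Real.exp (2 * D) else 1) := by
    rw [← Finset.prod_filter, Finset.prod_const, ← Real.exp_nat_mul]
    congr 1; ring
  rw [e1, ← Finset.prod_mul_distrib]
  refine Finset.prod_le_prod (fun i _ => (h0 i).le) fun i _ => ?_
  split_ifs with hP
  · have h4 : Real.exp D = Real.exp (-D) * Real.exp (2 * D) := by
      rw [← Real.exp_add]; congr 1; ring
    refine (h2 i).trans ?_
    rw [h4]
    exact mul_le_mul_of_nonneg_right (h1 i) (Real.exp_pos _).le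
  · rw [h3 i hP, mul_one]

variable {κ : Type*} [Fintype κ] [DecidableEq κ] {sf w : Fin k → ℝ}

lemma FM_lip_aux (hα : ∀ i, 0 < α i) (hD : 0 ≤ D) (hA1 : ∀ i j, Real.exp (-D) ≤ A i j)
    (hA2 : ∀ i j, A i j ≤ Real.exp D) (hw1 : ∀ i, Real.exp (-D) ≤ w i)
    (hw2 : ∀ i, w i ≤ Real.exp D) (I : Finset ι) (p q p' q' : ι → V) (z z' : κ → V)
    (ξ : κ → Bool) (l : ℝ) {n1 n2 : ℕ}
    (h1 : (I.filter (fun i => p i ≠ p' i ∨ q i ≠ q' i)).card ≤ n1)
    (h2 : (univ.filter (fun x => z x ≠ z' x)).card ≤ n2) :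
    FM sf (EW α A I p q) w z l ξ ≤ FM sf (EW α A I p' q') w z' l ξ + 2 * D * (n1 + n2) := by
  have hA : ∀ i j, 0 < A i j := fun i j => (Real.exp_pos _).trans_le (hA1 i j)
  have hw : ∀ i, 0 < w i := fun i => (Real.exp_pos _).trans_le (hw1 i)
  have hc1 : ∀ (b : Bool) i, Real.exp (-D) ≤ cond b (w i) 1 := by
    intro b i
    cases b
    · simp only [cond_false]
      rw [← Real.exp_zero]; exact Real.exp_le_exp.2 (by linarith)
    · exact hw1 i
  have hc2 : ∀ (b : Bool) i, cond b (w i) 1 ≤ Real.exp D := by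
    intro b i
    cases b
    · simp only [cond_false]
      rw [← Real.exp_zero]; exact Real.exp_le_exp.2 hD
    · exact hw2 i
  have hpt : ∀ σ, GM sf (EW α A I p q) w z ξ l σ ≤
      GM sf (EW α A I p' q') w z' ξ l σ * Real.exp (2 * D * (n1 + n2)) := by
    intro σ
    have a1 := prod_lip I (fun i => p i ≠ p' i ∨ q i ≠ q' i)
      (f := fun i => A (σ (p i)) (σ (q i))) (f' := fun i => A (σ (p' i)) (σ (q' i)))
      (fun i => hA1 _ _) (fun i => hA2 _ _) (fun i => hA _ _) (fun i hi => by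
        push Not at hi
        rw [hi.1, hi.2])
    have a2 := prod_lip (univ : Finset κ) (fun x => z x ≠ z' x)
      (f := fun x => cond (ξ x) (w (σ (z x))) 1) (f' := fun x => cond (ξ x) (w (σ (z' x))) 1)
      (fun x => hc1 _ _) (fun x => hc2 _ _) (fun x => cond_pos hw _ _) (fun x hx => by
        push Not at hx
        rw [hx])
    have a3 : Real.exp (2 * D * (I.filter (fun i => p i ≠ p' i ∨ q i ≠ q' i)).card) ≤
        Real.exp (2 * D * n1) := by
      refine Real.exp_le_exp.2 (mul_le_mul_of_nonneg_left (by exact_mod_cast h1) (by linarith))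
    have a4 : Real.exp (2 * D * (univ.filter (fun x => z x ≠ z' x)).card) ≤
        Real.exp (2 * D * n2) := by
      refine Real.exp_le_exp.2 (mul_le_mul_of_nonneg_left (by exact_mod_cast h2) (by linarith))
    have b1 := a1.trans (mul_le_mul_of_nonneg_left a3
      (Finset.prod_nonneg fun i _ => (hA (σ (p' i)) (σ (q' i))).le))
    have b2 := a2.trans (mul_le_mul_of_nonneg_left a4
      (Finset.prod_nonneg fun x _ => (cond_pos hw (ξ x) (σ (z' x))).le))
    have e1 : Real.exp (2 * D * (n1 + n2)) = Real.exp (2 * D * n1) * Real.exp (2 * D * n2) := by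
      rw [← Real.exp_add]; congr 1; ring
    unfold GM EW
    rw [e1]
    have hp0 : 0 < ∏ u, α (σ u) := Finset.prod_pos fun u _ => hα _
    calc (∏ u, α (σ u)) * (∏ i ∈ I, A (σ (p i)) (σ (q i))) *
          (∏ x, cond (ξ x) (w (σ (z x))) 1) * Real.exp (l * Msum sf σ)
        = (∏ u, α (σ u)) * ((∏ i ∈ I, A (σ (p i)) (σ (q i))) *
          (∏ x, cond (ξ x) (w (σ (z x))) 1)) * Real.exp (l * Msum sf σ) := by ring
      _ ≤ (∏ u, α (σ u)) * (((∏ i ∈ I, A (σ (p' i)) (σ (q' i))) * Real.exp (2 * D * n1)) *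
          ((∏ x, cond (ξ x) (w (σ (z' x))) 1) * Real.exp (2 * D * n2))) *
          Real.exp (l * Msum sf σ) := by
          refine mul_le_mul_of_nonneg_right (mul_le_mul_of_nonneg_left ?_ hp0.le)
            (Real.exp_pos _).le
          exact mul_le_mul b1 b2 (Finset.prod_nonneg fun x _ => (cond_pos hw _ _).le)
            (mul_nonneg (Finset.prod_nonneg fun i _ => (hA _ _).le) (Real.exp_pos _).le)
      _ = _ := by ring
  have hp1 := sum_W_pos (GM_pos (sf := sf) (z := z) (EW_pos (V := V) hα hA I p q) hw ξ l)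
  have hp2 := sum_W_pos (GM_pos (sf := sf) (z := z') (EW_pos (V := V) hα hA I p' q') hw ξ l)
  unfold FM
  have hlog : Real.log (∑ σ, GM sf (EW α A I p' q') w z' ξ l σ) + 2 * D * (n1 + n2) =
      Real.log ((∑ σ, GM sf (EW α A I p' q') w z' ξ l σ) * Real.exp (2 * D * (n1 + n2))) := by
    rw [Real.log_mul hp2.ne' (Real.exp_pos _).ne', Real.log_exp]
  rw [hlog]
  refine Real.log_le_log hp1 ?_
  rw [Finset.sum_mul]
  exact Finset.sum_le_sum fun σ _ => hpt σ

lemma FM_lip (hα : ∀ i, 0 < α i) (hD : 0 ≤ D) (hA1 : ∀ i j, Real.exp (-D) ≤ A i j)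
    (hA2 : ∀ i j, A i j ≤ Real.exp D) (hw1 : ∀ i, Real.exp (-D) ≤ w i)
    (hw2 : ∀ i, w i ≤ Real.exp D) (I : Finset ι) (p q p' q' : ι → V) (z z' : κ → V)
    (ξ : κ → Bool) (l : ℝ) {n1 n2 : ℕ}
    (h1 : (I.filter (fun i => p i ≠ p' i ∨ q i ≠ q' i)).card ≤ n1)
    (h2 : (univ.filter (fun x => z x ≠ z' x)).card ≤ n2) :
    |FM sf (EW α A I p q) w z l ξ - FM sf (EW α A I p' q') w z' l ξ| ≤ 2 * D * (n1 + n2) := by
  have a1 := FM_lip_aux (sf := sf) hα hD hA1 hA2 hw1 hw2 I p q p' q' z z' ξ l h1 h2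
  have a2 := FM_lip_aux (sf := sf) hα hD hA1 hA2 hw1 hw2 I p' q' p q z' z ξ l (n1 := n1) (n2 := n2)
    (by
      refine le_trans (le_of_eq ?_) h1
      congr 1
      refine Finset.filter_congr fun i _ => ?_
      rw [ne_comm, ne_comm (a := q' i)])
    (by
      refine le_trans (le_of_eq ?_) h2
      congr 1
      refine Finset.filter_congr fun i _ => ?_
      rw [ne_comm])
  rw [abs_le]
  constructor <;> linarith

/-- relabelling the vertices, the edges and the positions -/
lemma FM_relabel {V' ι' κ' : Type*} [Fintype V'] [DecidableEq V'] [Fintype κ']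
    (π : V ≃ V') (ρ : ι ≃ ι') (τ : κ ≃ κ') (I : Finset ι) (p q : ι → V)
    (p' q' : ι' → V') (hp : ∀ i, π (p i) = p' (ρ i)) (hq : ∀ i, π (q i) = q' (ρ i))
    (z : κ → V) (z' : κ' → V') (hz : ∀ x, π (z x) = z' (τ x)) (l : ℝ) (ξ : κ' → Bool) :
    FM sf (EW α A I p q) w z l (fun x => ξ (τ x)) =
      FM sf (EW α A (I.map ρ.toEmbedding) p' q') w z' l ξ := by
  unfold FM
  congr 1
  rw [← Equiv.sum_comp (π.arrowCongr (Equiv.refl (Fin k)))]
  refine Finset.sum_congr rfl fun σ _ => ?_
  have h1 : (π.arrowCongr (Equiv.refl (Fin k))) σ = fun v => σ (π.symm v) := by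
    funext j; simp [Equiv.arrowCongr]
  rw [h1]
  unfold GM EW
  congr 1
  · congr 1
    · congr 1
      · rw [← Equiv.prod_comp π]
        simp
      · rw [Finset.prod_map]
        refine Finset.prod_congr rfl fun i _ => ?_
        simp [← hp, ← hq]
    · rw [← Equiv.prod_comp τ]
      refine Finset.prod_congr rfl fun x _ => ?_
      simp [← hz]
  · congr 2
    unfold Msum sv
    rw [← Equiv.sum_comp π]
    simp

end ew

section cyc

variable {J T X : Type*} [Fintype J] [DecidableEq J] [AddCommGroup J] [Fintype T] [DecidableEq T]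
  [Fintype X] [DecidableEq X] {k : ℕ}

/-- location of a position -/
def loc (vtx : T × Bool → X) (g : J → Perm (T × Bool)) (p : J × (T × Bool)) : J × X :=
  (p.1, vtx (g p.1 p.2))

/-- first end of an edge -/
def eP (vtx : T × Bool → X) (g : J → Perm (T × Bool)) (i : J × T) : J × X :=
  loc vtx g (i.1, (i.2, false))

/-- second end of an edge, for the shift `δ` -/
def eQ (vtx : T × Bool → X) (δ : T → J) (g : J → Perm (T × Bool)) (i : J × T) : J × X :=
  loc vtx g (i.1 + δ i.2, (i.2, true))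

/-- weights of the cyclic model with shift `δ` and edges at the levels in `B` -/
noncomputable def CW (α : Fin k → ℝ) (A : Fin k → Fin k → ℝ) (vtx : T × Bool → X) (δ : T → J)
    (B : Finset T) (g : J → Perm (T × Bool)) : (J × X → Fin k) → ℝ :=
  EW α A ((univ : Finset J) ×ˢ B) (eP vtx g) (eQ vtx δ g)

variable {α : Fin k → ℝ} {A : Fin k → Fin k → ℝ} {vtx : T × Bool → X} {δ : T → J}

lemma CW_insert (B : Finset T) {y : T} (hy : y ∉ B) (g : J → Perm (T × Bool))
    (σ : J × X → Fin k) :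
    CW α A vtx δ (insert y B) g σ = CW α A vtx δ B g σ *
      ∏ i : J, A (σ (loc vtx g (i, (y, false)))) (σ (loc vtx g (i + δ y, (y, true)))) := by
  unfold CW EW
  rw [mul_assoc]
  congr 1
  rw [Finset.prod_product, Finset.prod_product, ← Finset.prod_mul_distrib]
  refine Finset.prod_congr rfl fun i _ => ?_
  rw [Finset.prod_insert hy, mul_comm]
  rfl

lemma CW_congr (B : Finset T) {δ' : T → J} (h : ∀ t ∈ B, δ t = δ' t) (g : J → Perm (T × Bool)) :
    CW α A vtx δ B g = CW α A vtx δ' B g := by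
  funext σ
  unfold CW EW
  congr 1
  refine Finset.prod_congr rfl fun i hi => ?_
  have := h i.2 (Finset.mem_product.1 hi).2
  simp only [eQ, this]

lemma loc_mul_of_ne (g : J → Perm (T × Bool)) (i : J) (a b : T × Bool) (p : J × (T × Bool))
    (h1 : p ≠ (i, a)) (h2 : p ≠ (i, b)) :
    loc vtx (g * Pi.mulSingle i (swap a b)) p = loc vtx g p := by
  obtain ⟨j, c⟩ := p
  unfold loc
  simp only [Pi.mul_apply]
  by_cases hj : j = i
  · subst hj
    have h3 : c ≠ a := fun h => h1 (by rw [h])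
    have h4 : c ≠ b := fun h => h2 (by rw [h])
    rw [Pi.mulSingle_eq_same, Perm.mul_apply, swap_apply_of_ne_of_ne h3 h4]
  · rw [Pi.mulSingle_eq_of_ne hj, mul_one]

lemma loc_mul_left (g : J → Perm (T × Bool)) (i : J) (a b : T × Bool) :
    loc vtx (g * Pi.mulSingle i (swap a b)) (i, a) = loc vtx g (i, b) := by
  unfold loc
  simp [Pi.mul_apply, Perm.mul_apply]

lemma CW_mul (B : Finset T) (g : J → Perm (T × Bool)) (i : J) (a b : T × Bool) (ha : a.1 ∉ B)
    (hb : b.1 ∉ B) : CW α A vtx δ B (g * Pi.mulSingle i (swap a b)) = CW α A vtx δ B g := by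
  funext σ
  unfold CW EW
  congr 1
  refine Finset.prod_congr rfl fun x hx => ?_
  have hx2 := (Finset.mem_product.1 hx).2
  have h1 : eP vtx (g * Pi.mulSingle i (swap a b)) x = eP vtx g x := by
    unfold eP
    refine loc_mul_of_ne g i a b _ ?_ ?_
    · intro h
      have : x.2 = a.1 := by rw [← (Prod.mk.inj h).2]
      exact ha (this ▸ hx2)
    · intro h
      have : x.2 = b.1 := by rw [← (Prod.mk.inj h).2]
      exact hb (this ▸ hx2)
  have h2 : eQ vtx δ (g * Pi.mulSingle i (swap a b)) x = eQ vtx δ g x := by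
    unfold eQ
    refine loc_mul_of_ne g i a b _ ?_ ?_
    · intro h
      have : x.2 = a.1 := by rw [← (Prod.mk.inj h).2]
      exact ha (this ▸ hx2)
    · intro h
      have : x.2 = b.1 := by rw [← (Prod.mk.inj h).2]
      exact hb (this ▸ hx2)
  rw [h1, h2]

lemma loc_fibre {Δ : ℕ} (hv : ∀ x, (univ.filter (fun a => vtx a = x)).card ≤ Δ)
    (g : J → Perm (T × Bool)) (v : J × X) :
    (univ.filter (fun p => loc vtx g p = v)).card ≤ Δ := by
  refine le_trans ?_ (hv v.2)
  refine Finset.card_le_card_of_injOn (fun p => g p.1 p.2) ?_ ?_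
  · intro p hp
    have hp' := (Finset.mem_filter.1 hp).2
    simp only [Finset.coe_filter, Finset.mem_univ, true_and, Set.mem_ofPred_eq]
    rw [← hp']; rfl
  · intro p hp q hq hpq
    have hp' := (Finset.mem_filter.1 hp).2
    have hq' := (Finset.mem_filter.1 hq).2
    have h1 : p.1 = q.1 := by
      have e1 : p.1 = v.1 := by rw [← hp']; rfl
      have e2 : q.1 = v.1 := by rw [← hq']; rfl
      rw [e1, e2]
    simp only at hpq
    rw [h1] at hpq
    exact Prod.ext h1 ((g q.1).injective hpq)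

lemma loc_fibre' {Δ : ℕ} (hv : ∀ x, (univ.filter (fun a => vtx a = x)).card ≤ Δ)
    (g : J → Perm (T × Bool)) (i : J) (v : J × X) :
    (univ.filter (fun a => loc vtx g (i, a) = v)).card ≤ Δ := by
  refine le_trans ?_ (loc_fibre hv g v)
  refine Finset.card_le_card_of_injOn (fun a => (i, a)) ?_ ?_
  · intro a ha
    simpa using ha
  · intro a _ b _ hab
    exact (Prod.mk.inj hab).2

/-- a transposition changes few edges -/
lemma card_changed (B : Finset T) (g : J → Perm (T × Bool)) (i : J) (a b : T × Bool) :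
    (((univ : Finset J) ×ˢ B).filter (fun x => eP vtx g x ≠ eP vtx (g * Pi.mulSingle i (swap a b)) x
      ∨ eQ vtx δ g x ≠ eQ vtx δ (g * Pi.mulSingle i (swap a b)) x)).card ≤ 4 := by
  set R : Finset (J × (T × Bool)) := {(i, a), (i, b)} with hR
  have hRc : R.card ≤ 2 := Finset.card_le_two
  have hsub : (((univ : Finset J) ×ˢ B).filter (fun x =>
      eP vtx g x ≠ eP vtx (g * Pi.mulSingle i (swap a b)) x
      ∨ eQ vtx δ g x ≠ eQ vtx δ (g * Pi.mulSingle i (swap a b)) x)) ⊆
      (univ.filter (fun x : J × T => (x.1, (x.2, false)) ∈ R)) ∪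
      (univ.filter (fun x : J × T => (x.1 + δ x.2, (x.2, true)) ∈ R)) := by
    intro x hx
    have hx2 := (Finset.mem_filter.1 hx).2
    simp only [Finset.mem_union, Finset.mem_filter, Finset.mem_univ, true_and, hR,
      Finset.mem_insert, Finset.mem_singleton]
    rcases hx2 with h | h
    · left
      by_contra hc
      push Not at hc
      exact h (loc_mul_of_ne g i a b _ hc.1 hc.2).symm
    · right
      by_contra hc
      push Not at hc
      exact h (loc_mul_of_ne g i a b _ hc.1 hc.2).symm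
  refine (Finset.card_le_card hsub).trans ((Finset.card_union_le _ _).trans ?_)
  have h1 : (univ.filter (fun x : J × T => (x.1, (x.2, false)) ∈ R)).card ≤ 2 := by
    refine le_trans (Finset.card_le_card_of_injOn (fun x => (x.1, (x.2, false))) ?_ ?_) hRc
    · intro x hx
      exact (Finset.mem_filter.1 hx).2
    · intro x _ y _ hxy
      simp only [Prod.mk.injEq] at hxy
      exact Prod.ext hxy.1 hxy.2.1
  have h2 : (univ.filter (fun x : J × T => (x.1 + δ x.2, (x.2, true)) ∈ R)).card ≤ 2 := by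
    refine le_trans (Finset.card_le_card_of_injOn (fun x => (x.1 + δ x.2, (x.2, true))) ?_ ?_) hRc
    · intro x hx
      exact (Finset.mem_filter.1 hx).2
    · intro x _ y _ hxy
      simp only [Prod.mk.injEq] at hxy
      have h2 := hxy.2.1
      have h1 := hxy.1
      rw [h2] at h1
      exact Prod.ext (add_right_cancel h1) h2
  omega

lemma card_changed_loc (g : J → Perm (T × Bool)) (i : J) (a b : T × Bool) :
    (univ.filter (fun x => loc vtx g x ≠ loc vtx (g * Pi.mulSingle i (swap a b)) x)).card ≤ 2 := by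
  have hsub : (univ.filter (fun x => loc vtx g x ≠
      loc vtx (g * Pi.mulSingle i (swap a b)) x)) ⊆ {(i, a), (i, b)} := by
    intro x hx
    have hx2 := (Finset.mem_filter.1 hx).2
    simp only [Finset.mem_insert, Finset.mem_singleton]
    by_contra hc
    push Not at hc
    exact hx2 (loc_mul_of_ne g i a b _ hc.1 hc.2).symm
  exact (Finset.card_le_card hsub).trans Finset.card_le_two

variable [NeZero k]

/-- bounded differences for the marked log-partition function -/
lemma FM_RPi {sf w : Fin k → ℝ} {D : ℝ} (hα : ∀ i, 0 < α i) (hD : 0 ≤ D)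
    (hA1 : ∀ i j, Real.exp (-D) ≤ A i j)
    (hA2 : ∀ i j, A i j ≤ Real.exp D) (hw1 : ∀ i, Real.exp (-D) ≤ w i)
    (hw2 : ∀ i, w i ≤ Real.exp D) (B : Finset T) (l : ℝ) (ξ : J × (T × Bool) → Bool)
    (g g' : J → Perm (T × Bool)) (h : RPi J (T × Bool) g g') :
    |FM sf (CW α A vtx δ B g) w (loc vtx g) l ξ - FM sf (CW α A vtx δ B g') w (loc vtx g') l ξ| ≤
      12 * D := by
  obtain ⟨i, a, b, rfl⟩ := h
  refine (FM_lip hα hD hA1 hA2 hw1 hw2 _ _ _ _ _ _ _ ξ l
    (card_changed B g i a b) (card_changed_loc g i a b)).trans (le_of_eq ?_)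
  push_cast
  ring

/-- rotation of the parts -/
def rotE (c : J) (Y : Type*) : J × Y ≃ J × Y := Equiv.prodCongr (Equiv.addRight c) (Equiv.refl Y)

lemma FM_rot {sf w : Fin k → ℝ} (B : Finset T) (l : ℝ) (ξ : J × (T × Bool) → Bool)
    (g : J → Perm (T × Bool)) (c : J) :
    FM sf (CW α A vtx δ B (fun i => g (i + c))) w (loc vtx (fun i => g (i + c))) l
      (fun x => ξ (rotE c _ x)) = FM sf (CW α A vtx δ B g) w (loc vtx g) l ξ := by
  have h := FM_relabel (sf := sf) (w := w) (α := α) (A := A) (rotE c X) (rotE c T)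
    (rotE c (T × Bool)) ((univ : Finset J) ×ˢ B)
    (eP vtx (fun i => g (i + c))) (eQ vtx δ (fun i => g (i + c)))
    (eP vtx g) (eQ vtx δ g) (fun i => rfl) (fun i => by
      simp only [rotE, eQ, loc, Equiv.prodCongr_apply, Prod.map, Equiv.coe_addRight,
        Equiv.coe_refl, id_eq]
      have : i.1 + δ i.2 + c = i.1 + c + δ i.2 := by abel
      rw [this]) (loc vtx (fun i => g (i + c))) (loc vtx g) (fun x => rfl) l ξ
  have h2 : ((univ : Finset J) ×ˢ B).map (rotE c T).toEmbedding = (univ : Finset J) ×ˢ B := by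
    ext x
    simp only [Finset.mem_map_equiv, Finset.mem_product, Finset.mem_univ, true_and]
    rfl
  rw [h2] at h
  exact h

/-- positions of part `i` -/
def UU (i : J) (Q : Finset (T × Bool)) : Finset (J × (T × Bool)) := {i} ×ˢ Q

lemma card_UU (i : J) (Q : Finset (T × Bool)) : (UU i Q).card = Q.card := by
  unfold UU; rw [Finset.card_product]; simp

lemma rot_symm {sf w : Fin k → ℝ} (B : Finset T) (Q : Finset (T × Bool)) (h l : ℝ) (i j : J) :
    av (fun g : J → Perm (T × Bool) =>
      bE (PT h (UU i Q)) (FM sf (CW α A vtx δ B g) w (loc vtx g) l)) =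
    av (fun g : J → Perm (T × Bool) =>
      bE (PT h (UU j Q)) (FM sf (CW α A vtx δ B g) w (loc vtx g) l)) := by
  set c : J := j - i with hc
  have e1 : ∀ g : J → Perm (T × Bool),
      bE (PT h (UU j Q)) (FM sf (CW α A vtx δ B g) w (loc vtx g) l) =
      bE (PT h (UU i Q)) (FM sf (CW α A vtx δ B (fun i => g (i + c))) w
        (loc vtx (fun i => g (i + c))) l) := by
    intro g
    rw [bE_equiv (rotE c (T × Bool)) (PT h (UU j Q))]
    have h2 : PT h (UU j Q) ∘ (rotE c (T × Bool)) = PT h (UU i Q) := by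
      funext u
      have : rotE c (T × Bool) u ∈ UU j Q ↔ u ∈ UU i Q := by
        simp only [UU, Finset.mem_product, Finset.mem_singleton, rotE, Equiv.prodCongr_apply,
          Prod.map, Equiv.coe_addRight, Equiv.coe_refl, id_eq]
        constructor
        · rintro ⟨h3, h4⟩
          refine ⟨?_, h4⟩
          have : u.1 + (j - i) = j := h3
          have h5 : u.1 = j - (j - i) := eq_sub_of_add_eq this
          rw [h5, sub_sub_cancel]
        · rintro ⟨h3, h4⟩
          refine ⟨?_, h4⟩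
          rw [h3, hc]; abel
      simp only [Function.comp_apply, PT, this]
    rw [h2]
    congr 1
    funext ξ
    rw [← FM_rot (sf := sf) (w := w) (α := α) (A := A) (δ := δ) (vtx := vtx) B l
      (ξ ∘ (rotE c (T × Bool)).symm) g c]
    congr 1
    funext x
    simp
  rw [av_congr e1]
  exact (av_equiv (Equiv.arrowCongr (Equiv.addRight c) (Equiv.refl (Perm (T × Bool)))).symm
    (fun g => bE (PT h (UU i Q)) (FM sf (CW α A vtx δ B g) w (loc vtx g) l))).symm

end cyc

end Pool.Agent.Lib.R97Q2
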