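import Pool.Agent.Lib.R97Q2.Prob
import Pool.Agent.Lib.R97Q2.Conv2

set_option autoImplicit false
set_option linter.unusedSectionVars false
set_option linter.unusedVariables false

namespace Pool.Agent.Lib.R97Q2

open Finset Equiv Filter MeasureTheory
open Pool.Agent.Lib.MP_7587db

section det

variable {n Δ : ℕ}

lemma card_adj {G : SimpleGraph (Fin n)} (h : Reg G Δ) (v : Fin n) :
    (univ.filter (fun w => adjB G (v, w) = true)).card = Δ := by
  classical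
  rw [← h v, ← Set.ncard_coe_finset]
  congr 1
  ext w
  simp [adjB_iff]

/-- the number of ordered edges of a regular graph -/
lemma sum_adjB {G : SimpleGraph (Fin n)} (h : Reg G Δ) :
    ∑ e, cond (adjB G e) (1 : ℝ) 0 = n * Δ := by
  classical
  rw [Fintype.sum_prod_type]
  have h1 : ∀ v : Fin n, ∑ w, cond (adjB G (v, w)) (1 : ℝ) 0 = Δ := by
    intro v
    have h2 : ∀ w, cond (adjB G (v, w)) (1 : ℝ) 0 = if adjB G (v, w) = true then 1 else 0 := by
      intro w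
      cases adjB G (v, w) <;> simp
    rw [Finset.sum_congr rfl fun w _ => h2 w, Finset.sum_boole, card_adj h v]
  rw [Finset.sum_congr rfl fun v _ => h1 v]
  simp

/-- site weights and edge weights can be exchanged on a regular graph -/
lemma prod_gauge {k : ℕ} {G : SimpleGraph (Fin n)} (h : Reg G Δ) (c : Fin k → ℝ)
    (σ : Fin n → Fin k) :
    ∏ p ∈ univ.filter (fun p : Fin n × Fin n => p.1 < p.2 ∧ adjB G p = true),
      (c (σ p.1) * c (σ p.2)) = ∏ v, c (σ v) ^ Δ := by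
  classical
  have hsym : ∀ a b : Fin n, adjB G (a, b) = true ↔ adjB G (b, a) = true := by
    intro a b
    rw [adjB_iff, adjB_iff]
    exact ⟨fun h => h.symm, fun h => h.symm⟩
  have hirr : ∀ a : Fin n, ¬ adjB G (a, a) = true := by
    intro a
    rw [adjB_iff]
    exact G.irrefl
  rw [Finset.prod_mul_distrib]
  have h1 : ∏ p ∈ univ.filter (fun p : Fin n × Fin n => p.1 < p.2 ∧ adjB G p = true),
      c (σ p.2) = ∏ p ∈ univ.filter (fun p : Fin n × Fin n => p.2 < p.1 ∧ adjB G p = true),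
      c (σ p.1) := by
    refine Finset.prod_bij (fun p _ => (p.2, p.1)) ?_ ?_ ?_ ?_
    · rintro ⟨a, b⟩ hp
      simp only [Finset.mem_filter, Finset.mem_univ, true_and] at hp ⊢
      exact ⟨hp.1, (hsym a b).1 hp.2⟩
    · rintro ⟨a, b⟩ _ ⟨a', b'⟩ _ hab
      simp only [Prod.mk.injEq] at hab ⊢
      exact ⟨hab.2, hab.1⟩
    · rintro ⟨a, b⟩ hp
      simp only [Finset.mem_filter, Finset.mem_univ, true_and] at hp
      refine ⟨(b, a), ?_, rfl⟩
      simp only [Finset.mem_filter, Finset.mem_univ, true_and]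
      exact ⟨hp.1, (hsym a b).1 hp.2⟩
    · rintro ⟨a, b⟩ _
      rfl
  rw [h1, ← Finset.prod_union]
  · have h2 : (univ.filter (fun p : Fin n × Fin n => p.1 < p.2 ∧ adjB G p = true)) ∪
        univ.filter (fun p : Fin n × Fin n => p.2 < p.1 ∧ adjB G p = true) =
        univ.filter (fun p : Fin n × Fin n => adjB G p = true) := by
      ext ⟨a, b⟩
      simp only [Finset.mem_union, Finset.mem_filter, Finset.mem_univ, true_and]
      constructor
      · rintro (h | h)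
        · exact h.2
        · exact h.2
      · intro h3
        rcases lt_trichotomy a b with h4 | h4 | h4
        · exact Or.inl ⟨h4, h3⟩
        · subst h4
          exact absurd h3 (hirr a)
        · exact Or.inr ⟨h4, h3⟩
    rw [h2, Finset.prod_filter, Fintype.prod_prod_type]
    refine Finset.prod_congr rfl fun v _ => ?_
    rw [← Finset.prod_filter]
    show ∏ a ∈ univ.filter (fun a => adjB G (v, a) = true), c (σ v) = c (σ v) ^ Δ
    rw [Finset.prod_const, card_adj h v]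
  · rw [Finset.disjoint_left]
    rintro ⟨a, b⟩ h2 h3
    simp only [Finset.mem_filter, Finset.mem_univ, true_and] at h2 h3
    exact lt_asymm h2.1 h3.1

lemma hl_gauge {k : ℕ} {G : SimpleGraph (Fin n)} (h : Reg G Δ) {α c : Fin k → ℝ}
    (hc : ∀ i, c i ^ Δ = α i) (A : Fin k → Fin k → ℝ) :
    hl n α A (adjB G) = hl n (fun _ => 1) (fun i j => c i * c j * A i j) (adjB G) := by
  unfold hl
  congr 1
  refine Finset.sum_congr rfl fun σ _ => ?_
  rw [Finset.prod_mul_distrib (s := univ.filter (fun p : Fin n × Fin n => p.1 < p.2 ∧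
    adjB G p = true)) (f := fun p => c (σ p.1) * c (σ p.2)), prod_gauge h c σ]
  simp only [hc, Finset.prod_const_one, one_mul]

end det

section lims

lemma conv_approx (f : ℕ → ℝ) (h : ∀ ε > 0, ∃ f' : ℕ → ℝ,
    (∀ᶠ m : ℕ in atTop, |f m - f' m| ≤ ε) ∧ ∃ l, Tendsto f' atTop (nhds l)) :
    ∃ l, Tendsto f atTop (nhds l) := by
  refine cauchySeq_tendsto_of_complete ?_
  rw [Metric.cauchySeq_iff']
  intro ε hε
  obtain ⟨f', hclose, l, hl'⟩ := h (ε / 4) (by linarith)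
  have hcau := hl'.cauchySeq
  rw [Metric.cauchySeq_iff'] at hcau
  obtain ⟨N₁, hN₁⟩ := hcau (ε / 4) (by linarith)
  obtain ⟨N₂, hN₂⟩ := hclose.exists_forall_of_atTop
  refine ⟨max N₁ N₂, fun n hn => ?_⟩
  have a1 := hN₁ n ((le_max_left _ _).trans hn)
  have a1' := hN₁ (max N₁ N₂) (le_max_left _ _)
  have a2 := hN₂ n ((le_max_right _ _).trans hn)
  have a3 := hN₂ (max N₁ N₂) (le_max_right _ _)
  rw [Real.dist_eq] at a1 a1' ⊢
  have b1 := abs_lt.1 a1
  have b1' := abs_lt.1 a1'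
  have b2 := abs_le.1 a2
  have b3 := abs_le.1 a3
  rw [abs_lt]
  constructor <;> linarith [b1.1, b1.2, b1'.1, b1'.2, b2.1, b2.2, b3.1, b3.2]

lemma conv_filter {F : ℕ → ℝ} {g : ℕ} (hg : 1 ≤ g) {P : Set ℕ} (hP : ∀ n ∈ P, g ∣ n) {l : ℝ}
    (h : Tendsto (fun m : ℕ => F (g * m) / (m : ℝ)) atTop (nhds l)) :
    Tendsto (fun n : ℕ => F n / (n : ℝ)) (atTop ⊓ 𝓟 P) (nhds (l / g)) := by
  have hg0 : (0 : ℝ) < g := by exact_mod_cast hg
  have h2 : Tendsto (fun n : ℕ => F (g * (n / g)) / ((n / g : ℕ) : ℝ)) atTop (nhds l) :=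
    h.comp (Nat.tendsto_div_const_atTop (by omega))
  have h3 : Tendsto (fun n : ℕ => (F (g * (n / g)) / ((n / g : ℕ) : ℝ)) / g) (atTop ⊓ 𝓟 P)
      (nhds (l / g)) := (h2.div_const _).mono_left inf_le_left
  refine h3.congr' ?_
  rw [EventuallyEq, eventually_inf_principal]
  filter_upwards with n hn
  obtain ⟨m, rfl⟩ := hP n hn
  rw [Nat.mul_div_cancel_left m (by omega)]
  push_cast
  rcases Nat.eq_zero_or_pos m with h4 | h4
  · subst h4; simp
  · have : (m : ℝ) ≠ 0 := by exact_mod_cast h4.ne'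
    field_simp

end lims

section prob

variable {Ω : Type} [MeasurableSpace Ω] {μ : Measure Ω} [IsProbabilityMeasure μ]
  {G : ∀ n : ℕ, Ω → SimpleGraph (Fin n)} {Δ g r : ℕ} {k : ℕ} [NeZero k]

/-- concentration along the admissible sizes -/
lemma conc_reg (hlaw : ∀ n : ℕ, Even (n * Δ) → ∀ g : SimpleGraph (Fin n), Reg g Δ →
      μ {ω | G n ω = g} = (({g' : SimpleGraph (Fin n) | Reg g' Δ}.ncard : ℕ) : ENNReal)⁻¹)
    (hgr : 2 * r = Δ * g) (hg : 1 ≤ g) (hr : 1 ≤ r)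
    {α : Fin k → ℝ} {A : Fin k → Fin k → ℝ} (hα : ∀ i, 0 < α i)
    (hs : ∀ i j, A i j = A j i) {D : ℝ} (hD : 0 < D) (hA1 : ∀ i j, Real.exp (-D) ≤ A i j)
    (hA2 : ∀ i j, A i j ≤ Real.exp D) :
    ∀ᵐ ω ∂μ, (∀ᶠ m : ℕ in atTop, Reg (G (g * m) ω) Δ) →
      Tendsto (fun m : ℕ => (hl (g * m) α A (adjB (G (g * m) ω)) - aR α A Δ g r m) / (m : ℝ))
        atTop (nhds 0) := by
  have hr0 : (0 : ℝ) < r := by exact_mod_cast hr
  set m₀ : ℕ := (4 * Δ + 12 * Δ ^ 2) + (2 * Δ ^ 2 + 3 * Δ) + 4 with hm₀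
  have key : ∀ j : ℕ, ∀ᵐ ω ∂μ, ∀ᶠ m : ℕ in atTop,
      ω ∉ {ω | Reg (G (g * m) ω) Δ ∧ 1 / ((j : ℝ) + 1) * m ≤
        |hl (g * m) α A (adjB (G (g * m) ω)) - aR α A Δ g r m|} := by
    intro j
    set ε : ℝ := 1 / ((j : ℝ) + 1) with hε
    have hε0 : 0 < ε := by positivity
    set θ : ℝ := ε / (256 * r * D ^ 2) with hθ
    have hθ0 : 0 < θ := by positivity
    set p : ℕ := 2 * (4 * Δ + 12 * Δ ^ 2) with hp
    have hbound : ∀ m : ℕ, m₀ ≤ m → μ {ω | Reg (G (g * m) ω) Δ ∧ 1 / ((j : ℝ) + 1) * m ≤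
        |hl (g * m) α A (adjB (G (g * m) ω)) - aR α A Δ g r m|} ≤
        ENNReal.ofReal (4 * (2 * r) ^ p * ((m : ℝ) ^ p * Real.exp (-(θ * ε / 2) * m))) := by
      intro m hm
      obtain ⟨vtx, hv⟩ := exists_vtx_fin (Δ := Δ) (g := g) (r := r) hgr m
      have hcard : Fintype.card (Fin (r * m) × Bool) = 2 * r * m := by
        rw [Fintype.card_prod, Fintype.card_fin, Fintype.card_bool]; ring
      have hge : m ≤ 2 * r * m := Nat.le_mul_of_pos_left m (by omega)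
      have hM4 : 4 ≤ Fintype.card (Fin (r * m) × Bool) := by rw [hcard]; omega
      have hM : (4 * Δ + 12 * Δ ^ 2) + (2 * Δ ^ 2 + 3 * Δ) < Fintype.card (Fin (r * m) × Bool) := by
        rw [hcard]; omega
      have hdev := dev_bound hα hs hD.le hA1 hA2 vtx hv hM4 hM (θ := θ)
        (s := 1 / ((j : ℝ) + 1) * m) hθ0.le
      have hev : Even (g * m * Δ) := by
        refine ⟨r * m, ?_⟩
        calc g * m * Δ = (Δ * g) * m := by ring
          _ = (2 * r) * m := by rw [hgr]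
          _ = r * m + r * m := by ring
      have haR : CF α A vtx = aR α A Δ g r m := aR_eq vtx hv (by rw [Fintype.card_fin])
        (by rw [Fintype.card_fin])
      rw [haR] at hdev
      refine law_le (hlaw (g * m) hev) {G | Reg G Δ ∧ 1 / ((j : ℝ) + 1) * m ≤
        |hl (g * m) α A (adjB G) - aR α A Δ g r m|} (fun g hg => hg.1) (by positivity)
        (reg_pos vtx hv hM4 hM) (hdev.trans (le_of_eq ?_))
      rw [hcard]
      have e1 : 4 * ((2 * r * m : ℕ) : ℝ) * (4 * D * θ) ^ 2 - θ * (1 / ((j : ℝ) + 1) * m) =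
          -(θ * ε / 2) * m := by
        rw [← hε]
        push_cast
        have : 256 * r * D ^ 2 * θ = ε := by
          rw [hθ]; field_simp
        calc 4 * (2 * (r : ℝ) * m) * (4 * D * θ) ^ 2 - θ * (ε * m)
            = θ * m * ((256 * r * D ^ 2 * θ) / 2 - ε) := by ring
          _ = θ * m * (ε / 2 - ε) := by rw [this]
          _ = _ := by ring
      rw [e1]
      push_cast
      rw [mul_pow (2 * (r : ℝ)) (m : ℝ)]
      ring
    have hsum : ∑' m : ℕ, μ {ω | Reg (G (g * (m + m₀)) ω) Δ ∧ 1 / ((j : ℝ) + 1) *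
        ((m + m₀ : ℕ) : ℝ) ≤
        |hl (g * (m + m₀)) α A (adjB (G (g * (m + m₀)) ω)) - aR α A Δ g r (m + m₀)|} ≠ ⊤ := by
      have hs1 : Summable (fun m : ℕ => 4 * (2 * r) ^ p *
          ((m : ℝ) ^ p * Real.exp (-(θ * ε / 2) * m))) :=
        (Real.summable_pow_mul_exp_neg_nat_mul p (by positivity)).mul_left _
      have hs2 := (summable_nat_add_iff m₀).2 hs1
      have := hs2.tsum_ofReal_ne_top
      refine ne_top_of_le_ne_top this (ENNReal.tsum_le_tsum fun m => ?_)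
      exact hbound (m + m₀) (Nat.le_add_left _ _)
    have h3 := ae_eventually_notMem hsum
    filter_upwards [h3] with ω hω
    rw [← Filter.map_add_atTop_eq_nat m₀, Filter.eventually_map]
    exact hω
  rw [← ae_all_iff] at key
  filter_upwards [key] with ω hω hreg
  rw [Metric.tendsto_atTop]
  intro ε hε
  obtain ⟨j, hj⟩ := exists_nat_one_div_lt hε
  obtain ⟨N, hN⟩ := ((hω j).and hreg).exists_forall_of_atTop
  refine ⟨max N 1, fun m hm => ?_⟩
  obtain ⟨h1, h2⟩ := hN m ((le_max_left _ _).trans hm)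
  have hm0 : (0 : ℝ) < m := by exact_mod_cast (le_max_right N 1).trans hm
  rw [Real.dist_eq, sub_zero, abs_div, abs_of_pos hm0, div_lt_iff₀ hm0]
  have h3 : |hl (g * m) α A (adjB (G (g * m) ω)) - aR α A Δ g r m| < 1 / ((j : ℝ) + 1) * m := by
    by_contra hcon
    exact h1 ⟨h2, not_lt.1 hcon⟩
  calc _ < 1 / ((j : ℝ) + 1) * m := h3
    _ < ε * m := mul_lt_mul_of_pos_right hj hm0

/-- targets for which the mean free energy converges -/
def Good97 (Δ g r k : ℕ) : Set ((Fin k → ℝ) × (Fin k → Fin k → ℝ)) :=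
  {H | posH H ∧ (∀ i j, H.2 i j = H.2 j i) ∧
    ∃ l, Tendsto (fun m : ℕ => aR H.1 H.2 Δ g r m / m) atTop (nhds l)}

lemma ae_single97 (hlaw : ∀ n : ℕ, Even (n * Δ) → ∀ g : SimpleGraph (Fin n), Reg g Δ →
      μ {ω | G n ω = g} = (({g' : SimpleGraph (Fin n) | Reg g' Δ}.ncard : ℕ) : ENNReal)⁻¹)
    (hgr : 2 * r = Δ * g) (hg : 1 ≤ g) (hr : 1 ≤ r)
    {H : (Fin k → ℝ) × (Fin k → Fin k → ℝ)} (hH : H ∈ Good97 Δ g r k) :
    ∀ᵐ ω ∂μ, (∀ᶠ m : ℕ in atTop, Reg (G (g * m) ω) Δ) →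
      ∃ l, Tendsto (fun m : ℕ => hl (g * m) H.1 H.2 (adjB (G (g * m) ω)) / (m : ℝ))
        atTop (nhds l) := by
  obtain ⟨hpos, hsym, l, hl'⟩ := hH
  obtain ⟨D, hD, hA1, hA2⟩ := exists_D hpos.2
  filter_upwards [conc_reg hlaw hgr hg hr hpos.1 hsym hD hA1 hA2] with ω hω hreg
  refine ⟨0 + l, ((hω hreg).add hl').congr fun m => ?_⟩
  rw [← add_div]
  congr 1
  ring

/-- almost surely the graphs are regular -/
lemma ae_reg (hmeas : ∀ n g, MeasurableSet {ω | G n ω = g})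
    (hlaw : ∀ n : ℕ, Even (n * Δ) → ∀ g : SimpleGraph (Fin n), Reg g Δ →
      μ {ω | G n ω = g} = (({g' : SimpleGraph (Fin n) | Reg g' Δ}.ncard : ℕ) : ENNReal)⁻¹)
    (hgr : 2 * r = Δ * g) (hg : 1 ≤ g) (hr : 1 ≤ r) :
    ∀ᵐ ω ∂μ, ∀ᶠ m : ℕ in atTop, Reg (G (g * m) ω) Δ := by
  set m₀ : ℕ := (4 * Δ + 12 * Δ ^ 2) + (2 * Δ ^ 2 + 3 * Δ) + 4 with hm₀
  have h1 : ∀ᵐ ω ∂μ, ∀ m : ℕ, m₀ ≤ m → Reg (G (g * m) ω) Δ := by
    rw [ae_all_iff]
    intro m
    by_cases hm : m₀ ≤ m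
    · obtain ⟨vtx, hv⟩ := exists_vtx_fin (Δ := Δ) (g := g) (r := r) hgr m
      have hcard : Fintype.card (Fin (r * m) × Bool) = 2 * r * m := by
        rw [Fintype.card_prod, Fintype.card_fin, Fintype.card_bool]; ring
      have hge : m ≤ 2 * r * m := Nat.le_mul_of_pos_left m (by omega)
      have hM4 : 4 ≤ Fintype.card (Fin (r * m) × Bool) := by rw [hcard]; omega
      have hM : (4 * Δ + 12 * Δ ^ 2) + (2 * Δ ^ 2 + 3 * Δ) <
          Fintype.card (Fin (r * m) × Bool) := by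
        rw [hcard]; omega
      have hev : Even (g * m * Δ) := by
        refine ⟨r * m, ?_⟩
        calc g * m * Δ = (Δ * g) * m := by ring
          _ = (2 * r) * m := by rw [hgr]
          _ = r * m + r * m := by ring
      filter_upwards [law_reg (hmeas (g * m)) (hlaw (g * m) hev)
        (reg_pos vtx hv hM4 hM)] with ω hω _
      exact hω
    · exact ae_of_all _ fun ω h => absurd h hm
  filter_upwards [h1] with ω hω
  filter_upwards [eventually_ge_atTop m₀] with m hm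
  exact hω m hm

theorem ae_all97 (hmeas : ∀ n g, MeasurableSet {ω | G n ω = g})
    (hlaw : ∀ n : ℕ, Even (n * Δ) → ∀ g : SimpleGraph (Fin n), Reg g Δ →
      μ {ω | G n ω = g} = (({g' : SimpleGraph (Fin n) | Reg g' Δ}.ncard : ℕ) : ENNReal)⁻¹)
    (hgr : 2 * r = Δ * g) (hg : 1 ≤ g) (hr : 1 ≤ r) (k : ℕ) [NeZero k] :
    ∀ᵐ ω ∂μ, ∀ H : (Fin k → ℝ) × (Fin k → Fin k → ℝ), posH H → H ∈ closure (Good97 Δ g r k) →
      ∃ l, Tendsto (fun m : ℕ => hl (g * m) H.1 H.2 (adjB (G (g * m) ω)) / (m : ℝ))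
        atTop (nhds l) := by
  obtain ⟨T, hTG, hTc, hTd⟩ :=
    (TopologicalSpace.IsSeparable.of_separableSpace
      (Good97 Δ g r k)).exists_countable_dense_subset
  have h1 : ∀ᵐ ω ∂μ, ∀ H ∈ T, (∀ᶠ m : ℕ in atTop, Reg (G (g * m) ω) Δ) →
      ∃ l, Tendsto (fun m : ℕ => hl (g * m) H.1 H.2 (adjB (G (g * m) ω)) / (m : ℝ))
        atTop (nhds l) := (ae_ball_iff hTc).2 fun H hH => ae_single97 hlaw hgr hg hr (hTG hH)
  filter_upwards [h1, ae_reg hmeas hlaw hgr hg hr] with ω hω hreg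
  intro H hH hcl
  have hcl' : H ∈ closure T := by
    have := closure_mono hTd hcl
    rwa [closure_closure] at this
  have hg0 : (0 : ℝ) < g := by exact_mod_cast hg
  refine conv_approx _ fun ε hε => ?_
  set δ : ℝ := ε / (g * (1 + Δ)) with hδ
  have hδ0 : 0 < δ := by positivity
  obtain ⟨H', hT', hnear⟩ := exists_near hH hcl' hδ0
  refine ⟨_, ?_, hω H' hT' hreg⟩
  filter_upwards [hreg, eventually_ge_atTop 1] with m hm hm1
  have hm0 : (0 : ℝ) < m := by exact_mod_cast hm1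
  have h2 := abs_hl_sub_le hH (hTG hT').1 hδ0.le hnear (adjB (G (g * m) ω))
  rw [sum_adjB hm] at h2
  rw [← sub_div, abs_div, abs_of_pos hm0, div_le_iff₀ hm0]
  refine h2.trans (le_of_eq ?_)
  rw [hδ]
  push_cast
  field_simp

end prob

section main

variable {Ω : Type} [MeasurableSpace Ω] {μ : Measure Ω} [IsProbabilityMeasure μ]
  {G : ∀ n : ℕ, Ω → SimpleGraph (Fin n)} {Δ : ℕ}

/-- the edge weights, multiplied with the appropriate power of the site weights, are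
log-supermodular -/
def AttReg (Δ : ℕ) {k : ℕ} (α : Fin k → ℝ) (A : Fin k → Fin k → ℝ) : Prop :=
  ∃ (S : Type) (_ : DistribLattice S) (e : Fin k ≃ S), ∀ i j i' j',
    (α i * α j * A i j ^ Δ) * (α i' * α j' * A i' j' ^ Δ) ≤
      (α (e.symm (e i ⊓ e i')) * α (e.symm (e j ⊓ e j')) *
        A (e.symm (e i ⊓ e i')) (e.symm (e j ⊓ e j')) ^ Δ) *
      (α (e.symm (e i ⊔ e i')) * α (e.symm (e j ⊔ e j')) *
        A (e.symm (e i ⊔ e i')) (e.symm (e j ⊔ e j')) ^ Δ)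

lemma good_reg {g r : ℕ} (hgr : 2 * r = Δ * g) (hg : 1 ≤ g) (hr : 1 ≤ r) {k : ℕ} [NeZero k]
    {B : Fin k → Fin k → ℝ} (hB : ∀ i j, 0 < B i j) (hs : ∀ i j, B i j = B j i)
    {S : Type} [DistribLattice S] (e : Fin k ≃ S)
    (h : ∀ i j i' j', B i j * B i' j' ≤
      B (e.symm (e i ⊓ e i')) (e.symm (e j ⊓ e j')) *
      B (e.symm (e i ⊔ e i')) (e.symm (e j ⊔ e j'))) :
    ((fun _ => (1 : ℝ)), B) ∈ Good97 Δ g r k := by
  have : Fintype S := Fintype.ofEquiv (Fin k) e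
  obtain ⟨D, hD, hA1, hA2⟩ := exists_D hB
  have H : Att e (fun _ => (1 : ℝ)) B D :=
    { αp := fun _ => one_pos
      αL := fun i j => le_refl _
      AL := h
      D0 := hD
      A1 := hA1
      A2 := hA2 }
  exact ⟨⟨fun _ => one_pos, hB⟩, hs, conv_aR H hgr hg hr⟩

/-- convergence along the admissible sizes, for positive degree -/
theorem main_pos (hmeas : ∀ n g, MeasurableSet {ω | G n ω = g})
    (hlaw : ∀ n : ℕ, Even (n * Δ) → ∀ g : SimpleGraph (Fin n), Reg g Δ →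
      μ {ω | G n ω = g} = (({g' : SimpleGraph (Fin n) | Reg g' Δ}.ncard : ℕ) : ENNReal)⁻¹)
    (hΔ : 1 ≤ Δ) :
    ∀ᵐ ω ∂μ, ∀ (k : ℕ) (α : Fin (k + 1) → ℝ) (A : Fin (k + 1) → Fin (k + 1) → ℝ),
      (∀ i, 0 < α i) → (∀ i j, A i j = A j i) → (∀ i j, 0 < A i j) → AttReg Δ α A →
      ∃ l, Tendsto (fun n : ℕ => hl n α A (adjB (G n ω)) / (n : ℝ))
        (atTop ⊓ 𝓟 {n | Even (n * Δ)}) (nhds l) := by
  -- the period
  obtain ⟨g, r, hgr, hg, hr, hP⟩ : ∃ g r : ℕ, 2 * r = Δ * g ∧ 1 ≤ g ∧ 1 ≤ r ∧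
      ∀ n ∈ {n : ℕ | Even (n * Δ)}, g ∣ n := by
    rcases Nat.even_or_odd Δ with ⟨s, hs⟩ | hodd
    · exact ⟨1, s, by omega, le_refl _, by omega, fun n _ => one_dvd n⟩
    · refine ⟨2, Δ, by ring, by omega, hΔ, fun n hn => ?_⟩
      have h1 : Even (n * Δ) := hn
      rw [Nat.even_mul] at h1
      rcases h1 with h1 | h1
      · exact h1.two_dvd
      · exact absurd h1 (Nat.not_even_iff_odd.2 hodd)
  have h1 : ∀ᵐ ω ∂μ, ∀ k : ℕ, ∀ H : (Fin (k + 1) → ℝ) × (Fin (k + 1) → Fin (k + 1) → ℝ),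
      posH H → H ∈ closure (Good97 Δ g r (k + 1)) →
      ∃ l, Tendsto (fun m : ℕ => hl (g * m) H.1 H.2 (adjB (G (g * m) ω)) / (m : ℝ))
        atTop (nhds l) := by
    rw [ae_all_iff]
    intro k
    exact ae_all97 hmeas hlaw hgr hg hr (k + 1)
  filter_upwards [h1, ae_reg hmeas hlaw hgr hg hr] with ω hω hreg
  intro k α A hα hs hA hP'
  obtain ⟨S, _, e, hLS⟩ := hP'
  have hΔ0 : Δ ≠ 0 := by omega
  set c : Fin (k + 1) → ℝ := fun i => α i ^ ((Δ : ℝ)⁻¹) with hc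
  have hc0 : ∀ i, 0 < c i := fun i => Real.rpow_pos_of_pos (hα i) _
  have hcp : ∀ i, c i ^ Δ = α i := fun i => Real.rpow_inv_natCast_pow (hα i).le hΔ0
  set B : Fin (k + 1) → Fin (k + 1) → ℝ := fun i j => c i * c j * A i j with hB
  have hB0 : ∀ i j, 0 < B i j := fun i j => mul_pos (mul_pos (hc0 i) (hc0 j)) (hA i j)
  have hBs : ∀ i j, B i j = B j i := by
    intro i j
    simp only [hB]
    rw [hs i j]; ring
  have hBp : ∀ i j, B i j ^ Δ = α i * α j * A i j ^ Δ := by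
    intro i j
    simp only [hB]
    rw [mul_pow, mul_pow, hcp, hcp]
  have hBL : ∀ i j i' j', B i j * B i' j' ≤
      B (e.symm (e i ⊓ e i')) (e.symm (e j ⊓ e j')) *
      B (e.symm (e i ⊔ e i')) (e.symm (e j ⊔ e j')) := by
    intro i j i' j'
    refine le_of_pow_le_pow_left₀ hΔ0 (mul_pos (hB0 _ _) (hB0 _ _)).le ?_
    have e1 := hLS i j i' j'
    rw [← hBp, ← hBp, ← hBp, ← hBp] at e1
    rw [mul_pow (B i j) (B i' j') Δ, mul_pow (B (e.symm (e i ⊓ e i')) (e.symm (e j ⊓ e j')))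
      (B (e.symm (e i ⊔ e i')) (e.symm (e j ⊔ e j'))) Δ]
    exact e1
  obtain ⟨l, hl'⟩ := hω k (fun _ => 1, B) ⟨fun _ => one_pos, hB0⟩
    (subset_closure (good_reg hgr hg hr hB0 hBs e hBL))
  have h2 : Tendsto (fun m : ℕ => hl (g * m) α A (adjB (G (g * m) ω)) / (m : ℝ))
      atTop (nhds l) := by
    refine hl'.congr' ?_
    filter_upwards [hreg] with m hm
    rw [hl_gauge hm hcp A]
  exact ⟨l / g, conv_filter (F := fun n => hl n α A (adjB (G n ω))) hg hP h2⟩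

/-- degree zero -/
theorem main_zero (hmeas : ∀ n g, MeasurableSet {ω | G n ω = g})
    (hlaw : ∀ n : ℕ, Even (n * 0) → ∀ g : SimpleGraph (Fin n), Reg g 0 →
      μ {ω | G n ω = g} = (({g' : SimpleGraph (Fin n) | Reg g' 0}.ncard : ℕ) : ENNReal)⁻¹) :
    ∀ᵐ ω ∂μ, ∀ (k : ℕ) (α : Fin (k + 1) → ℝ) (A : Fin (k + 1) → Fin (k + 1) → ℝ),
      ∃ l, Tendsto (fun n : ℕ => hl n α A (adjB (G n ω)) / (n : ℝ)) atTop (nhds l) := by
  have h1 : ∀ᵐ ω ∂μ, ∀ n : ℕ, Reg (G n ω) 0 := by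
    rw [ae_all_iff]
    intro n
    refine law_reg (hmeas n) (hlaw n (by simp)) ?_
    rw [Set.ncard_pos (Set.toFinite _)]
    refine ⟨⊥, fun v => ?_⟩
    rw [SimpleGraph.neighborSet_bot]
    simp
  filter_upwards [h1] with ω hω
  intro k α A
  refine ⟨Real.log (∑ i, α i), tendsto_const_nhds.congr' ?_⟩
  filter_upwards [eventually_ge_atTop 1] with n hn
  have hn0 : (n : ℝ) ≠ 0 := by
    have : n ≠ 0 := by omega
    exact_mod_cast this
  have h2 : univ.filter (fun p : Fin n × Fin n => p.1 < p.2 ∧ adjB (G n ω) p = true) = ∅ := by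
    rw [Finset.filter_eq_empty_iff]
    rintro ⟨a, b⟩ _ ⟨_, h3⟩
    have h4 := card_adj (hω n) a
    rw [Finset.card_eq_zero, Finset.filter_eq_empty_iff] at h4
    exact h4 (Finset.mem_univ b) h3
  unfold hl
  rw [h2]
  simp only [Finset.prod_empty, mul_one]
  rw [log_sum_sites, Fintype.card_fin]
  field_simp

end main

/-- Almost sure right-convergence of random regular graphs for attractive targets. -/
theorem final_regular :
  ∀ (Δ : ℕ) (Ω : Type) [MeasurableSpace Ω] (μ : MeasureTheory.Measure Ω)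
    [MeasureTheory.IsProbabilityMeasure μ] (G : ∀ n : ℕ, Ω → SimpleGraph (Fin n)),
    (∀ (n : ℕ) (g : SimpleGraph (Fin n)), MeasurableSet {ω | G n ω = g}) →
    (∀ n : ℕ, Even (n * Δ) → ∀ g : SimpleGraph (Fin n), (∀ v, (g.neighborSet v).ncard = Δ) →
      μ {ω | G n ω = g} =
        (({g' : SimpleGraph (Fin n) | ∀ v, (g'.neighborSet v).ncard = Δ}.ncard : ℕ) :
          ENNReal)⁻¹) →
    ∀ᵐ ω ∂μ, ∀ (k : ℕ) (α : Fin k → ℝ) (A : Matrix (Fin k) (Fin k) ℝ),
      (∀ i, 0 < α i) → A.IsSymm → (∀ i j, 0 < A i j) →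
      (∃ (S : Type) (_ : DistribLattice S) (e : Fin k ≃ S), ∀ i j i' j',
        (α i * α j * A i j ^ Δ) * (α i' * α j' * A i' j' ^ Δ) ≤
          (α (e.symm (e i ⊓ e i')) * α (e.symm (e j ⊓ e j')) *
            A (e.symm (e i ⊓ e i')) (e.symm (e j ⊓ e j')) ^ Δ) *
          (α (e.symm (e i ⊔ e i')) * α (e.symm (e j ⊔ e j')) *
            A (e.symm (e i ⊔ e i')) (e.symm (e j ⊔ e j')) ^ Δ)) →
      ∃ L : ℝ, Filter.Tendsto
        (fun n : ℕ => -(1 / (n : ℝ)) * Real.log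
          (∑ σ : Fin n → Fin k, (∏ u, α (σ u)) *
            ∏ p ∈ (Set.toFinite {p : Fin n × Fin n | p.1 < p.2 ∧ (G n ω).Adj p.1 p.2}).toFinset,
              A (σ p.1) (σ p.2)))
        (Filter.atTop ⊓ Filter.principal {n : ℕ | Even (n * Δ)}) (nhds L) := by
  intro Δ Ω _ μ _ G hmeas hlaw
  have hfil : ∀ (n : ℕ) (ω : Ω),
      (Set.toFinite {p : Fin n × Fin n | p.1 < p.2 ∧ (G n ω).Adj p.1 p.2}).toFinset =
      univ.filter (fun p : Fin n × Fin n => p.1 < p.2 ∧ adjB (G n ω) p = true) := by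
    intro n ω
    ext p
    simp [adjB_iff]
  have h1 : ∀ᵐ ω ∂μ, ∀ (k : ℕ) (α : Fin (k + 1) → ℝ) (A : Fin (k + 1) → Fin (k + 1) → ℝ),
      (∀ i, 0 < α i) → (∀ i j, A i j = A j i) → (∀ i j, 0 < A i j) → AttReg Δ α A →
      ∃ l, Tendsto (fun n : ℕ => hl n α A (adjB (G n ω)) / (n : ℝ))
        (atTop ⊓ 𝓟 {n | Even (n * Δ)}) (nhds l) := by
    rcases Nat.eq_zero_or_pos Δ with h | h
    · subst h
      filter_upwards [main_zero hmeas hlaw] with ω hω
      intro k α A _ _ _ _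
      obtain ⟨l, hl'⟩ := hω k α A
      exact ⟨l, hl'.mono_left inf_le_left⟩
    · exact main_pos hmeas hlaw h
  filter_upwards [h1] with ω hω
  intro k α A hα hs hA hP
  have hrw : (fun n : ℕ => -(1 / (n : ℝ)) * Real.log
          (∑ σ : Fin n → Fin k, (∏ u, α (σ u)) *
            ∏ p ∈ (Set.toFinite {p : Fin n × Fin n | p.1 < p.2 ∧ (G n ω).Adj p.1 p.2}).toFinset,
              A (σ p.1) (σ p.2))) =
      fun n : ℕ => -(1 / (n : ℝ)) * hl n α A (adjB (G n ω)) := by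
    funext n
    rw [hfil]
    rfl
  rw [hrw]
  cases k with
  | zero =>
    refine ⟨0, (tendsto_const_nhds.congr' ?_).mono_left inf_le_left⟩
    filter_upwards [eventually_ge_atTop 1] with n hn
    have : Nonempty (Fin n) := ⟨⟨0, hn⟩⟩
    have he : IsEmpty (Fin n → Fin 0) := ⟨fun f => (f ⟨0, hn⟩).elim0⟩
    unfold hl
    simp
  | succ k =>
    obtain ⟨l, hl'⟩ := hω k α A hα (fun i j => hs.apply j i) hA hP
    refine ⟨-l, hl'.neg.congr fun n => ?_⟩
    ring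

end Pool.Agent.Lib.R97Q2
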