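import Pool.Agent.Lib.R97Q2.Perm
import Pool.Agent.Lib.MP_7587db.Fkg
import Pool.Agent.Lib.MP_7587db.Attr

set_option autoImplicit false
set_option linter.unusedSectionVars false
set_option linter.unusedVariables false

namespace Pool.Agent.Lib.R97Q2

open Finset Equiv
open Function (update)
open Pool.Agent.Lib.MP_7587db

section dec

variable {k : ℕ} [NeZero k] {L : Type} [DistribLattice L] [Fintype L]
  {V : Type*} [Fintype V] [DecidableEq V]

lemma lsmv_mul {e : Fin k ≃ L} {W W' : (V → Fin k) → ℝ} (h1 : ∀ σ, 0 < W σ)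
    (h1' : ∀ σ, 0 < W' σ) (h : LSMV e W) (h' : LSMV e W') : LSMV e (fun σ => W σ * W' σ) := by
  intro σ τ
  calc W σ * W' σ * (W τ * W' τ) = (W σ * W τ) * (W' σ * W' τ) := by ring
    _ ≤ (W (fun u => mt e (σ u) (τ u)) * W (fun u => jn e (σ u) (τ u))) *
        (W' (fun u => mt e (σ u) (τ u)) * W' (fun u => jn e (σ u) (τ u))) :=
        mul_le_mul (h σ τ) (h' σ τ) (mul_pos (h1' _) (h1' _)).le (mul_pos (h1 _) (h1 _)).le
    _ = _ := by ring

lemma lsmv_one (e : Fin k ≃ L) : LSMV (V := V) e (fun _ => 1) := by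
  intro σ τ; simp

lemma lsmv_prod {ι : Type*} (e : Fin k ≃ L) (I : Finset ι) {f : ι → (V → Fin k) → ℝ}
    (h1 : ∀ i σ, 0 < f i σ) (h : ∀ i, LSMV e (f i)) : LSMV e (fun σ => ∏ i ∈ I, f i σ) := by
  classical
  induction I using Finset.induction_on with
  | empty => simpa using lsmv_one (V := V) e
  | insert i I hi ih =>
    have : (fun σ => ∏ i ∈ insert i I, f i σ) = fun σ => f i σ * ∏ i ∈ I, f i σ := by
      funext σ; rw [Finset.prod_insert hi]
    rw [this]
    exact lsmv_mul (h1 i) (fun σ => Finset.prod_pos fun j _ => h1 j σ) (h i) ih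

lemma lsmv_site {e : Fin k ≃ L} {w : Fin k → ℝ} (hw : LSM1 e w) (u : V) :
    LSMV e (fun σ : V → Fin k => w (σ u)) := fun σ τ => hw _ _

lemma lsmv_edge {e : Fin k ≃ L} {A : Fin k → Fin k → ℝ} (hA : LSM2 e A) (u v : V) :
    LSMV e (fun σ : V → Fin k => A (σ u) (σ v)) := fun σ τ => hA _ _ _ _

lemma mono_scale (e : Fin k ≃ L) {ι : Type*} (I : Finset ι) (u : ι → V)
    (χ : (V → Fin k) → ℝ) (c : ℝ) (hc : 0 ≤ c)
    (hχ : ∀ σ τ, |χ σ - χ τ| ≤ ∑ a ∈ I, if σ (u a) = τ (u a) then 0 else c) :
    MonoE e (fun σ => c * (∑ a ∈ I, sv (sL e) (u a) σ) + χ σ) := by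
  intro σ τ h
  have h1 := (abs_le.1 (hχ σ τ)).2
  have h2 : (∑ a ∈ I, if σ (u a) = τ (u a) then 0 else c) ≤
      c * (∑ a ∈ I, sv (sL e) (u a) τ) - c * (∑ a ∈ I, sv (sL e) (u a) σ) := by
    rw [← mul_sub, ← Finset.sum_sub_distrib, Finset.mul_sum]
    refine Finset.sum_le_sum fun a _ => ?_
    simp only [sv]
    split_ifs with h3
    · rw [h3]; simp
    · have h4 : e (σ (u a)) < e (τ (u a)) := lt_of_le_of_ne (h _) fun h5 => h3 (e.injective h5)
      have := sL_lt e h4
      nlinarith
  simp only
  linarith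

lemma neg_scale {ι : Type*} (I : Finset ι) (u : ι → V) (χ : (V → Fin k) → ℝ) (c : ℝ)
    (hχ : ∀ σ τ, |χ σ - χ τ| ≤ ∑ a ∈ I, if σ (u a) = τ (u a) then 0 else c) :
    ∀ σ τ, |(fun σ => - χ σ) σ - (fun σ => - χ σ) τ| ≤
      ∑ a ∈ I, if σ (u a) = τ (u a) then 0 else c := by
  intro σ τ
  have : (fun σ => - χ σ) σ - (fun σ => - χ σ) τ = -(χ σ - χ τ) := by ring
  rw [this, abs_neg]
  exact hχ σ τ

/-- covariances of functions of finitely many spins are dominated by those of the scale -/
lemma dec_family {e : Fin k ≃ L} {W : (V → Fin k) → ℝ} (hW : ∀ σ, 0 < W σ) (hL : LSMV e W)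
    {ι κ : Type*} (I : Finset ι) (K : Finset κ) (u : ι → V) (v : κ → V)
    {f g : (V → Fin k) → ℝ} {c c' : ℝ} (hc : 0 ≤ c) (hc' : 0 ≤ c')
    (hf : ∀ σ τ, |f σ - f τ| ≤ ∑ a ∈ I, if σ (u a) = τ (u a) then 0 else c)
    (hg : ∀ σ τ, |g σ - g τ| ≤ ∑ b ∈ K, if σ (v b) = τ (v b) then 0 else c') :
    |cov W f g| ≤ c * c' * ∑ a ∈ I, ∑ b ∈ K, cov W (sv (sL e) (u a)) (sv (sL e) (v b)) := by
  have p1 := fkg_cov_nonneg e hW hL (mono_scale e I u f c hc hf) (mono_scale e K v g c' hc' hg)
  have p2 := fkg_cov_nonneg e hW hL (mono_scale e I u _ c hc (neg_scale I u f c hf))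
    (mono_scale e K v _ c' hc' (neg_scale K v g c' hg))
  have p3 := fkg_cov_nonneg e hW hL (mono_scale e I u f c hc hf) (mono_scale e K v _ c' hc' (neg_scale K v g c' hg))
  have p4 := fkg_cov_nonneg e hW hL (mono_scale e I u _ c hc (neg_scale I u f c hf)) (mono_scale e K v g c' hc' hg)
  have en : ∀ (f g : (V → Fin k) → ℝ), cov W (fun σ => - f σ) g = - cov W f g := by
    intro f g
    have := cov_mul_left W (-1) f g
    simpa using this
  have en' : ∀ (f g : (V → Fin k) → ℝ), cov W f (fun σ => - g σ) = - cov W f g := by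
    intro f g
    rw [cov_comm, en, cov_comm]
  have e1 : cov W (fun σ => ∑ a ∈ I, sv (sL e) (u a) σ) (fun σ => ∑ b ∈ K, sv (sL e) (v b) σ) =
      ∑ a ∈ I, ∑ b ∈ K, cov W (sv (sL e) (u a)) (sv (sL e) (v b)) := by
    rw [cov_sum_left]
    exact Finset.sum_congr rfl fun a _ => cov_sum_right W K _ _
  rw [← e1]
  set SU : (V → Fin k) → ℝ := fun σ => ∑ a ∈ I, sv (sL e) (u a) σ with hSU
  set SV : (V → Fin k) → ℝ := fun σ => ∑ b ∈ K, sv (sL e) (v b) σ with hSV
  simp only [cov_add_left, cov_add_right, cov_mul_left, cov_mul_right, en, en'] at p1 p2 p3 p4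
  rw [abs_le]
  constructor <;> linarith

lemma cov_sv_nonneg {e : Fin k ≃ L} {W : (V → Fin k) → ℝ} (hW : ∀ σ, 0 < W σ) (hL : LSMV e W)
    (u v : V) : 0 ≤ cov W (sv (sL e) u) (sv (sL e) v) := (LSMV.dec hW hL).cov_nonneg u v

/-- decoupling of several edges -/
lemma multi_decouple {e : Fin k ≃ L} {W : (V → Fin k) → ℝ} (hW : ∀ σ, 0 < W σ) (hL : LSMV e W)
    {A : Fin k → Fin k → ℝ} {D : ℝ} (hD : 0 ≤ D) (hA1 : ∀ i j, Real.exp (-D) ≤ A i j)
    (hA2 : ∀ i j, A i j ≤ Real.exp D) {ι : Type*} [DecidableEq ι] (u v : ι → V) (I : Finset ι) :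
    |Real.log (gE W (fun σ => ∏ i ∈ I, A (σ (u i)) (σ (v i)))) -
      ∑ i ∈ I, Real.log (gE W (fun σ => A (σ (u i)) (σ (v i))))| ≤
    Real.exp (2 * D * I.card) * ∑ i ∈ I, ∑ j ∈ I.erase i,
      (cov W (sv (sL e) (u i)) (sv (sL e) (u j)) + cov W (sv (sL e) (u i)) (sv (sL e) (v j)) +
      cov W (sv (sL e) (v i)) (sv (sL e) (u j)) + cov W (sv (sL e) (v i)) (sv (sL e) (v j))) := by
  have hA : ∀ i j, 0 < A i j := fun i j => (Real.exp_pos _).trans_le (hA1 i j)
  set cc : ι → ι → ℝ := fun i j => cov W (sv (sL e) (u i)) (sv (sL e) (u j)) +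
      cov W (sv (sL e) (u i)) (sv (sL e) (v j)) +
      cov W (sv (sL e) (v i)) (sv (sL e) (u j)) + cov W (sv (sL e) (v i)) (sv (sL e) (v j)) with hcc
  have hcc0 : ∀ i j, 0 ≤ cc i j := fun i j => by
    simp only [hcc]
    have h1 := cov_sv_nonneg hW hL (u i) (u j)
    have h2 := cov_sv_nonneg hW hL (u i) (v j)
    have h3 := cov_sv_nonneg hW hL (v i) (u j)
    have h4 := cov_sv_nonneg hW hL (v i) (v j)
    linarith
  have prodlo : ∀ (I : Finset ι) (σ : V → Fin k), Real.exp (-(D * I.card)) ≤
      ∏ i ∈ I, A (σ (u i)) (σ (v i)) := by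
    intro I σ
    have : Real.exp (-(D * I.card)) = ∏ _i ∈ I, Real.exp (-D) := by
      rw [Finset.prod_const, ← Real.exp_nat_mul]; congr 1; ring
    rw [this]
    exact Finset.prod_le_prod (fun i _ => (Real.exp_pos _).le) fun i _ => hA1 _ _
  have prodhi : ∀ (I : Finset ι) (σ : V → Fin k), ∏ i ∈ I, A (σ (u i)) (σ (v i)) ≤
      Real.exp (D * I.card) := by
    intro I σ
    have : Real.exp (D * I.card) = ∏ _i ∈ I, Real.exp D := by
      rw [Finset.prod_const, ← Real.exp_nat_mul]; congr 1; ring
    rw [this]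
    exact Finset.prod_le_prod (fun i _ => (hA _ _).le) fun i _ => hA2 _ _
  induction I using Finset.induction_on with
  | empty => simp [gE_const hW]
  | insert i I hi ih =>
    set F : (V → Fin k) → ℝ := fun σ => ∏ i ∈ I, A (σ (u i)) (σ (v i)) with hF
    have e1 : (fun σ : V → Fin k => ∏ i ∈ insert i I, A (σ (u i)) (σ (v i))) =
        fun σ => A (σ (u i)) (σ (v i)) * F σ := by
      funext σ; rw [Finset.prod_insert hi]
    rw [e1, Finset.sum_insert hi]
    set f : (V → Fin k) → ℝ := fun σ => A (σ (u i)) (σ (v i)) with hf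
    set n : ℝ := (I.card : ℝ) with hn
    have hn0 : 0 ≤ n := Nat.cast_nonneg _
    -- the covariance
    have c1 : |cov W f F| ≤ Real.exp D * Real.exp (D * n) * ∑ j ∈ I, cc i j := by
      have hb := dec_family hW hL (Finset.univ : Finset Bool) (I ×ˢ (Finset.univ : Finset Bool))
        (fun b => cond b (u i) (v i)) (fun jb => cond jb.2 (u jb.1) (v jb.1)) (f := f) (g := F)
        (c := Real.exp D) (c' := Real.exp (D * n)) (Real.exp_pos _).le (Real.exp_pos _).le
        (fun σ τ => by
          rw [Fintype.sum_bool]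
          simp only [cond_true, cond_false, hf]
          by_cases h1 : σ (u i) = τ (u i)
          · by_cases h2 : σ (v i) = τ (v i)
            · simp [h1, h2]
            · rw [if_pos h1, if_neg h2, zero_add]
              have a1 := hA1 (σ (u i)) (σ (v i))
              have a2 := hA2 (σ (u i)) (σ (v i))
              have a3 := hA1 (τ (u i)) (τ (v i))
              have a4 := hA2 (τ (u i)) (τ (v i))
              have a5 := Real.exp_pos (-D)
              rw [abs_le]; constructor <;> linarith
          · rw [if_neg h1]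
            have a1 := hA1 (σ (u i)) (σ (v i))
            have a2 := hA2 (σ (u i)) (σ (v i))
            have a3 := hA1 (τ (u i)) (τ (v i))
            have a4 := hA2 (τ (u i)) (τ (v i))
            have a5 := Real.exp_pos (-D)
            have a6 : (0 : ℝ) ≤ if σ (v i) = τ (v i) then 0 else Real.exp D := by
              split_ifs
              · exact le_rfl
              · exact (Real.exp_pos _).le
            rw [abs_le]; constructor <;> linarith)
        (fun σ τ => by
          by_cases h1 : ∀ j ∈ I, σ (u j) = τ (u j) ∧ σ (v j) = τ (v j)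
          · have : F σ = F τ := by
              simp only [hF]
              exact Finset.prod_congr rfl fun j hj => by rw [(h1 j hj).1, (h1 j hj).2]
            rw [this, sub_self, abs_zero]
            refine Finset.sum_nonneg fun x _ => ?_
            split_ifs
            · exact le_rfl
            · exact (Real.exp_pos _).le
          · push Not at h1
            obtain ⟨j, hj, hj2⟩ := h1
            have h2 : Real.exp (D * n) ≤ ∑ b ∈ I ×ˢ (Finset.univ : Finset Bool),
                if σ (cond b.2 (u b.1) (v b.1)) = τ (cond b.2 (u b.1) (v b.1)) then 0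
                else Real.exp (D * n) := by
              by_cases h3 : σ (u j) = τ (u j)
              · have h4 := hj2 h3
                refine le_trans ?_ (Finset.single_le_sum (f := fun b : ι × Bool =>
                  if σ (cond b.2 (u b.1) (v b.1)) = τ (cond b.2 (u b.1) (v b.1)) then 0
                  else Real.exp (D * n)) (fun x _ => ?_) (a := (j, false)) (by simp [hj]))
                · simp [h4]
                · split_ifs
                  · exact le_rfl
                  · exact (Real.exp_pos _).le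
              · refine le_trans ?_ (Finset.single_le_sum (f := fun b : ι × Bool =>
                  if σ (cond b.2 (u b.1) (v b.1)) = τ (cond b.2 (u b.1) (v b.1)) then 0
                  else Real.exp (D * n)) (fun x _ => ?_) (a := (j, true)) (by simp [hj]))
                · simp [h3]
                · split_ifs
                  · exact le_rfl
                  · exact (Real.exp_pos _).le
            refine le_trans ?_ h2
            have a1 := prodlo I σ
            have a2 := prodhi I σ
            have a3 := prodlo I τ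
            have a4 := prodhi I τ
            have a5 := Real.exp_pos (-(D * I.card))
            rw [abs_le]; constructor <;> linarith)
      refine hb.trans (le_of_eq ?_)
      congr 1
      rw [Finset.sum_comm, Finset.sum_product]
      refine Finset.sum_congr rfl fun j _ => ?_
      rw [Fintype.sum_bool]
      simp only [Fintype.sum_bool, cond_true, cond_false, hcc]
      ring
    have hf1 : ∀ σ, Real.exp (-D) ≤ f σ := fun σ => hA1 _ _
    have hfpos : ∀ σ, 0 < f σ := fun σ => hA _ _
    have hFpos : ∀ σ, 0 < F σ := fun σ => (Real.exp_pos _).trans_le (prodlo I σ)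
    have g1 : Real.exp (-D) ≤ gE W f := le_gE hW hf1
    have g2 : Real.exp (-(D * n)) ≤ gE W F := le_gE hW fun σ => prodlo I σ
    have g3 : Real.exp (-(D * (n + 1))) ≤ gE W f * gE W F := by
      have : Real.exp (-(D * (n + 1))) = Real.exp (-D) * Real.exp (-(D * n)) := by
        rw [← Real.exp_add]; congr 1; ring
      rw [this]
      exact mul_le_mul g1 g2 (Real.exp_pos _).le ((Real.exp_pos _).le.trans g1)
    have g4 : Real.exp (-(D * (n + 1))) ≤ gE W (fun σ => f σ * F σ) := by
      refine le_gE hW fun σ => ?_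
      have : Real.exp (-(D * (n + 1))) = Real.exp (-D) * Real.exp (-(D * n)) := by
        rw [← Real.exp_add]; congr 1; ring
      rw [this]
      exact mul_le_mul (hf1 σ) (prodlo I σ) (Real.exp_pos _).le (hfpos σ).le
    have c2 : |Real.log (gE W (fun σ => f σ * F σ)) - (Real.log (gE W f) + Real.log (gE W F))| ≤
        Real.exp (2 * D * (n + 1)) * ∑ j ∈ I, cc i j := by
      rw [← Real.log_mul ((Real.exp_pos _).trans_le g1).ne' ((Real.exp_pos _).trans_le g2).ne']
      refine (abs_log_sub_log_le (Real.exp_pos _) g4 g3).trans ?_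
      rw [div_le_iff₀ (Real.exp_pos _)]
      refine (c1.trans (le_of_eq ?_))
      have : Real.exp (2 * D * (n + 1)) * Real.exp (-(D * (n + 1))) =
          Real.exp D * Real.exp (D * n) := by
        rw [← Real.exp_add, ← Real.exp_add]; congr 1; ring
      calc Real.exp D * Real.exp (D * n) * ∑ j ∈ I, cc i j
          = Real.exp (2 * D * (n + 1)) * Real.exp (-(D * (n + 1))) * ∑ j ∈ I, cc i j := by
            rw [this]
        _ = _ := by ring
    have hsum : (∑ i' ∈ insert i I, ∑ j ∈ (insert i I).erase i', cc i' j) ≥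
        (∑ j ∈ I, cc i j) + ∑ i' ∈ I, ∑ j ∈ I.erase i', cc i' j := by
      rw [Finset.sum_insert hi, Finset.erase_insert hi]
      refine add_le_add le_rfl (Finset.sum_le_sum fun i' _ => ?_)
      exact Finset.sum_le_sum_of_subset_of_nonneg
        (Finset.erase_subset_erase _ (Finset.subset_insert _ _)) fun j _ _ => hcc0 _ _
    have hmono : Real.exp (2 * D * n) ≤ Real.exp (2 * D * (n + 1)) := by
      refine Real.exp_le_exp.2 ?_
      nlinarith
    have hS0 : 0 ≤ ∑ i' ∈ I, ∑ j ∈ I.erase i', cc i' j :=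
      Finset.sum_nonneg fun _ _ => Finset.sum_nonneg fun _ _ => hcc0 _ _
    have e2 : Real.log (gE W (fun σ => f σ * F σ)) - (Real.log (gE W f) +
        ∑ j ∈ I, Real.log (gE W (fun σ => A (σ (u j)) (σ (v j))))) =
        (Real.log (gE W (fun σ => f σ * F σ)) - (Real.log (gE W f) + Real.log (gE W F))) +
        (Real.log (gE W F) - ∑ j ∈ I, Real.log (gE W (fun σ => A (σ (u j)) (σ (v j))))) := by
      ring
    rw [e2]
    refine (abs_add_le _ _).trans ?_
    rw [Finset.card_insert_of_notMem hi]
    push_cast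
    rw [← hn]
    have ih2 := ih.trans (mul_le_mul_of_nonneg_right hmono hS0)
    refine (add_le_add c2 ih2).trans ?_
    rw [← mul_add]
    exact mul_le_mul_of_nonneg_left hsum (Real.exp_pos _).le

end dec

end Pool.Agent.Lib.R97Q2
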