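import Pool.Agent.Lib.R97Q2.Match

set_option autoImplicit false
set_option linter.unusedSectionVars false
set_option linter.unusedVariables false

namespace Pool.Agent.Lib.R97Q2

open Finset Equiv
open Function (update update_self update_of_ne update_eq_self update_comm)
open Pool.Agent.Lib.MP_7587db

section hat

variable {J T X : Type*} [Fintype J] [DecidableEq J] [AddCommGroup J] [Fintype T] [DecidableEq T]
  [Fintype X] [DecidableEq X] {k : ℕ} {α : Fin k → ℝ} {A : Fin k → Fin k → ℝ}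

/-- the permutation of all positions given by permutations of the parts -/
def hat (g : J → Perm (T × Bool)) : Perm ((J × T) × Bool) where
  toFun x := ((x.1.1, (g x.1.1 (x.1.2, x.2)).1), (g x.1.1 (x.1.2, x.2)).2)
  invFun x := ((x.1.1, ((g x.1.1)⁻¹ (x.1.2, x.2)).1), ((g x.1.1)⁻¹ (x.1.2, x.2)).2)
  left_inv x := by simp
  right_inv x := by simp

lemma hat_apply (g : J → Perm (T × Bool)) (x : (J × T) × Bool) :
    hat g x = ((x.1.1, (g x.1.1 (x.1.2, x.2)).1), (g x.1.1 (x.1.2, x.2)).2) := rfl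

lemma hat_mul (g g' : J → Perm (T × Bool)) : hat (g * g') = hat g * hat g' := by
  ext x <;> simp [hat_apply, Perm.mul_apply]

lemma hat_surj (F : Perm ((J × T) × Bool)) (hF : ∀ x, (F x).1.1 = x.1.1) :
    ∃ g : J → Perm (T × Bool), hat g = F := by
  have hF' : ∀ x, (F⁻¹ x).1.1 = x.1.1 := by
    intro x
    have := hF (F⁻¹ x)
    simp only [Equiv.Perm.inv_def, Equiv.apply_symm_apply] at this
    exact this.symm
  have hFe : ∀ x, F x = ((x.1.1, (F x).1.2), (F x).2) := by
    intro x
    rw [← hF x]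
  have hFe' : ∀ x, F⁻¹ x = ((x.1.1, (F⁻¹ x).1.2), (F⁻¹ x).2) := by
    intro x
    rw [← hF' x]
  refine ⟨fun j =>
    { toFun := fun a => ((F ((j, a.1), a.2)).1.2, (F ((j, a.1), a.2)).2)
      invFun := fun a => ((F⁻¹ ((j, a.1), a.2)).1.2, (F⁻¹ ((j, a.1), a.2)).2)
      left_inv := ?_
      right_inv := ?_ }, ?_⟩
  · intro a
    have h1 := hFe ((j, a.1), a.2)
    simp only at h1 ⊢
    rw [← h1]; simp
  · intro a
    have h1 := hFe' ((j, a.1), a.2)
    simp only at h1 ⊢
    rw [← h1]; simp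
  · ext x
    · simp [hat_apply, hF]
    · simp [hat_apply]
    · simp [hat_apply]

/-- the vertex of a position of the whole system -/
def vX (vtx : T × Bool → X) : (J × T) × Bool → J × X := fun x => (x.1.1, vtx (x.1.2, x.2))

/-- the shifted template -/
def Td (δ : T → J) : Perm ((J × T) × Bool) where
  toFun x := cond x.2 ((x.1.1 + δ x.1.2, x.1.2), true) (x.1, false)
  invFun x := cond x.2 ((x.1.1 - δ x.1.2, x.1.2), true) (x.1, false)
  left_inv x := by
    obtain ⟨⟨i, t⟩, b⟩ := x
    cases b <;> simp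
  right_inv x := by
    obtain ⟨⟨i, t⟩, b⟩ := x
    cases b <;> simp

lemma Td_false (δ : T → J) (i : J × T) : Td δ (i, false) = (i, false) := rfl

lemma Td_true (δ : T → J) (i : J × T) : Td δ (i, true) = ((i.1 + δ i.2, i.2), true) := rfl

variable [NeZero k]

lemma CW_eq (vtx : T × Bool → X) (δ : T → J) (g : J → Perm (T × Bool)) :
    Real.log (∑ σ, CW α A vtx δ univ g σ) = ZL α A (vX vtx) (hat g * Td δ) := by
  unfold ZL
  rfl

lemma Lc_eq (vtx : T × Bool → X) (δ : T → J) :
    Lc α A vtx δ univ = av (fun g : J → Perm (T × Bool) => ZL α A (vX vtx) (hat g * Td δ)) :=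
  av_congr fun g => CW_eq vtx δ g

/-- average over the permutations of the parts -/
noncomputable def Ph (α : Fin k → ℝ) (A : Fin k → Fin k → ℝ) (vtx : T × Bool → X)
    (E : Perm ((J × T) × Bool)) : ℝ :=
  av (fun g : J → Perm (T × Bool) => ZL α A (vX vtx) (hat g * E))

lemma CF_eq_Ph (vtx : T × Bool → X) :
    CF α A (vX vtx : (J × T) × Bool → J × X) = av (Ph (J := J) α A vtx) := by
  have h1 : ∀ g : J → Perm (T × Bool), av (fun E : Perm ((J × T) × Bool) =>
      ZL α A (vX vtx) (hat g * E)) = CF α A (vX vtx : (J × T) × Bool → J × X) := fun g =>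
    av_mulLeft (hat g) (ZL α A (vX vtx : (J × T) × Bool → J × X))
  unfold Ph
  rw [av_comm, av_congr h1, av_const]

lemma Ph_hat (vtx : T × Bool → X) (g : J → Perm (T × Bool)) (E : Perm ((J × T) × Bool)) :
    Ph α A vtx (hat g * E) = Ph α A vtx E := by
  unfold Ph
  have : ∀ g' : J → Perm (T × Bool), ZL α A (vX vtx) (hat g' * (hat g * E)) =
      ZL α A (vX vtx) (hat (g' * g) * E) := fun g' => by rw [hat_mul, mul_assoc]
  rw [av_congr this]
  exact av_mulRight g (fun g' => ZL α A (vX vtx) (hat g' * E))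

end hat

section zl

variable {T X : Type*} [Fintype T] [DecidableEq T]
  [Fintype X] [DecidableEq X] {k : ℕ} [NeZero k] {α : Fin k → ℝ} {A : Fin k → Fin k → ℝ} {D : ℝ}

/-- permutation of the edges -/
def pB (ρ : Perm T) : Perm (T × Bool) := Equiv.prodCongr ρ (Equiv.refl Bool)

lemma ZL_pB (vtx : T × Bool → X) (ρ : Perm T) (E : Perm (T × Bool)) :
    ZL α A vtx (E * pB ρ) = ZL α A vtx E := by
  unfold ZL
  congr 1
  refine Finset.sum_congr rfl fun σ _ => ?_
  unfold EW
  congr 1
  exact Equiv.prod_comp ρ (fun t => A (σ (vtx (E (t, false)))) (σ (vtx (E (t, true)))))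

lemma ZL_lip (hα : ∀ i, 0 < α i) (hD : 0 ≤ D) (hA1 : ∀ i j, Real.exp (-D) ≤ A i j)
    (hA2 : ∀ i j, A i j ≤ Real.exp D) (vtx : T × Bool → X) (E E' : Perm (T × Bool)) {n : ℕ}
    (h : (univ.filter (fun t => E (t, false) ≠ E' (t, false) ∨ E (t, true) ≠ E' (t, true))).card ≤ n) :
    |ZL α A vtx E - ZL α A vtx E'| ≤ 2 * D * n := by
  unfold ZL
  refine EW_lip hα hD hA1 hA2 _ _ _ _ _ (le_trans (Finset.card_le_card ?_) h)
  intro t ht
  simp only [Finset.mem_filter, Finset.mem_univ, true_and] at ht ⊢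
  rcases ht with ht | ht
  · exact Or.inl fun h2 => ht (by rw [h2])
  · exact Or.inr fun h2 => ht (by rw [h2])

lemma swap_changed (E : Perm (T × Bool)) (a b : T × Bool) :
    (univ.filter (fun t => E (t, false) ≠ (E * swap a b) (t, false) ∨
      E (t, true) ≠ (E * swap a b) (t, true))).card ≤ 2 := by
  have hsub : (univ.filter (fun t => E (t, false) ≠ (E * swap a b) (t, false) ∨
      E (t, true) ≠ (E * swap a b) (t, true))) ⊆ {a.1, b.1} := by
    intro t ht
    simp only [Finset.mem_filter, Finset.mem_univ, true_and] at ht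
    simp only [Finset.mem_insert, Finset.mem_singleton]
    by_contra hc
    push Not at hc
    have h1 : ∀ β : Bool, E (t, β) = (E * swap a b) (t, β) := by
      intro β
      rw [Perm.mul_apply, swap_apply_of_ne_of_ne]
      · intro h; exact hc.1 (by rw [← h])
      · intro h; exact hc.2 (by rw [← h])
    rcases ht with ht | ht
    · exact ht (h1 false)
    · exact ht (h1 true)
  exact (Finset.card_le_card hsub).trans Finset.card_le_two

lemma ZL_RS (hα : ∀ i, 0 < α i) (hD : 0 ≤ D) (hA1 : ∀ i j, Real.exp (-D) ≤ A i j)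
    (hA2 : ∀ i j, A i j ≤ Real.exp D) (vtx : T × Bool → X) (E E' : Perm (T × Bool))
    (h : RS (T × Bool) E E') : |ZL α A vtx E - ZL α A vtx E'| ≤ 4 * D := by
  obtain ⟨a, b, rfl⟩ := h
  refine (ZL_lip hα hD hA1 hA2 vtx _ _ (swap_changed E a b)).trans (le_of_eq ?_)
  push_cast; ring

end zl

section types

variable {J T X : Type*} [Fintype J] [DecidableEq J] [AddCommGroup J] [Fintype T] [DecidableEq T]
  [Fintype X] [DecidableEq X] {k : ℕ} [NeZero k] {α : Fin k → ℝ} {A : Fin k → Fin k → ℝ} {D : ℝ}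

/-- the type of an edge: the parts of its two ends -/
def typ (E : Perm ((J × T) × Bool)) (i : J × T) : J × J := ((E (i, false)).1.1, (E (i, true)).1.1)

/-- number of edges of type `z` -/
noncomputable def Nz (E : Perm ((J × T) × Bool)) (z : J × J) : ℝ :=
  ((univ.filter (fun i => typ E i = z)).card : ℝ)

lemma Ph_compare (hα : ∀ i, 0 < α i) (hD : 0 ≤ D) (hA1 : ∀ i j, Real.exp (-D) ≤ A i j)
    (hA2 : ∀ i j, A i j ≤ Real.exp D) (vtx : T × Bool → X) (E E' : Perm ((J × T) × Bool)) :
    |Ph α A vtx E - Ph α A vtx E'| ≤ 2 * D * ∑ z, |Nz E z - Nz E' z| := by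
  obtain ⟨ρ, hρ⟩ := exists_match (typ E) (typ E')
  set E1 := E * pB ρ with hE1
  have h1 : Ph α A vtx E1 = Ph α A vtx E := by
    unfold Ph
    refine av_congr fun g => ?_
    rw [hE1, ← mul_assoc, ZL_pB]
  have ht1 : ∀ i, typ E1 i = typ E (ρ i) := fun i => rfl
  obtain ⟨F, hF, hF2⟩ := exists_align (fun x : (J × T) × Bool => x.1.1) E1 E'
  obtain ⟨g0, hg0⟩ := hat_surj F hF
  have h2 : Ph α A vtx (F * E1) = Ph α A vtx E := by
    rw [← hg0, Ph_hat, h1]
  rw [← h2]
  unfold Ph
  rw [← av_sub]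
  refine (abs_av_le_of fun g => ?_).trans (mul_le_mul_of_nonneg_left hρ (by linarith))
  refine ZL_lip hα hD hA1 hA2 _ _ _ (Finset.card_le_card ?_)
  intro i hi
  simp only [Finset.mem_filter, Finset.mem_univ, true_and] at hi ⊢
  intro h
  have h3 : typ E1 i = typ E' i := by rw [ht1, h]
  have h4 : (E1 (i, false)).1.1 = (E' (i, false)).1.1 := congrArg (fun z : J × J => z.1) h3
  have h5 : (E1 (i, true)).1.1 = (E' (i, true)).1.1 := congrArg (fun z : J × J => z.2) h3
  have h6 : (F * E1) (i, false) = E' (i, false) := hF2 _ h4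
  have h7 : (F * E1) (i, true) = E' (i, true) := hF2 _ h5
  rcases hi with hi | hi
  · exact hi (by rw [Perm.mul_apply, Perm.mul_apply (hat g) E', h6])
  · exact hi (by rw [Perm.mul_apply, Perm.mul_apply (hat g) E', h7])

end types

end Pool.Agent.Lib.R97Q2
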