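import Pool.Agent.Lib.R97Q2.Count

set_option autoImplicit false
set_option linter.unusedSectionVars false
set_option linter.unusedVariables false

namespace Pool.Agent.Lib.R97Q2

open Finset Equiv
open Function (update update_self update_of_ne update_eq_self update_comm)
open Pool.Agent.Lib.MP_7587db

section hom

variable {J T X : Type*} [Fintype J] [DecidableEq J] [AddCommGroup J] [Fintype T] [DecidableEq T]
  [Fintype X] [DecidableEq X] {k : ℕ} [NeZero k] {α : Fin k → ℝ} {A : Fin k → Fin k → ℝ} {D : ℝ}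

/-- the homogeneous model and the balanced template -/
lemma CF_template (hα : ∀ i, 0 < α i) (hD : 0 ≤ D) (hA1 : ∀ i j, Real.exp (-D) ≤ A i j)
    (hA2 : ∀ i j, A i j ≤ Real.exp D) (vtx : T × Bool → X) (hT : 0 < Fintype.card T)
    (δ : T → J) (hδ : ∀ c, |((univ.filter (fun t => δ t = c)).card : ℝ) -
      (Fintype.card T : ℝ) / Fintype.card J| ≤ 1) :
    |CF α A (vX vtx : (J × T) × Bool → J × X) - Lc α A vtx δ univ| ≤
      2 * D * ((Fintype.card J : ℝ) ^ 2 *
        (10 * Real.sqrt (8 * (Fintype.card J * Fintype.card T)) + 2)) := by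
  have e1 : Lc α A vtx δ univ = Ph α A vtx (Td δ) := Lc_eq vtx δ
  have e2 : Ph α A vtx (Td δ) = av (fun _ : Perm ((J × T) × Bool) => Ph α A vtx (Td δ)) :=
    (av_const _).symm
  rw [e1, CF_eq_Ph, e2, ← av_sub]
  refine (abs_av_le _).trans ((av_mono fun E =>
    Ph_compare hα hD hA1 hA2 vtx E (Td δ)).trans ?_)
  rw [av_mul_left, av_sum]
  refine mul_le_mul_of_nonneg_left ?_ (by linarith)
  have h1 : ∀ z ∈ (univ : Finset (J × J)),
      av (fun E : Perm ((J × T) × Bool) => |Nz E z - Nz (Td δ) z|) ≤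
      10 * Real.sqrt (8 * (Fintype.card J * Fintype.card T)) + 2 := by
    intro z _
    have h2 := Nz_conc hT z
    have h3 : av (fun E : Perm ((J × T) × Bool) => |Nz E z - Nz (Td δ) z|) ≤
        av (fun E : Perm ((J × T) × Bool) =>
          |Nz E z - (Fintype.card T : ℝ) / Fintype.card J| + 1) := by
      refine av_mono fun E => ?_
      have h4 := hδ (z.2 - z.1)
      rw [← Nz_Td] at h4
      have e3 : Nz E z - Nz (Td δ) z = (Nz E z - (Fintype.card T : ℝ) / Fintype.card J) -
        (Nz (Td δ) z - (Fintype.card T : ℝ) / Fintype.card J) := by ring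
      rw [e3]
      refine (abs_sub _ _).trans ?_
      linarith
    rw [av_add, av_const] at h3
    linarith
  refine (Finset.sum_le_sum h1).trans (le_of_eq ?_)
  rw [Finset.sum_const, Finset.card_univ, Fintype.card_prod, nsmul_eq_mul]
  push_cast
  ring

/-- approximate additivity -/
theorem CF_add {L : Type} [DistribLattice L] [Fintype L] {e : Fin k ≃ L} (H : Att e α A D)
    {Δ : ℕ} (vtx : T × Bool → X) (hv : ∀ x, (univ.filter (fun a => vtx a = x)).card ≤ Δ)
    (hT : 0 < Fintype.card T) (f0 : ℕ) (hf0 : f0 ≤ Fintype.card T)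
    {K : ℕ} (hK : 1 ≤ K) {s h : ℝ} (hs : 0 < s) (h0 : 0 < h) (h1 : h ≤ 1) :
    s * |CF α A (vX vtx : (J × T) × Bool → J × X) - Fintype.card J * CF α A vtx| ≤
      Fintype.card T * stepErr D s h Δ k K (Fintype.card J) (Fintype.card T) (2 * f0 + 1) +
      2 * (s * (s * (k * (Fintype.card J * Fintype.card X)))) +
      2 * (s * (D * (Fintype.card J * f0))) +
      s * (2 * D * ((Fintype.card J : ℝ) ^ 2 *
        (10 * Real.sqrt (8 * (Fintype.card J * Fintype.card T)) + 2))) := by
  obtain ⟨δ, hδ⟩ := exists_balanced J T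
  obtain ⟨B', hB'⟩ := Finset.exists_subset_card_eq (s := (univ : Finset T))
    (n := Fintype.card T - f0) (by rw [Finset.card_univ]; omega)
  have hc : B'.card = Fintype.card T - f0 := hB'.2
  have hc2 : Fintype.card T - B'.card = f0 := by omega
  have hc3 : (Fintype.card T : ℝ) - B'.card = f0 := by
    rw [hc, Nat.cast_sub hf0]; ring
  have a1 := path_bound (vtx := vtx) H hv B' δ hK hs h0 h1
  rw [hc2, hc3] at a1
  have a2 := CF_template H.αp H.D0.le H.A1 H.A2 vtx hT δ hδ
  have a3 := Lc_zero (J := J) H.αp H.Ap vtx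
  rw [a3] at a1
  have a2' := mul_le_mul_of_nonneg_left a2 hs.le
  have e1 : CF α A (vX vtx : (J × T) × Bool → J × X) - Fintype.card J * CF α A vtx =
    (CF α A (vX vtx : (J × T) × Bool → J × X) - Lc α A vtx δ univ) +
    (Lc α A vtx δ univ - Fintype.card J * CF α A vtx) := by ring
  rw [e1]
  refine (mul_le_mul_of_nonneg_left (abs_add_le _ _) hs.le).trans ?_
  rw [mul_add]
  linarith

end hom

section iso

variable {T T' X X' : Type*} [Fintype T] [DecidableEq T] [Fintype T'] [DecidableEq T']
  [Fintype X] [DecidableEq X] [Fintype X'] [DecidableEq X'] {k : ℕ} [NeZero k]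
  {α : Fin k → ℝ} {A : Fin k → Fin k → ℝ}

lemma exists_perm_of_fibres {P X : Type*} [Fintype P] [DecidableEq P] [DecidableEq X]
    (v v' : P → X) (h : ∀ x, (univ.filter (fun a => v a = x)).card =
      (univ.filter (fun a => v' a = x)).card) : ∃ ρ : Perm P, ∀ p, v' (ρ p) = v p := by
  have h1 : ∀ x, Fintype.card {p // v p = x} = Fintype.card {p // v' p = x} := by
    intro x
    rw [Fintype.card_subtype, Fintype.card_subtype]
    exact h x
  let F : ∀ x, {p // v p = x} ≃ {p // v' p = x} := fun x => Fintype.equivOfCardEq (h1 x)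
  refine ⟨(Equiv.sigmaFiberEquiv v).symm.trans
    ((Equiv.sigmaCongrRight F).trans (Equiv.sigmaFiberEquiv v')), fun p => ?_⟩
  exact (F (v p) ⟨p, rfl⟩).2

lemma CF_perm (vtx : T × Bool → X) (ρ : Perm (T × Bool)) :
    CF α A (fun a => vtx (ρ a)) = CF α A vtx := by
  unfold CF
  exact av_mulLeft ρ (ZL α A vtx)

lemma EW_relabel {V V' ι : Type*} [Fintype V] [DecidableEq V] [Fintype V'] [DecidableEq V']
    (π : V ≃ V') (I : Finset ι) (p q : ι → V) :
    ∑ σ, EW α A I (fun i => π (p i)) (fun i => π (q i)) σ = ∑ σ, EW α A I p q σ := by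
  rw [← Equiv.sum_comp (π.arrowCongr (Equiv.refl (Fin k)))]
  refine Finset.sum_congr rfl fun σ _ => ?_
  have h1 : (π.arrowCongr (Equiv.refl (Fin k))) σ = fun v => σ (π.symm v) := by
    funext j; simp [Equiv.arrowCongr]
  rw [h1]
  unfold EW
  congr 1
  · rw [← Equiv.prod_comp π]
    simp
  · refine Finset.prod_congr rfl fun i _ => ?_
    simp

lemma CF_vert (vtx : T × Bool → X) (π : X ≃ X') :
    CF α A (fun a => π (vtx a)) = CF α A vtx := by
  unfold CF
  refine av_congr fun E => ?_
  unfold ZL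
  rw [EW_relabel π (univ : Finset T) (fun t => vtx (E (t, false))) (fun t => vtx (E (t, true)))]

lemma CF_edge (vtx : T × Bool → X) (τ : T' ≃ T) :
    CF α A (fun a : T' × Bool => vtx (τ a.1, a.2)) = CF α A vtx := by
  unfold CF
  rw [← av_equiv (Equiv.prodCongr τ (Equiv.refl Bool)).permCongr (ZL α A vtx)]
  refine av_congr fun E => ?_
  unfold ZL
  congr 1
  refine Finset.sum_congr rfl fun σ _ => ?_
  unfold EW
  congr 1
  rw [← Equiv.prod_comp τ]
  refine Finset.prod_congr rfl fun t _ => ?_
  simp [Equiv.permCongr_apply, Prod.map]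

/-- the mean log-partition function depends only on the sizes -/
theorem CF_iso {Δ : ℕ} (vtx : T × Bool → X) (vtx' : T' × Bool → X')
    (h : ∀ x, (univ.filter (fun a => vtx a = x)).card = Δ)
    (h' : ∀ x, (univ.filter (fun a => vtx' a = x)).card = Δ)
    (hT : Fintype.card T = Fintype.card T') (hX : Fintype.card X = Fintype.card X') :
    CF α A vtx = CF α A vtx' := by
  let τ : T ≃ T' := Fintype.equivOfCardEq hT
  let π : X ≃ X' := Fintype.equivOfCardEq hX
  have h1 : ∀ x, (univ.filter (fun a : T × Bool => π.symm (vtx' (τ a.1, a.2)) = x)).card = Δ := by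
    intro x
    rw [← h' (π x)]
    refine Finset.card_bij (fun a _ => (τ a.1, a.2)) ?_ ?_ ?_
    · intro a ha
      simp only [Finset.mem_filter, Finset.mem_univ, true_and] at ha ⊢
      rw [← ha]; simp
    · intro a _ b _ hab
      simp only [Prod.mk.injEq] at hab
      exact Prod.ext (τ.injective hab.1) hab.2
    · intro b hb
      simp only [Finset.mem_filter, Finset.mem_univ, true_and] at hb
      refine ⟨(τ.symm b.1, b.2), ?_, by simp⟩
      simp only [Finset.mem_filter, Finset.mem_univ, true_and, Equiv.apply_symm_apply]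
      rw [hb]; simp
  obtain ⟨ρ, hρ⟩ := exists_perm_of_fibres vtx
    (fun a : T × Bool => π.symm (vtx' (τ a.1, a.2))) (fun x => by rw [h x, h1 x])
  have e1 : vtx = fun a => (fun a : T × Bool => π.symm (vtx' (τ a.1, a.2))) (ρ a) := by
    funext a; exact (hρ a).symm
  rw [e1, CF_perm (fun a : T × Bool => π.symm (vtx' (τ a.1, a.2))) ρ,
    CF_vert (fun a : T × Bool => vtx' (τ a.1, a.2)) π.symm, CF_edge vtx' τ]

end iso

end Pool.Agent.Lib.R97Q2
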