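import Pool.Agent.Lib.R97Q2.Gib

set_option autoImplicit false
set_option linter.unusedSectionVars false
set_option linter.unusedVariables false

namespace Pool.Agent.Lib.R97Q2

open Finset Equiv
open Function (update update_self update_of_ne update_eq_self update_comm)
open Pool.Agent.Lib.MP_7587db

section marks

variable {k : ℕ} [NeZero k] {L : Type} [DistribLattice L] [Fintype L]
  {V : Type*} [Fintype V] [DecidableEq V] {κ : Type*} [Fintype κ] [DecidableEq κ]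

/-- the weight `W0` in a field, with extra site weights `w` at the marked positions -/
noncomputable def GM (sf : Fin k → ℝ) (W0 : (V → Fin k) → ℝ) (w : Fin k → ℝ) (z : κ → V)
    (ξ : κ → Bool) (l : ℝ) : (V → Fin k) → ℝ :=
  fun σ => W0 σ * (∏ p, cond (ξ p) (w (σ (z p))) 1) * Real.exp (l * Msum sf σ)

/-- log-partition function with marks -/
noncomputable def FM (sf : Fin k → ℝ) (W0 : (V → Fin k) → ℝ) (w : Fin k → ℝ) (z : κ → V)
    (l : ℝ) (ξ : κ → Bool) : ℝ := Real.log (∑ σ, GM sf W0 w z ξ l σ)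

variable {sf w : Fin k → ℝ} {W0 : (V → Fin k) → ℝ} {z : κ → V}

lemma cond_pos (hw : ∀ i, 0 < w i) (b : Bool) (i : Fin k) : 0 < cond b (w i) 1 := by
  cases b
  · simp
  · exact hw i

lemma GM_pos (h0 : ∀ σ, 0 < W0 σ) (hw : ∀ i, 0 < w i) (ξ : κ → Bool) (l : ℝ) (σ : V → Fin k) :
    0 < GM sf W0 w z ξ l σ :=
  mul_pos (mul_pos (h0 σ) (Finset.prod_pos fun p _ => cond_pos hw _ _)) (Real.exp_pos _)

lemma GM_lsmv {e : Fin k ≃ L} (h0 : ∀ σ, 0 < W0 σ) (hL : LSMV e W0) (hw : ∀ i, 0 < w i)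
    (hw2 : LSM1 e w) (ξ : κ → Bool) {l : ℝ} (hl : 0 ≤ l) :
    LSMV e (GM (sL e) W0 w z ξ l) := by
  have h1 : LSMV (V := V) e (fun σ => ∏ p, cond (ξ p) (w (σ (z p))) 1) := by
    refine lsmv_prod e Finset.univ (fun p σ => cond_pos hw _ _) fun p => ?_
    cases ξ p
    · exact lsmv_one e
    · exact lsmv_site hw2 _
  have h2 : LSMV (V := V) e (fun σ => Real.exp (l * Msum (sL e) σ)) := by
    have : (fun σ : V → Fin k => Real.exp (l * Msum (sL e) σ)) =
        fun σ => ∏ u, Real.exp (l * sL e (σ u)) := by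
      funext σ
      rw [← Real.exp_sum]
      congr 1
      simp [Msum, sv, Finset.mul_sum]
    rw [this]
    refine lsmv_prod e Finset.univ (fun p σ => Real.exp_pos _) fun u => ?_
    refine lsmv_site (w := fun i => Real.exp (l * sL e i)) (fun i j => ?_) u
    rw [← Real.exp_add, ← Real.exp_add, ← mul_add, ← mul_add]
    exact Real.exp_le_exp.2 (mul_le_mul_of_nonneg_left (sL_super e i j) hl)
  exact lsmv_mul (fun σ => mul_pos (h0 σ) (Finset.prod_pos fun p _ => cond_pos hw _ _))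
    (fun σ => Real.exp_pos _)
    (lsmv_mul h0 (fun σ => Finset.prod_pos fun p _ => cond_pos hw _ _) hL h1) h2

lemma GM_exp (ξ : κ → Bool) (l : ℝ) : GM sf W0 w z ξ l =
    fun σ => GM sf W0 w z ξ 0 σ * Real.exp (l * Msum sf σ) := by
  funext σ
  simp [GM]

lemma GM_update (ξ : κ → Bool) (u : κ) (l : ℝ) (σ : V → Fin k) :
    GM sf W0 w z (update ξ u true) l σ = GM sf W0 w z (update ξ u false) l σ * w (σ (z u)) := by
  unfold GM
  rw [← Finset.mul_prod_erase Finset.univ _ (Finset.mem_univ u),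
    ← Finset.mul_prod_erase Finset.univ (fun p => cond (update ξ u false p) (w (σ (z p))) 1)
      (Finset.mem_univ u)]
  have h : ∏ p ∈ univ.erase u, cond (update ξ u true p) (w (σ (z p))) 1 =
      ∏ p ∈ univ.erase u, cond (update ξ u false p) (w (σ (z p))) 1 := by
    refine Finset.prod_congr rfl fun p hp => ?_
    rw [update_of_ne (Finset.ne_of_mem_erase hp), update_of_ne (Finset.ne_of_mem_erase hp)]
  rw [h]
  simp only [update_self, cond_true, cond_false]
  ring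

lemma GM_false (w' : Fin k → ℝ) (l : ℝ) :
    GM sf W0 w z (fun _ => false) l = GM sf W0 w' z (fun _ => false) l := by
  funext σ; simp [GM]

lemma continuous_FM (h0 : ∀ σ, 0 < W0 σ) (hw : ∀ i, 0 < w i) (ξ : κ → Bool) :
    Continuous (fun l => FM sf W0 w z l ξ) := by
  have : ∀ l, FM sf W0 w z l ξ =
      Real.log (∑ σ, GM sf W0 w z ξ 0 σ * Real.exp (l * Msum sf σ)) := by
    intro l; unfold FM; rw [GM_exp]
  simp only [this]
  exact continuous_log_sum (GM_pos h0 hw ξ 0)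

lemma continuous_gE_GM (h0 : ∀ σ, 0 < W0 σ) (hw : ∀ i, 0 < w i) (ξ : κ → Bool)
    (f : (V → Fin k) → ℝ) : Continuous (fun l => gE (GM sf W0 w z ξ l) f) := by
  have : ∀ l, gE (GM sf W0 w z ξ l) f =
      gE (fun σ => GM sf W0 w z ξ 0 σ * Real.exp (l * Msum sf σ)) f := by
    intro l; rw [GM_exp]
  simp only [this]
  exact continuous_gE (GM_pos h0 hw ξ 0)

lemma continuous_cov_GM (h0 : ∀ σ, 0 < W0 σ) (hw : ∀ i, 0 < w i) (ξ : κ → Bool)
    (f g : (V → Fin k) → ℝ) : Continuous (fun l => cov (GM sf W0 w z ξ l) f g) :=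
  (continuous_gE_GM h0 hw ξ _).sub ((continuous_gE_GM h0 hw ξ _).mul (continuous_gE_GM h0 hw ξ _))

lemma continuous_log_gE_GM (h0 : ∀ σ, 0 < W0 σ) (hw : ∀ i, 0 < w i) (ξ : κ → Bool)
    {f : (V → Fin k) → ℝ} (hf : ∀ σ, 0 < f σ) :
    Continuous (fun l => Real.log (gE (GM sf W0 w z ξ l) f)) :=
  (continuous_gE_GM h0 hw ξ f).log fun l => (gE_pos (GM_pos h0 hw ξ l) hf).ne'

lemma integral_cov_GM (h0 : ∀ σ, 0 < W0 σ) (hw : ∀ i, 0 < w i) {S : ℝ}
    (hs0 : ∀ i, 0 ≤ sf i) (hs1 : ∀ i, sf i ≤ S) (ξ : κ → Bool) (v : V) (s : ℝ) :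
    ∫ l in (0 : ℝ)..s, cov (GM sf W0 w z ξ l) (sv sf v) (Msum sf) ≤ S := by
  have : ∀ l, cov (GM sf W0 w z ξ l) (sv sf v) (Msum sf) =
      cov (fun σ => GM sf W0 w z ξ 0 σ * Real.exp (l * Msum sf σ)) (sv sf v) (Msum sf) := by
    intro l; rw [GM_exp]
  simp only [this]
  rw [integral_cov (GM_pos h0 hw ξ 0)]
  have h1 : gE (fun σ => GM sf W0 w z ξ 0 σ * Real.exp (s * Msum sf σ)) (sv sf v) ≤ S :=
    gE_le (fun σ => mul_pos (GM_pos h0 hw ξ 0 σ) (Real.exp_pos _)) (fun σ => hs1 _)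
  have h2 : 0 ≤ gE (fun σ => GM sf W0 w z ξ 0 σ * Real.exp (0 * Msum sf σ)) (sv sf v) :=
    gE_nonneg (fun σ => mul_pos (GM_pos h0 hw ξ 0 σ) (Real.exp_pos _)) (fun σ => hs0 _)
  linarith

lemma FM_bD (h0 : ∀ σ, 0 < W0 σ) (hw : ∀ i, 0 < w i) (l : ℝ) (ξ : κ → Bool) (u : κ) :
    bD u (FM sf W0 w z l) ξ =
      Real.log (gE (GM sf W0 w z (update ξ u false) l) (fun σ => w (σ (z u)))) := by
  unfold bD FM
  simp only [GM_update]
  exact log_sum_tilt (GM_pos h0 hw _ l) (fun σ => hw _)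

/-- sums of covariances over positions -/
lemma sum_cov_le {e : Fin k ≃ L} {W : (V → Fin k) → ℝ} (hW : ∀ σ, 0 < W σ) (hL : LSMV e W)
    {Δ : ℕ} (hz : ∀ v, (univ.filter (fun p => z p = v)).card ≤ Δ) (U : Finset κ) (x : V) :
    ∑ u ∈ U, cov W (sv (sL e) x) (sv (sL e) (z u)) ≤ Δ * cov W (sv (sL e) x) (Msum (sL e)) := by
  have h1 : ∑ u ∈ U, cov W (sv (sL e) x) (sv (sL e) (z u)) ≤
      ∑ u, cov W (sv (sL e) x) (sv (sL e) (z u)) :=
    Finset.sum_le_sum_of_subset_of_nonneg (Finset.subset_univ _) fun u _ _ =>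
      cov_sv_nonneg hW hL _ _
  refine h1.trans ?_
  have h2 : cov W (sv (sL e) x) (Msum (sL e)) =
      ∑ v, cov W (sv (sL e) x) (sv (sL e) v) := by
    have : (Msum (sL e) : (V → Fin k) → ℝ) = fun σ => ∑ u, sv (sL e) u σ := rfl
    rw [this, cov_sum_right]
  rw [h2, Finset.mul_sum, ← Finset.sum_fiberwise Finset.univ z]
  refine Finset.sum_le_sum fun v _ => ?_
  have h3 : ∑ u ∈ univ.filter (fun p => z p = v), cov W (sv (sL e) x) (sv (sL e) (z u)) =
      ∑ u ∈ univ.filter (fun p => z p = v), cov W (sv (sL e) x) (sv (sL e) v) :=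
    Finset.sum_congr rfl fun u hu => by rw [(Finset.mem_filter.1 hu).2]
  rw [h3, Finset.sum_const, nsmul_eq_mul]
  exact mul_le_mul_of_nonneg_right (by exact_mod_cast hz v) (cov_sv_nonneg hW hL _ _)

lemma FM_bD_bD {e : Fin k ≃ L} (h0 : ∀ σ, 0 < W0 σ) (hL : LSMV e W0) (hw : ∀ i, 0 < w i)
    (hwL : LSM1 e w)
    {D : ℝ} (hw1 : ∀ i, Real.exp (-D) ≤ w i) (hw2 : ∀ i, w i ≤ Real.exp D)
    {l : ℝ} (hl : 0 ≤ l) (ξ : κ → Bool) {u v : κ}
    (huv : u ≠ v) (hu : ξ u = false) (hv : ξ v = false) :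
    |bD v (bD u (FM (sL e) W0 w z l)) ξ| ≤
      Real.exp (4 * D) * cov (GM (sL e) W0 w z ξ l) (sv (sL e) (z v)) (sv (sL e) (z u)) := by
  have hWpos := GM_pos (sf := sL e) (z := z) h0 hw ξ l
  have e1 : update ξ u false = ξ := by rw [← hu]; exact update_eq_self u ξ
  have e2 : update ξ v false = ξ := by rw [← hv]; exact update_eq_self v ξ
  have h1 : bD v (bD u (FM (sL e) W0 w z l)) ξ =
      Real.log (gE (GM (sL e) W0 w z (update (update ξ v true) u false) l) (fun σ => w (σ (z u)))) -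
      Real.log (gE (GM (sL e) W0 w z ξ l) (fun σ => w (σ (z u)))) := by
    have h2 : bD v (bD u (FM (sL e) W0 w z l)) ξ = bD u (FM (sL e) W0 w z l) (update ξ v true) -
      bD u (FM (sL e) W0 w z l) (update ξ v false) := rfl
    rw [h2, FM_bD h0 hw, FM_bD h0 hw, e2, e1]
  have h3 : update (update ξ v true) u false = update ξ v true := by
    rw [update_comm huv.symm, e1]
  have h4 : GM (sL e) W0 w z (update ξ v true) l =
      fun σ => GM (sL e) W0 w z ξ l σ * w (σ (z v)) := by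
    funext σ
    rw [GM_update, e2]
  rw [h1, h3, h4, gE_tilt hWpos (fun σ => hw (σ (z v))),
    Real.log_div (gE_pos hWpos (fun σ => mul_pos (hw _) (hw _))).ne'
      (gE_pos hWpos (fun σ => hw _)).ne']
  exact pair_approx hWpos (LSMV.dec hWpos (GM_lsmv h0 hL hw hwL ξ hl)) hw1 hw2 (z u) (z v)

/-- interpolation quantity for the virtual marks -/
noncomputable def Psi' (sf : Fin k → ℝ) (W0 : (V → Fin k) → ℝ) (w : Fin k → ℝ) (z : κ → V)
    (h : ℝ) (U T : Finset κ) (l : ℝ) : ℝ :=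
  bE (PT h T) (fun ξ => FM sf W0 w z l ξ + h * ∑ u ∈ U \ T, bD u (FM sf W0 w z l) ξ)

lemma continuous_bD_FM (h0 : ∀ σ, 0 < W0 σ) (hw : ∀ i, 0 < w i) (ξ : κ → Bool) (u : κ) :
    Continuous (fun l => bD u (FM sf W0 w z l) ξ) :=
  (continuous_FM h0 hw _).sub (continuous_FM h0 hw _)

lemma continuous_Psi' (h0 : ∀ σ, 0 < W0 σ) (hw : ∀ i, 0 < w i) (h : ℝ) (U T : Finset κ) :
    Continuous (fun l => Psi' sf W0 w z h U T l) := by
  unfold Psi'
  refine continuous_bE _ fun ξ => ?_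
  refine (continuous_FM h0 hw ξ).add (continuous_const.mul ?_)
  exact continuous_finsetSum _ fun u _ => continuous_bD_FM h0 hw ξ u

lemma Psi'_step (h : ℝ) (U T : Finset κ) (v : κ) (hvU : v ∈ U) (hvT : v ∉ T) (l : ℝ) :
    Psi' sf W0 w z h U (insert v T) l - Psi' sf W0 w z h U T l =
      h ^ 2 * bE (PT h T) (fun ξ => ∑ u ∈ U \ insert v T, bD v (bD u (FM sf W0 w z l)) ξ) := by
  unfold Psi'
  rw [PT_insert, bE_update _ _ (PT_notMem hvT), ← bE_sub, ← bE_mul_left]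
  refine congrArg (bE (PT h T)) (funext fun ξ => ?_)
  have h1 : U \ T = insert v (U \ insert v T) := by
    ext x
    simp only [Finset.mem_sdiff, Finset.mem_insert, not_or]
    constructor
    · rintro ⟨hx1, hx2⟩
      by_cases hx : x = v
      · exact Or.inl hx
      · exact Or.inr ⟨hx1, hx, hx2⟩
    · rintro (rfl | ⟨hx1, _, hx2⟩)
      · exact ⟨hvU, hvT⟩
      · exact ⟨hx1, hx2⟩
  have h2 : v ∉ U \ insert v T := by simp
  rw [h1, Finset.sum_insert h2]
  rw [bD_add, bD_mul, bD_sum]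
  ring

lemma Psi'_step_abs {e : Fin k ≃ L} (h0 : ∀ σ, 0 < W0 σ) (hL : LSMV e W0) (hw : ∀ i, 0 < w i)
    (hwL : LSM1 e w)
    {D : ℝ} (hw1 : ∀ i, Real.exp (-D) ≤ w i) (hw2 : ∀ i, w i ≤ Real.exp D)
    {Δ : ℕ} (hz : ∀ v, (univ.filter (fun p => z p = v)).card ≤ Δ)
    {h : ℝ} (hh0 : 0 ≤ h) (hh1 : h ≤ 1)
    (U T : Finset κ) (v : κ) (hvU : v ∈ U) (hvT : v ∉ T) {l : ℝ} (hl : 0 ≤ l) :
    |Psi' (sL e) W0 w z h U (insert v T) l - Psi' (sL e) W0 w z h U T l| ≤
      h ^ 2 * Real.exp (4 * D) * Δ *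
        bE (PT h T) (fun ξ => cov (GM (sL e) W0 w z ξ l) (sv (sL e) (z v)) (Msum (sL e))) := by
  rw [Psi'_step h U T v hvU hvT, abs_mul, abs_of_nonneg (sq_nonneg h), mul_assoc, mul_assoc]
  refine mul_le_mul_of_nonneg_left ?_ (sq_nonneg h)
  rw [← bE_mul_left, ← bE_mul_left]
  refine (abs_bE_le (PT_nonneg hh0 T) (PT_le_one hh1 T) _).trans ?_
  refine bE_mono_supp (PT_nonneg hh0 T) (PT_le_one hh1 T) fun ξ hξ => ?_
  have hξv : ξ v = false := hξ v (PT_notMem hvT)
  refine (Finset.abs_sum_le_sum_abs _ _).trans ?_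
  have hb : ∀ u ∈ U \ insert v T, |bD v (bD u (FM (sL e) W0 w z l)) ξ| ≤
      Real.exp (4 * D) * cov (GM (sL e) W0 w z ξ l) (sv (sL e) (z v)) (sv (sL e) (z u)) := by
    intro u hu
    simp only [Finset.mem_sdiff, Finset.mem_insert, not_or] at hu
    exact FM_bD_bD h0 hL hw hwL hw1 hw2 hl ξ hu.2.1 (hξ u (PT_notMem hu.2.2)) hξv
  refine (Finset.sum_le_sum hb).trans ?_
  rw [← Finset.mul_sum]
  refine mul_le_mul_of_nonneg_left ?_ (Real.exp_pos _).le
  exact sum_cov_le (GM_pos h0 hw ξ l) (GM_lsmv h0 hL hw hwL ξ hl) hz _ _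

lemma Psi'_total {e : Fin k ≃ L} (h0 : ∀ σ, 0 < W0 σ) (hL : LSMV e W0) (hw : ∀ i, 0 < w i)
    (hwL : LSM1 e w)
    {D : ℝ} (hw1 : ∀ i, Real.exp (-D) ≤ w i) (hw2 : ∀ i, w i ≤ Real.exp D)
    {Δ : ℕ} (hz : ∀ v, (univ.filter (fun p => z p = v)).card ≤ Δ)
    {h : ℝ} (hh0 : 0 ≤ h) (hh1 : h ≤ 1)
    {s : ℝ} (hs : 0 ≤ s) (U T : Finset κ) (hT : T ⊆ U) :
    ∫ l in (0 : ℝ)..s, |Psi' (sL e) W0 w z h U T l - Psi' (sL e) W0 w z h U ∅ l| ≤
      T.card * (h ^ 2 * Real.exp (4 * D) * Δ * k) := by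
  induction T using Finset.induction_on with
  | empty => simp
  | insert v T hv ih =>
    have hvU : v ∈ U := hT (Finset.mem_insert_self v T)
    have ih' := ih ((Finset.subset_insert v T).trans hT)
    have c1 : Continuous (fun l => |Psi' (sL e) W0 w z h U (insert v T) l -
        Psi' (sL e) W0 w z h U ∅ l|) :=
      ((continuous_Psi' h0 hw h U _).sub (continuous_Psi' h0 hw h U _)).abs
    have c2 : Continuous (fun l => |Psi' (sL e) W0 w z h U T l - Psi' (sL e) W0 w z h U ∅ l|) :=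
      ((continuous_Psi' h0 hw h U _).sub (continuous_Psi' h0 hw h U _)).abs
    have c3 : ∀ ξ : κ → Bool, Continuous (fun l => cov (GM (sL e) W0 w z ξ l)
        (sv (sL e) (z v)) (Msum (sL e))) :=
      fun ξ => continuous_cov_GM h0 hw ξ _ _
    have c4 : Continuous (fun l => h ^ 2 * Real.exp (4 * D) * Δ *
        bE (PT h T) (fun ξ => cov (GM (sL e) W0 w z ξ l) (sv (sL e) (z v)) (Msum (sL e)))) :=
      continuous_const.mul (continuous_bE _ c3)
    have step : ∫ l in (0 : ℝ)..s, |Psi' (sL e) W0 w z h U (insert v T) l -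
        Psi' (sL e) W0 w z h U ∅ l| ≤
        ∫ l in (0 : ℝ)..s, (|Psi' (sL e) W0 w z h U T l - Psi' (sL e) W0 w z h U ∅ l| +
          h ^ 2 * Real.exp (4 * D) * Δ *
            bE (PT h T) (fun ξ => cov (GM (sL e) W0 w z ξ l) (sv (sL e) (z v))
              (Msum (sL e)))) := by
      refine intervalIntegral.integral_mono_on hs (c1.intervalIntegrable _ _)
        ((c2.add c4).intervalIntegrable _ _) fun l hl => ?_
      have := Psi'_step_abs h0 hL hw hwL hw1 hw2 hz hh0 hh1 U T v hvU hv hl.1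
      calc |Psi' (sL e) W0 w z h U (insert v T) l - Psi' (sL e) W0 w z h U ∅ l|
          = |(Psi' (sL e) W0 w z h U T l - Psi' (sL e) W0 w z h U ∅ l) +
            (Psi' (sL e) W0 w z h U (insert v T) l - Psi' (sL e) W0 w z h U T l)| := by
              congr 1; ring
        _ ≤ _ := (abs_add_le _ _).trans (add_le_add le_rfl this)
    refine step.trans ?_
    rw [intervalIntegral.integral_add (c2.intervalIntegrable _ _) (c4.intervalIntegrable _ _),
      intervalIntegral.integral_const_mul, integral_bE _ c3, Finset.card_insert_of_notMem hv]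
    have hb : bE (PT h T) (fun ξ => ∫ l in (0 : ℝ)..s,
        cov (GM (sL e) W0 w z ξ l) (sv (sL e) (z v)) (Msum (sL e))) ≤ k :=
      bE_le_of_le (PT_nonneg hh0 T) (PT_le_one hh1 T) fun ξ =>
        integral_cov_GM h0 hw (sL_nonneg e) (sL_le e) ξ _ s
    have hb2 : h ^ 2 * Real.exp (4 * D) * Δ *
        bE (PT h T) (fun ξ => ∫ l in (0 : ℝ)..s, cov (GM (sL e) W0 w z ξ l) (sv (sL e) (z v))
          (Msum (sL e))) ≤
        h ^ 2 * Real.exp (4 * D) * Δ * k := mul_le_mul_of_nonneg_left hb (by positivity)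
    push_cast
    linarith

/-- sum over `U` of the log-expectations of a site weight -/
noncomputable def mM (sf : Fin k → ℝ) (W0 : (V → Fin k) → ℝ) (w : Fin k → ℝ) (z : κ → V)
    (U : Finset κ) (l : ℝ) : ℝ :=
  ∑ u ∈ U, Real.log (gE (GM sf W0 w z (fun _ => false) l) (fun σ => w (σ (z u))))

lemma Psi'_empty (h0 : ∀ σ, 0 < W0 σ) (hw : ∀ i, 0 < w i) (h : ℝ) (U : Finset κ) (l : ℝ) :
    Psi' sf W0 w z h U ∅ l = FM sf W0 w z l (fun _ => false) + h * mM sf W0 w z U l := by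
  unfold Psi'
  rw [bE_zero _ (fun i => by simp [PT])]
  congr 2
  rw [Finset.sdiff_empty]
  unfold mM
  refine Finset.sum_congr rfl fun u _ => ?_
  rw [FM_bD h0 hw]
  congr 3
  funext x
  by_cases hx : x = u
  · subst hx; simp
  · simp [hx]

lemma Psi'_full (h : ℝ) (U : Finset κ) (l : ℝ) :
    Psi' sf W0 w z h U U l = bE (PT h U) (FM sf W0 w z l) := by
  unfold Psi'
  simp

/-- comparing two sets of positions -/
lemma mM_compare {e : Fin k ≃ L} (h0 : ∀ σ, 0 < W0 σ) (hL : LSMV e W0) (hw : ∀ i, 0 < w i)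
    (hwL : LSM1 e w)
    {D : ℝ} (hw1 : ∀ i, Real.exp (-D) ≤ w i) (hw2 : ∀ i, w i ≤ Real.exp D)
    {Δ : ℕ} (hz : ∀ v, (univ.filter (fun p => z p = v)).card ≤ Δ)
    {h : ℝ} (hh0 : 0 < h) (hh1 : h ≤ 1)
    {s : ℝ} (hs : 0 ≤ s) (U U' : Finset κ) {n : ℕ} (hU : U.card = n) (hU' : U'.card = n) :
    h * ∫ l in (0 : ℝ)..s, |mM (sL e) W0 w z U l - mM (sL e) W0 w z U' l| ≤
      (∫ l in (0 : ℝ)..s, |bE (PT h U) (FM (sL e) W0 w z l) -
        bE (PT h U') (FM (sL e) W0 w z l)|) +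
      2 * n * (h ^ 2 * Real.exp (4 * D) * Δ * k) := by
  have t1 := Psi'_total h0 hL hw hwL hw1 hw2 hz hh0.le hh1 hs U U (Finset.Subset.refl _)
  have t2 := Psi'_total h0 hL hw hwL hw1 hw2 hz hh0.le hh1 hs U' U' (Finset.Subset.refl _)
  simp only [Psi'_full, Psi'_empty h0 hw] at t1 t2
  rw [hU] at t1
  rw [hU'] at t2
  have cm : ∀ U : Finset κ, Continuous (fun l => mM (sL e) W0 w z U l) := fun U =>
    continuous_finsetSum _ fun u _ => continuous_log_gE_GM h0 hw _ (fun σ => hw _)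
  have cb : ∀ U : Finset κ, Continuous (fun l => bE (PT h U) (FM (sL e) W0 w z l)) := fun U =>
    continuous_bE _ fun ξ => continuous_FM h0 hw ξ
  have cF : Continuous (fun l => FM (sL e) W0 w z l (fun _ => false)) := continuous_FM h0 hw _
  have c1 : ∀ U : Finset κ, Continuous (fun l => |bE (PT h U) (FM (sL e) W0 w z l) -
      (FM (sL e) W0 w z l (fun _ => false) + h * mM (sL e) W0 w z U l)|) := fun U =>
    ((cb U).sub (cF.add (continuous_const.mul (cm U)))).abs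
  have c2 : Continuous (fun l => |bE (PT h U) (FM (sL e) W0 w z l) -
      bE (PT h U') (FM (sL e) W0 w z l)|) :=
    ((cb U).sub (cb U')).abs
  have c3 : Continuous (fun l => h * |mM (sL e) W0 w z U l - mM (sL e) W0 w z U' l|) :=
    continuous_const.mul ((cm U).sub (cm U')).abs
  have key : ∫ l in (0 : ℝ)..s, h * |mM (sL e) W0 w z U l - mM (sL e) W0 w z U' l| ≤
      ∫ l in (0 : ℝ)..s, (|bE (PT h U) (FM (sL e) W0 w z l) - bE (PT h U') (FM (sL e) W0 w z l)| +
        (|bE (PT h U) (FM (sL e) W0 w z l) -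
          (FM (sL e) W0 w z l (fun _ => false) + h * mM (sL e) W0 w z U l)| +
        |bE (PT h U') (FM (sL e) W0 w z l) -
          (FM (sL e) W0 w z l (fun _ => false) + h * mM (sL e) W0 w z U' l)|)) := by
    refine intervalIntegral.integral_mono_on hs (c3.intervalIntegrable _ _)
      ((c2.add ((c1 U).add (c1 U'))).intervalIntegrable _ _) fun l _ => ?_
    have ee : h * |mM (sL e) W0 w z U l - mM (sL e) W0 w z U' l| =
        |(bE (PT h U) (FM (sL e) W0 w z l) - bE (PT h U') (FM (sL e) W0 w z l)) -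
        (bE (PT h U) (FM (sL e) W0 w z l) -
          (FM (sL e) W0 w z l (fun _ => false) + h * mM (sL e) W0 w z U l)) +
        (bE (PT h U') (FM (sL e) W0 w z l) -
          (FM (sL e) W0 w z l (fun _ => false) + h * mM (sL e) W0 w z U' l))| := by
      rw [← abs_of_pos hh0, ← abs_mul, abs_of_pos hh0]
      congr 1; ring
    rw [ee]
    refine (abs_add_le _ _).trans ?_
    have := abs_sub (bE (PT h U) (FM (sL e) W0 w z l) - bE (PT h U') (FM (sL e) W0 w z l))
      (bE (PT h U) (FM (sL e) W0 w z l) -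
        (FM (sL e) W0 w z l (fun _ => false) + h * mM (sL e) W0 w z U l))
    linarith
  rw [intervalIntegral.integral_const_mul] at key
  refine key.trans ?_
  have c12 : Continuous (fun l =>
      |bE (PT h U) (FM (sL e) W0 w z l) -
        (FM (sL e) W0 w z l (fun _ => false) + h * mM (sL e) W0 w z U l)| +
      |bE (PT h U') (FM (sL e) W0 w z l) -
        (FM (sL e) W0 w z l (fun _ => false) + h * mM (sL e) W0 w z U' l)|) :=
    (c1 U).add (c1 U')
  rw [intervalIntegral.integral_add (c2.intervalIntegrable _ _) (c12.intervalIntegrable _ _),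
    intervalIntegral.integral_add ((c1 U).intervalIntegrable _ _) ((c1 U').intervalIntegrable _ _)]
  linarith

end marks

end Pool.Agent.Lib.R97Q2
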