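import Pool.Agent.Lib.R97Q2.Block

set_option autoImplicit false
set_option linter.unusedSectionVars false
set_option linter.unusedVariables false

namespace Pool.Agent.Lib.R97Q2

open Finset Equiv
open Function (update update_self update_of_ne update_eq_self update_comm)
open Pool.Agent.Lib.MP_7587db

/-- matching two colourings as well as possible -/
lemma exists_match {ι ζ : Type*} [Fintype ι] [DecidableEq ι] [Fintype ζ] [DecidableEq ζ]
    (f f' : ι → ζ) :
    ∃ ρ : Perm ι, ((univ.filter (fun i => f (ρ i) ≠ f' i)).card : ℝ) ≤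
      ∑ z, |((univ.filter (fun i => f i = z)).card : ℝ) -
        (univ.filter (fun i => f' i = z)).card| := by
  obtain ⟨ρ, -, hρ⟩ := Finset.exists_min_image (univ : Finset (Perm ι))
    (fun ρ => (univ.filter (fun i => f (ρ i) ≠ f' i)).card) ⟨1, Finset.mem_univ _⟩
  refine ⟨ρ, ?_⟩
  have key : ∀ i j, f (ρ i) ≠ f' i → f (ρ j) ≠ f' j → f (ρ j) ≠ f' i := by
    intro i j hi hj hji
    have h1 := hρ (ρ * swap i j) (Finset.mem_univ _)
    have hlt : (univ.filter (fun x => f ((ρ * swap i j) x) ≠ f' x)).card <
        (univ.filter (fun x => f (ρ x) ≠ f' x)).card := by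
      refine Finset.card_lt_card ?_
      rw [Finset.ssubset_iff_of_subset]
      · exact ⟨i, by simp [hi], by simp [hji]⟩
      · intro x hx
        simp only [Finset.mem_filter, Finset.mem_univ, true_and] at hx ⊢
        by_cases h1 : x = i
        · subst h1; exact hi
        · by_cases h2 : x = j
          · subst h2; exact hj
          · rwa [Perm.mul_apply, swap_apply_of_ne_of_ne h1 h2] at hx
    omega
  have hfib := Finset.card_eq_sum_card_fiberwise (f := f')
    (s := univ.filter (fun i => f (ρ i) ≠ f' i)) (t := univ) (fun x _ => Finset.mem_univ _)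
  rw [hfib]
  push_cast
  refine Finset.sum_le_sum fun z _ => ?_
  rcases ((univ.filter (fun i => f (ρ i) ≠ f' i)).filter (fun i => f' i = z)).eq_empty_or_nonempty
    with he | ⟨i0, hi0⟩
  · rw [he]; simp
  · simp only [Finset.mem_filter, Finset.mem_univ, true_and] at hi0
    have e1 : (univ.filter (fun i => f i = z)).card =
        (univ.filter (fun i => f (ρ i) = z ∧ f' i = z)).card := by
      have h1 : (univ.filter (fun i => f i = z)).card =
          (univ.filter (fun i => f (ρ i) = z)).card := by
        symm
        refine Finset.card_bij (fun i _ => ρ i) ?_ ?_ ?_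
        · intro i hi; simpa using hi
        · intro i _ j _ h; exact ρ.injective h
        · intro j hj
          refine ⟨ρ.symm j, ?_, by simp⟩
          simpa using hj
      rw [h1]
      congr 1
      refine Finset.filter_congr fun i _ => ?_
      constructor
      · intro h
        refine ⟨h, ?_⟩
        by_contra h2
        have h3 : f (ρ i) ≠ f' i := fun h4 => h2 (by rw [← h4, h])
        exact key i0 i hi0.1 h3 (by rw [h, hi0.2])
      · exact fun h => h.1
    have e2 : (univ.filter (fun i => f' i = z)).card =
        ((univ.filter (fun i => f (ρ i) ≠ f' i)).filter (fun i => f' i = z)).card +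
        (univ.filter (fun i => f (ρ i) = z ∧ f' i = z)).card := by
      rw [← Finset.card_union_of_disjoint]
      · congr 1
        ext i
        simp only [Finset.mem_filter, Finset.mem_univ, true_and, Finset.mem_union]
        constructor
        · intro h
          by_cases h2 : f (ρ i) = z
          · exact Or.inr ⟨h2, h⟩
          · exact Or.inl ⟨fun h3 => h2 (by rw [h3, h]), h⟩
        · rintro (h | h)
          · exact h.2
          · exact h.2
      · rw [Finset.disjoint_left]
        intro i hi hi2
        simp only [Finset.mem_filter, Finset.mem_univ, true_and] at hi hi2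
        exact hi.1 (by rw [hi2.1, hi2.2])
    rw [e1, e2]
    push_cast
    rw [abs_sub_comm]
    refine le_trans (le_of_eq ?_) (le_abs_self _)
    ring

/-- aligning two permutations by a permutation which preserves the parts -/
lemma exists_align {P J : Type*} [Fintype P] [DecidableEq P] [DecidableEq J] (π : P → J)
    (E E' : Perm P) : ∃ F : Perm P, (∀ x, π (F x) = π x) ∧
      ∀ x, π (E x) = π (E' x) → F (E x) = E' x := by
  classical
  obtain ⟨F, hF, hmax⟩ := Finset.exists_max_image
    (univ.filter (fun F : Perm P => ∀ x, π (F x) = π x))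
    (fun F => (univ.filter (fun x => π (E x) = π (E' x) ∧ F (E x) = E' x)).card)
    ⟨1, by simp⟩
  simp only [Finset.mem_filter, Finset.mem_univ, true_and] at hF hmax
  refine ⟨F, hF, fun x hx => ?_⟩
  by_contra hne
  have hab : π (F (E x)) = π (E' x) := by rw [hF, hx]
  have hF' : ∀ y, π ((swap (F (E x)) (E' x) * F) y) = π y := by
    intro y
    rw [Perm.mul_apply]
    by_cases h1 : F y = F (E x)
    · rw [h1, swap_apply_left, ← hab, ← h1, hF]
    · by_cases h2 : F y = E' x
      · rw [h2, swap_apply_right, hab, ← h2, hF]
      · rw [swap_apply_of_ne_of_ne h1 h2, hF]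
  have h1 := hmax _ hF'
  have hlt : (univ.filter (fun x => π (E x) = π (E' x) ∧ F (E x) = E' x)).card <
      (univ.filter (fun y => π (E y) = π (E' y) ∧
        (swap (F (E x)) (E' x) * F) (E y) = E' y)).card := by
    refine Finset.card_lt_card ?_
    rw [Finset.ssubset_iff_of_subset]
    · exact ⟨x, by simp [hx], by simp [hne]⟩
    · intro y hy
      simp only [Finset.mem_filter, Finset.mem_univ, true_and] at hy ⊢
      refine ⟨hy.1, ?_⟩
      rw [Perm.mul_apply, hy.2, swap_apply_of_ne_of_ne]
      · intro h
        have : F (E y) = F (E x) := by rw [hy.2, h]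
        have : y = x := E.injective (F.injective this)
        subst this
        exact hne hy.2
      · intro h
        have : y = x := E'.injective h
        subst this
        exact hne hy.2
  omega

section lip

variable {k : ℕ} [NeZero k] {V : Type*} [Fintype V] [DecidableEq V] {ι : Type*}
  {α : Fin k → ℝ} {A : Fin k → Fin k → ℝ} {D : ℝ}

lemma EW_lip (hα : ∀ i, 0 < α i) (hD : 0 ≤ D) (hA1 : ∀ i j, Real.exp (-D) ≤ A i j)
    (hA2 : ∀ i j, A i j ≤ Real.exp D) (I : Finset ι) (p q p' q' : ι → V) {n1 : ℕ}
    (h1 : (I.filter (fun i => p i ≠ p' i ∨ q i ≠ q' i)).card ≤ n1) :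
    |Real.log (∑ σ, EW α A I p q σ) - Real.log (∑ σ, EW α A I p' q' σ)| ≤ 2 * D * n1 := by
  have h := FM_lip (sf := fun _ => (0 : ℝ)) (w := fun _ => (1 : ℝ)) hα hD hA1 hA2
    (fun i => by rw [← Real.exp_zero]; exact Real.exp_le_exp.2 (by linarith))
    (fun i => by rw [← Real.exp_zero]; exact Real.exp_le_exp.2 hD)
    I p q p' q' (fun x : Fin 0 => x.elim0) (fun x : Fin 0 => x.elim0) (fun _ => false) 0
    (n2 := 0) h1 (by simp)
  have e1 : ∀ (p q : ι → V) (z : Fin 0 → V), FM (fun _ => (0 : ℝ)) (EW α A I p q)
      (fun _ => (1 : ℝ)) z 0 (fun _ => false) = Real.log (∑ σ, EW α A I p q σ) := by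
    intro p q z
    unfold FM GM
    simp
  rw [e1, e1] at h
  simpa using h

end lip

end Pool.Agent.Lib.R97Q2
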