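import Pool.Agent.Lib.R97Q2.Conv

set_option autoImplicit false
set_option linter.unusedSectionVars false
set_option linter.unusedVariables false

namespace Pool.Agent.Lib.R97Q2

open Finset Equiv Filter
open Function (update update_self update_of_ne update_eq_self update_comm)
open Pool.Agent.Lib.MP_7587db

section

variable {k : ℕ} [NeZero k] {α : Fin k → ℝ} {A : Fin k → Fin k → ℝ} {D : ℝ} {Δ g r : ℕ}
  {L : Type} [DistribLattice L] [Fintype L] {e : Fin k ≃ L}

/-- near-additivity -/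
lemma near_add_aR (H : Att e α A D) (hgr : 2 * r = Δ * g) (hg : 1 ≤ g) (hr : 1 ≤ r)
    (N : ℕ) (hN : 1 ≤ N) :
    ∃ C : ℝ, 0 ≤ C ∧ ∀ K m : ℕ, 1 ≤ K → K ^ (4 * k + 8) ≤ m →
      |aR α A Δ g r (N * m) - N * aR α A Δ g r m| ≤ C * (m / K) := by
  have hD := H.D0
  set n : ℝ := (N : ℝ) with hn
  have hn1 : (1 : ℝ) ≤ n := by rw [hn]; exact_mod_cast hN
  have hr1 : (1 : ℝ) ≤ r := by exact_mod_cast hr
  set C1 : ℝ := Real.exp (2 * D * n) * (4 * n ^ 2) + k * Real.exp (2 * D) * n with hC1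
  have hC10 : 0 ≤ C1 := by positivity
  set G := Real.sqrt (8 * (n * r)) with hG
  have hG0 : 0 ≤ G := Real.sqrt_nonneg _
  refine ⟨2 * C1 * Δ * k + n * 2 ^ k * (120 * D * G) + 2 * n * Real.exp (4 * D) * Δ * k * r * 2 ^ k +
    4 * n * Real.exp (2 * D) * r + 2 * k * n * g + 2 * D * n * r + 2 * D * n ^ 2 * (10 * G + 2),
    by positivity, ?_⟩
  intro K m hK hKm
  have hm : 1 ≤ m := le_trans (Nat.one_le_pow _ _ hK) hKm
  have : NeZero N := ⟨by omega⟩
  set y : ℝ := (K : ℝ) with hy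
  set x : ℝ := (m : ℝ) with hx
  have hy1 : (1 : ℝ) ≤ y := by rw [hy]; exact_mod_cast hK
  have hy0 : (0 : ℝ) < y := by linarith
  have hx1 : (1 : ℝ) ≤ x := by rw [hx]; exact_mod_cast hm
  have hx0 : (0 : ℝ) < x := by linarith
  have hyx : y ^ (4 * k + 8) ≤ x := by
    rw [hy, hx]; exact_mod_cast hKm
  set q := Real.sqrt x with hq
  have hq2 : q ^ 2 = x := Real.sq_sqrt hx0.le
  have hq0 : 0 < q := Real.sqrt_pos.2 hx0
  have hyq : y ^ (2 * k + 4) ≤ q := by
    rw [hq]
    apply Real.le_sqrt_of_sq_le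
    rw [← pow_mul]
    have : (2 * k + 4) * 2 = 4 * k + 8 := by ring
    rw [this]; exact hyx
  obtain ⟨vtx, hv⟩ : ∃ vtx : Fin (r * m) × Bool → Fin (g * m),
      ∀ x, (univ.filter (fun a => vtx a = x)).card = Δ :=
    exists_vtx (by
      rw [Fintype.card_fin, Fintype.card_fin]
      calc 2 * (r * m) = (2 * r) * m := by ring
        _ = (Δ * g) * m := by rw [hgr]
        _ = Δ * (g * m) := by ring)
  have hT0 : 0 < r * m := Nat.mul_pos hr hm
  set f0 : ℕ := r * m / K with hf0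
  have hmain := CF_add (J := ZMod N) H vtx (fun x => (hv x).le)
    (by rw [Fintype.card_fin]; exact hT0) f0
    (by rw [Fintype.card_fin]; exact Nat.div_le_self _ _) hK
    (s := 1 / y) (h := 1 / y ^ (k + 2)) (by positivity) (by positivity)
    (by rw [div_le_one (by positivity)]; exact one_le_pow₀ hy1)
  have e1 : CF α A (vX vtx : (ZMod N × Fin (r * m)) × Bool → ZMod N × Fin (g * m)) =
      aR α A Δ g r (N * m) := aR_eq _ (vX_fibres vtx hv) (by
        rw [Fintype.card_prod, ZMod.card, Fintype.card_fin]; ring) (by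
        rw [Fintype.card_prod, ZMod.card, Fintype.card_fin]; ring)
  have e2 : CF α A vtx = aR α A Δ g r m := aR_eq vtx hv (by rw [Fintype.card_fin])
    (by rw [Fintype.card_fin])
  rw [e1, e2] at hmain
  simp only [ZMod.card, Fintype.card_fin] at hmain
  have ct : ((r * m : ℕ) : ℝ) = r * x := by push_cast; rfl
  have cg : ((g * m : ℕ) : ℝ) = g * x := by push_cast; rfl
  unfold stepErr at hmain
  rw [ct, cg] at hmain
  push_cast at hmain
  rw [← hn, ← hy] at hmain
  set t : ℝ := r * x with ht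
  have ht0 : 0 < t := by positivity
  set f : ℝ := 2 * (f0 : ℝ) + 1 with hf
  have hfpos : 0 < f := by positivity
  -- size of f
  have hf0le : (f0 : ℝ) ≤ t / y := by
    rw [hf0, ← ct, hy]
    exact Nat.cast_div_le
  have hfge : t / y ≤ f := by
    rw [div_le_iff₀ hy0]
    have h1 : r * m < (f0 + 1) * K := by
      rw [hf0]
      have := Nat.lt_div_mul_add (a := r * m) (b := K) (by omega)
      nlinarith
    have h2 : ((r * m : ℕ) : ℝ) < ((f0 : ℝ) + 1) * K := by exact_mod_cast h1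
    rw [ct] at h2
    -- two cases
    rcases Nat.eq_zero_or_pos f0 with h0 | h0
    · rw [h0] at h2
      rw [hf, h0]
      push_cast at h2 ⊢
      rw [← hy] at h2
      linarith
    · have h3 : (1 : ℝ) ≤ f0 := by exact_mod_cast h0
      rw [← hy] at h2
      rw [hf]
      nlinarith
  have htf : t / f ≤ y := by
    rw [div_le_iff₀ hfpos]
    rw [div_le_iff₀ hy0] at hfge
    linarith
  have hmul : |aR α A Δ g r (N * m) - n * aR α A Δ g r m| =
      y * (1 / y * |aR α A Δ g r (N * m) - n * aR α A Δ g r m|) := by field_simp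
  rw [hmul]
  refine (mul_le_mul_of_nonneg_left hmain hy0.le).trans ?_
  -- elementary inequalities
  have q1 : 1 ≤ x / y := by
    rw [le_div_iff₀ hy0, one_mul]
    calc y = y ^ 1 := by ring
      _ ≤ y ^ (4 * k + 8) := pow_le_pow_right₀ hy1 (by omega)
      _ ≤ x := hyx
  have q2 : y ^ 2 ≤ x / y := by
    rw [le_div_iff₀ hy0]
    calc y ^ 2 * y = y ^ 3 := by ring
      _ ≤ y ^ (4 * k + 8) := pow_le_pow_right₀ hy1 (by omega)
      _ ≤ x := hyx
  have q3 : y * y ^ k * y ^ (k + 2) * q ≤ x / y := by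
    rw [le_div_iff₀ hy0]
    calc y * y ^ k * y ^ (k + 2) * q * y = y ^ (2 * k + 4) * q := by ring
      _ ≤ q * q := mul_le_mul_of_nonneg_right hyq hq0.le
      _ = x := by rw [← hq2]; ring
  have q4 : q ≤ x / y := by
    rw [le_div_iff₀ hy0]
    have h1 : y ≤ q := by
      calc y = y ^ 1 := by ring
        _ ≤ y ^ (2 * k + 4) := pow_le_pow_right₀ hy1 (by omega)
        _ ≤ q := hyq
    calc q * y ≤ q * q := mul_le_mul_of_nonneg_left h1 hq0.le
      _ = x := by rw [← hq2]; ring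
  have hK1 : (y + 1) ^ k ≤ 2 ^ k * y ^ k := by
    rw [← mul_pow]
    exact pow_le_pow_left₀ (by linarith) (by linarith) k
  have hsq : Real.sqrt (8 * (n * t)) = G * q := by
    rw [hG, hq, ← Real.sqrt_mul (by positivity)]
    congr 1
    rw [ht]; ring
  rw [hsq]
  have t1 : y * (t * (2 * (C1 * (Δ * k / f)))) ≤ 2 * C1 * Δ * k * (x / y) := by
    have h1 : y * (t * (2 * (C1 * (Δ * k / f)))) = 2 * C1 * Δ * k * (y * (t / f)) := by
      field_simp
    rw [h1]
    refine mul_le_mul_of_nonneg_left ?_ (by positivity)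
    calc y * (t / f) ≤ y * y := mul_le_mul_of_nonneg_left htf hy0.le
      _ = y ^ 2 := by ring
      _ ≤ x / y := q2
  have t2 : y * (t * (n / f * ((y + 1) ^ k * (1 / (1 / y ^ (k + 2)) *
      (1 / y * (120 * D * (G * q))))))) ≤ n * 2 ^ k * (120 * D * G) * (x / y) := by
    have h1 : y * (t * (n / f * ((y + 1) ^ k * (1 / (1 / y ^ (k + 2)) *
      (1 / y * (120 * D * (G * q))))))) =
      n * (120 * D * G) * ((t / f) * ((y + 1) ^ k * (y ^ (k + 2) * q))) := by
      field_simp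
    rw [h1]
    have h2 : (t / f) * ((y + 1) ^ k * (y ^ (k + 2) * q)) ≤
        y * ((2 ^ k * y ^ k) * (y ^ (k + 2) * q)) := by
      refine mul_le_mul htf ?_ (by positivity) hy0.le
      exact mul_le_mul_of_nonneg_right hK1 (by positivity)
    calc n * (120 * D * G) * ((t / f) * ((y + 1) ^ k * (y ^ (k + 2) * q)))
        ≤ n * (120 * D * G) * (y * ((2 ^ k * y ^ k) * (y ^ (k + 2) * q))) :=
          mul_le_mul_of_nonneg_left h2 (by positivity)
      _ = n * 2 ^ k * (120 * D * G) * (y * y ^ k * y ^ (k + 2) * q) := by ring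
      _ ≤ _ := mul_le_mul_of_nonneg_left q3 (by positivity)
  have t3 : y * (t * (n / f * ((y + 1) ^ k * (1 / (1 / y ^ (k + 2)) *
      (2 * f * ((1 / y ^ (k + 2)) ^ 2 * Real.exp (4 * D) * Δ * k)))))) ≤
      2 * n * Real.exp (4 * D) * Δ * k * r * 2 ^ k * (x / y) := by
    have h1 : y * (t * (n / f * ((y + 1) ^ k * (1 / (1 / y ^ (k + 2)) *
      (2 * f * ((1 / y ^ (k + 2)) ^ 2 * Real.exp (4 * D) * Δ * k)))))) =
      2 * n * Real.exp (4 * D) * Δ * k * r * (x * ((y + 1) ^ k * (y / y ^ (k + 2)))) := by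
      rw [ht]; field_simp
    rw [h1]
    have h2 : (y + 1) ^ k * (y / y ^ (k + 2)) ≤ 2 ^ k * y ^ k * (y / y ^ (k + 2)) :=
      mul_le_mul_of_nonneg_right hK1 (by positivity)
    have h3 : 2 ^ k * y ^ k * (y / y ^ (k + 2)) = 2 ^ k * (1 / y) := by
      rw [pow_add y k 2]
      field_simp
    rw [h3] at h2
    calc 2 * n * Real.exp (4 * D) * Δ * k * r * (x * ((y + 1) ^ k * (y / y ^ (k + 2))))
        ≤ 2 * n * Real.exp (4 * D) * Δ * k * r * (x * (2 ^ k * (1 / y))) := by
          refine mul_le_mul_of_nonneg_left ?_ (by positivity)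
          exact mul_le_mul_of_nonneg_left h2 hx0.le
      _ = _ := by ring
  have t4 : y * (t * (1 / y * (n * (4 * Real.exp (2 * D) / y)))) =
      4 * n * Real.exp (2 * D) * r * (x / y) := by
    rw [ht]; field_simp
  have t5 : y * (2 * (1 / y * (1 / y * (k * (n * (g * x)))))) = 2 * k * n * g * (x / y) := by
    field_simp
  have t6 : y * (2 * (1 / y * (D * (n * f0)))) ≤ 2 * D * n * r * (x / y) := by
    have h1 : y * (2 * (1 / y * (D * (n * f0)))) = 2 * D * n * f0 := by field_simp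
    rw [h1]
    have h2 : 2 * D * n * r * (x / y) = 2 * D * n * (t / y) := by rw [ht]; ring
    rw [h2]
    exact mul_le_mul_of_nonneg_left hf0le (by positivity)
  have t7 : y * (1 / y * (2 * D * (n ^ 2 * (10 * (G * q) + 2)))) ≤
      2 * D * n ^ 2 * (10 * G + 2) * (x / y) := by
    have h1 : y * (1 / y * (2 * D * (n ^ 2 * (10 * (G * q) + 2)))) =
      2 * D * n ^ 2 * (10 * G * q + 2 * 1) := by field_simp
    rw [h1]
    have h2 : 10 * G * q + 2 * 1 ≤ 10 * G * (x / y) + 2 * (x / y) :=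
      add_le_add (mul_le_mul_of_nonneg_left q4 (by positivity))
        (mul_le_mul_of_nonneg_left q1 (by norm_num))
    calc 2 * D * n ^ 2 * (10 * G * q + 2 * 1) ≤
        2 * D * n ^ 2 * (10 * G * (x / y) + 2 * (x / y)) :=
          mul_le_mul_of_nonneg_left h2 (by positivity)
      _ = _ := by ring
  have total : y * (t * (2 * (C1 * (Δ * k / f)) + n / f * ((y + 1) ^ k * (1 / (1 / y ^ (k + 2)) *
      (1 / y * (120 * D * (G * q)) +
        2 * f * ((1 / y ^ (k + 2)) ^ 2 * Real.exp (4 * D) * Δ * k)))) +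
      1 / y * (n * (4 * Real.exp (2 * D) / y))) +
      2 * (1 / y * (1 / y * (k * (n * (g * x))))) +
      2 * (1 / y * (D * (n * f0))) + 1 / y * (2 * D * (n ^ 2 * (10 * (G * q) + 2)))) =
      y * (t * (2 * (C1 * (Δ * k / f)))) +
      y * (t * (n / f * ((y + 1) ^ k * (1 / (1 / y ^ (k + 2)) *
      (1 / y * (120 * D * (G * q))))))) +
      y * (t * (n / f * ((y + 1) ^ k * (1 / (1 / y ^ (k + 2)) *
      (2 * f * ((1 / y ^ (k + 2)) ^ 2 * Real.exp (4 * D) * Δ * k)))))) +
      y * (t * (1 / y * (n * (4 * Real.exp (2 * D) / y)))) +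
      y * (2 * (1 / y * (1 / y * (k * (n * (g * x)))))) +
      y * (2 * (1 / y * (D * (n * f0)))) +
      y * (1 / y * (2 * D * (n ^ 2 * (10 * (G * q) + 2)))) := by ring
  rw [total, t4, t5]
  linarith

end

end Pool.Agent.Lib.R97Q2
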