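import Pool.Agent.Lib.R97Q2.Step2

set_option autoImplicit false
set_option linter.unusedSectionVars false
set_option linter.unusedVariables false

namespace Pool.Agent.Lib.R97Q2

open Finset Equiv
open Function (update update_self update_of_ne update_eq_self update_comm)
open Pool.Agent.Lib.MP_7587db

section gen

variable {k : ℕ} [NeZero k] {V : Type*} [Fintype V] [DecidableEq V] {ι : Type*} [DecidableEq ι]
  {α : Fin k → ℝ} {A : Fin k → Fin k → ℝ} {D : ℝ}

/-- adding edges changes the log-partition function by a bounded amount -/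
lemma edges_diff (hα : ∀ i, 0 < α i) (hD : 0 ≤ D) (hA1 : ∀ i j, Real.exp (-D) ≤ A i j)
    (hA2 : ∀ i j, A i j ≤ Real.exp D) {I I' : Finset ι} (hI : I ⊆ I') (p q : ι → V) :
    |Real.log (∑ σ, EW α A I' p q σ) - Real.log (∑ σ, EW α A I p q σ)| ≤
      D * ((I'.card : ℝ) - I.card) := by
  have hA : ∀ i j, 0 < A i j := fun i j => (Real.exp_pos _).trans_le (hA1 i j)
  have e1 : ∀ σ : V → Fin k, EW α A I' p q σ = EW α A I p q σ *
      ∏ i ∈ I' \ I, A (σ (p i)) (σ (q i)) := by
    intro σ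
    unfold EW
    rw [mul_assoc]
    congr 1
    rw [mul_comm, Finset.prod_sdiff hI]
  have hc : ((I' \ I).card : ℝ) = (I'.card : ℝ) - I.card := by
    have := Finset.card_sdiff_add_card_eq_card hI
    have h2 : ((I' \ I).card : ℝ) + I.card = I'.card := by exact_mod_cast this
    linarith
  simp only [e1]
  rw [log_sum_tilt (EW_pos hα hA I p q) (fun σ => Finset.prod_pos fun _ _ => hA _ _), ← hc]
  refine abs_log_gE_le (EW_pos hα hA I p q) (fun σ => ?_) (fun σ => ?_)
  · have : Real.exp (-(D * (I' \ I).card)) = ∏ _i ∈ I' \ I, Real.exp (-D) := by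
      rw [Finset.prod_const, ← Real.exp_nat_mul]; congr 1; ring
    rw [this]
    exact Finset.prod_le_prod (fun i _ => (Real.exp_pos _).le) fun i _ => hA1 _ _
  · have : Real.exp (D * (I' \ I).card) = ∏ _i ∈ I' \ I, Real.exp D := by
      rw [Finset.prod_const, ← Real.exp_nat_mul]; congr 1; ring
    rw [this]
    exact Finset.prod_le_prod (fun i _ => (hA _ _).le) fun i _ => hA2 _ _

lemma msum_nonneg {sf : Fin k → ℝ} (h0 : ∀ i, 0 ≤ sf i) (σ : V → Fin k) : 0 ≤ Msum sf σ :=
  Finset.sum_nonneg fun u _ => h0 _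

lemma msum_le {sf : Fin k → ℝ} {S : ℝ} (h1 : ∀ i, sf i ≤ S) (σ : V → Fin k) :
    Msum sf σ ≤ S * Fintype.card V := by
  unfold Msum
  refine (Finset.sum_le_sum fun u _ => (h1 (σ u) : sv sf u σ ≤ S)).trans (le_of_eq ?_)
  simp [mul_comm]

/-- effect of the field -/
lemma field_diff {sf : Fin k → ℝ} {W0 : (V → Fin k) → ℝ} (h0 : ∀ σ, 0 < W0 σ)
    {S : ℝ} (hs0 : ∀ i, 0 ≤ sf i) (hs1 : ∀ i, sf i ≤ S) {l s : ℝ} (hl : 0 ≤ l) (hls : l ≤ s) :
    |Real.log (∑ σ, FW sf W0 l σ) - Real.log (∑ σ, W0 σ)| ≤ s * (S * Fintype.card V) := by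
  have hS : 0 ≤ S := (hs0 0).trans (hs1 0)
  unfold FW
  rw [log_sum_tilt h0 (fun σ => Real.exp_pos _)]
  have hN : 0 ≤ S * Fintype.card V := by positivity
  refine abs_log_gE_le h0 (fun σ => Real.exp_le_exp.2 ?_) (fun σ => Real.exp_le_exp.2 ?_)
  · have := mul_nonneg hl (msum_nonneg hs0 σ)
    have := mul_nonneg (hl.trans hls) hN
    linarith
  · exact mul_le_mul hls (msum_le hs1 σ) (msum_nonneg hs0 σ) (hl.trans hls)

end gen

section path

variable {J T X : Type*} [Fintype J] [DecidableEq J] [AddCommGroup J] [Fintype T] [DecidableEq T]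
  [Fintype X] [DecidableEq X] {k : ℕ} {α : Fin k → ℝ} {A : Fin k → Fin k → ℝ}
  {vtx : T × Bool → X}
  [NeZero k] {L : Type} [DistribLattice L] [Fintype L] {e : Fin k ≃ L} {D : ℝ}

/-- integrated mean log-partition function -/
noncomputable def Fh (e : Fin k ≃ L) (α : Fin k → ℝ) (A : Fin k → Fin k → ℝ) (vtx : T × Bool → X)
    (δ : T → J) (B : Finset T) (s : ℝ) : ℝ :=
  AI s (fun (g : J → Perm (T × Bool)) l => Real.log (∑ σ, FW (sL e) (CW α A vtx δ B g) l σ))

/-- mean log-partition function of the cyclic model -/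
noncomputable def Lc (α : Fin k → ℝ) (A : Fin k → Fin k → ℝ) (vtx : T × Bool → X)
    (δ : T → J) (B : Finset T) : ℝ :=
  av (fun (g : J → Perm (T × Bool)) => Real.log (∑ σ, CW α A vtx δ B g σ))

lemma Fh_insert (H : Att e α A D) {δ : T → J} (B : Finset T) {y : T} (hy : y ∉ B) (s : ℝ) :
    Fh e α A vtx δ (insert y B) s = Fh e α A vtx δ B s + AI s (Fd e α A vtx δ B y (δ y)) := by
  unfold Fh
  rw [← AI_add (f := fun (g : J → Perm (T × Bool)) l =>
      Real.log (∑ σ, FW (sL e) (CW α A vtx δ B g) l σ))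
    (f' := Fd e α A vtx δ B y (δ y))
    (fun g => continuous_log_sum_FW (EW_pos H.αp H.Ap _ _ _))
    (fun g => continuous_Fd H B y (δ y) g)]
  congr 1
  funext g l
  have h0 : ∀ σ, 0 < CW α A vtx δ B g σ := EW_pos H.αp H.Ap _ _ _
  have e1 : ∀ σ, FW (sL e) (CW α A vtx δ (insert y B) g) l σ = FW (sL e) (CW α A vtx δ B g) l σ *
      ∏ i : J, A (σ (loc vtx g (i, (y, false)))) (σ (loc vtx g (i + δ y, (y, true)))) := by
    intro σ
    unfold FW
    rw [CW_insert B hy]
    ring
  have h2 := log_sum_tilt (FW_pos (sf := sL e) h0 l) (φ := fun σ : J × X → Fin k =>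
    ∏ i : J, A (σ (loc vtx g (i, (y, false)))) (σ (loc vtx g (i + δ y, (y, true)))))
    (fun σ => Finset.prod_pos fun _ _ => H.Ap _ _)
  simp only [e1]
  unfold Fd
  linarith

lemma Fh_congr {δ δ' : T → J} (B : Finset T) (h : ∀ t ∈ B, δ t = δ' t) (s : ℝ) :
    Fh e α A vtx δ B s = Fh e α A vtx δ' B s := by
  unfold Fh
  congr 1
  funext g l
  rw [CW_congr B h]

lemma Fd_congr {δ δ' : T → J} (B : Finset T) (h : ∀ t ∈ B, δ t = δ' t) (y : T) (d : J) :
    Fd e α A vtx δ B y d = Fd e α A vtx δ' B y d := by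
  funext g l
  unfold Fd
  rw [CW_congr B h]

/-- one switch along the path -/
lemma Fh_switch (H : Att e α A D) {Δ : ℕ}
    (hv : ∀ x, (univ.filter (fun a => vtx a = x)).card ≤ Δ) (B' : Finset T) {δ δ' : T → J}
    {y : T} (hyB : y ∈ B') (hδ : ∀ t, t ≠ y → δ t = δ' t) (h0' : δ' y = 0)
    {K : ℕ} (hK : 1 ≤ K) {s h : ℝ} (hs : 0 ≤ s) (h0 : 0 < h) (h1 : h ≤ 1) :
    |Fh e α A vtx δ B' s - Fh e α A vtx δ' B' s| ≤
      stepErr D s h Δ k K (Fintype.card J) (Fintype.card T)
        (2 * (Fintype.card T - B'.card) + 1) := by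
  set B := B'.erase y with hB
  have hy : y ∉ B := Finset.notMem_erase y B'
  have hins : B' = insert y B := (Finset.insert_erase hyB).symm
  have hcong : ∀ t ∈ B, δ t = δ' t := fun t ht => hδ t (Finset.ne_of_mem_erase ht)
  have hcard : 2 * (Fintype.card T - B.card) - 1 = 2 * (Fintype.card T - B'.card) + 1 := by
    have h2 : B'.card = B.card + 1 := by rw [hins, Finset.card_insert_of_notMem hy]
    have h3 : B'.card ≤ Fintype.card T := Finset.card_le_univ _
    omega
  have h2 := switch_step (δ := δ') H hv B hy hK hs h0 h1 (δ y)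
  rw [hcard] at h2
  rw [hins, Fh_insert H B hy s, Fh_insert H B hy s, Fh_congr B hcong, Fd_congr B hcong, h0']
  have : Fh e α A vtx δ' B s + AI s (Fd e α A vtx δ' B y (δ y)) -
      (Fh e α A vtx δ' B s + AI s (Fd e α A vtx δ' B y 0)) =
      AI s (Fd e α A vtx δ' B y (δ y)) - AI s (Fd e α A vtx δ' B y 0) := by ring
  rw [this, ← hins]
  exact h2

lemma stepErr_nonneg {D s h : ℝ} (hD : 0 ≤ D) (hs : 0 ≤ s) (h0 : 0 ≤ h) (Δ k K J T f : ℕ) :
    0 ≤ stepErr D s h Δ k K J T f := by
  unfold stepErr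
  have := Real.sqrt_nonneg (8 * ((J : ℝ) * T))
  positivity

lemma Fh_path (H : Att e α A D) {Δ : ℕ}
    (hv : ∀ x, (univ.filter (fun a => vtx a = x)).card ≤ Δ) (B' : Finset T) (δ : T → J)
    {K : ℕ} (hK : 1 ≤ K) {s h : ℝ} (hs : 0 ≤ s) (h0 : 0 < h) (h1 : h ≤ 1) (S : Finset T)
    (hS : S ⊆ B') :
    |Fh e α A vtx (fun t : T => if t ∈ S then δ t else (0 : J)) B' s - Fh e α A vtx (fun _ : T => (0 : J)) B' s| ≤
      S.card * stepErr D s h Δ k K (Fintype.card J) (Fintype.card T)
        (2 * (Fintype.card T - B'.card) + 1) := by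
  induction S using Finset.induction_on with
  | empty => simp
  | insert y S hy ih =>
    have hyB : y ∈ B' := hS (Finset.mem_insert_self y S)
    have ih' := ih ((Finset.subset_insert y S).trans hS)
    have h2 := Fh_switch H hv B' (δ := fun t : T => if t ∈ insert y S then δ t else (0 : J))
      (δ' := fun t : T => if t ∈ S then δ t else (0 : J)) hyB (fun t ht => by
        simp [Finset.mem_insert, ht]) (by simp [hy]) hK hs h0 h1
    rw [Finset.card_insert_of_notMem hy]
    push_cast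
    have h3 : Fh e α A vtx (fun t : T => if t ∈ insert y S then δ t else (0 : J)) B' s -
        Fh e α A vtx (fun _ : T => (0 : J)) B' s =
        (Fh e α A vtx (fun t : T => if t ∈ insert y S then δ t else (0 : J)) B' s -
        Fh e α A vtx (fun t : T => if t ∈ S then δ t else (0 : J)) B' s) +
        (Fh e α A vtx (fun t : T => if t ∈ S then δ t else (0 : J)) B' s -
        Fh e α A vtx (fun _ : T => (0 : J)) B' s) := by ring
    rw [h3]
    refine (abs_add_le _ _).trans ?_
    linarith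

lemma Fh_Lc (H : Att e α A D) (δ : T → J) (B : Finset T) {s : ℝ} (hs : 0 ≤ s) :
    |Fh e α A vtx δ B s - s * Lc α A vtx δ B| ≤
      s * (s * (k * (Fintype.card J * Fintype.card X))) := by
  have h0 : ∀ g : J → Perm (T × Bool), ∀ σ, 0 < CW α A vtx δ B g σ := fun g =>
    EW_pos H.αp H.Ap _ _ _
  unfold Fh Lc AI
  rw [← av_mul_left, ← av_sub]
  refine abs_av_le_of fun g => ?_
  have h1 : s * Real.log (∑ σ, CW α A vtx δ B g σ) =
      ∫ _ in (0 : ℝ)..s, Real.log (∑ σ, CW α A vtx δ B g σ) := by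
    rw [intervalIntegral.integral_const, sub_zero, smul_eq_mul]
  rw [h1, ← intervalIntegral.integral_sub
    ((continuous_log_sum_FW (h0 g)).intervalIntegrable _ _)
    (continuous_const.intervalIntegrable _ _)]
  have := intervalIntegral.norm_integral_le_of_norm_le_const (a := (0 : ℝ)) (b := s)
    (C := s * (k * Fintype.card (J × X)))
    (f := fun l => Real.log (∑ σ, FW (sL e) (CW α A vtx δ B g) l σ) -
      Real.log (∑ σ, CW α A vtx δ B g σ))
    (fun l hl => by
      rw [Set.uIoc_of_le hs] at hl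
      rw [Real.norm_eq_abs]
      exact field_diff (h0 g) (sL_nonneg e) (sL_le e) hl.1.le hl.2)
  rw [Real.norm_eq_abs, sub_zero, abs_of_nonneg hs, Fintype.card_prod] at this
  push_cast at this
  linarith

lemma Lc_edges (H : Att e α A D) (δ : T → J) (B : Finset T) :
    |Lc α A vtx δ univ - Lc α A vtx δ B| ≤
      D * (Fintype.card J * ((Fintype.card T : ℝ) - B.card)) := by
  unfold Lc
  rw [← av_sub]
  refine abs_av_le_of fun g => ?_
  have := edges_diff (V := J × X) H.αp H.D0.le H.A1 H.A2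
    (I := (univ : Finset J) ×ˢ B) (I' := (univ : Finset J) ×ˢ (univ : Finset T))
    (Finset.product_subset_product_right (Finset.subset_univ B)) (eP vtx g) (eQ vtx δ g)
  refine this.trans (le_of_eq ?_)
  rw [Finset.card_product, Finset.card_product, Finset.card_univ, Finset.card_univ]
  push_cast
  ring

/-- comparison of the model with shifts and the model without shifts -/
theorem path_bound (H : Att e α A D) {Δ : ℕ}
    (hv : ∀ x, (univ.filter (fun a => vtx a = x)).card ≤ Δ) (B' : Finset T) (δ : T → J)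
    {K : ℕ} (hK : 1 ≤ K) {s h : ℝ} (hs : 0 < s) (h0 : 0 < h) (h1 : h ≤ 1) :
    s * |Lc α A vtx δ univ - Lc α A vtx (fun _ : T => (0 : J)) univ| ≤
      Fintype.card T * stepErr D s h Δ k K (Fintype.card J) (Fintype.card T)
        (2 * (Fintype.card T - B'.card) + 1) +
      2 * (s * (s * (k * (Fintype.card J * Fintype.card X)))) +
      2 * (s * (D * (Fintype.card J * ((Fintype.card T : ℝ) - B'.card)))) := by
  have hD := H.D0
  set E := stepErr D s h Δ k K (Fintype.card J) (Fintype.card T)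
        (2 * (Fintype.card T - B'.card) + 1) with hE
  have hE0 : 0 ≤ E := stepErr_nonneg hD.le hs.le h0.le _ _ _ _ _ _
  have a1 := Fh_path (vtx := vtx) H hv B' δ hK hs.le h0 h1 B' (Finset.Subset.refl _)
  have e1 : Fh e α A vtx (fun t : T => if t ∈ B' then δ t else (0 : J)) B' s = Fh e α A vtx δ B' s :=
    Fh_congr B' (fun t ht => by simp [ht]) s
  rw [e1, ← hE] at a1
  have a1' : |Fh e α A vtx δ B' s - Fh e α A vtx (fun _ : T => (0 : J)) B' s| ≤ Fintype.card T * E := by
    refine a1.trans (mul_le_mul_of_nonneg_right ?_ hE0)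
    exact_mod_cast Finset.card_le_univ B'
  have a2 := Fh_Lc (vtx := vtx) H δ B' hs.le
  have a3 := Fh_Lc (vtx := vtx) H (fun _ : T => (0 : J)) B' hs.le
  have a4 := Lc_edges (vtx := vtx) H δ B'
  have a5 := Lc_edges (vtx := vtx) H (fun _ : T => (0 : J)) B'
  have a4' := mul_le_mul_of_nonneg_left a4 hs.le
  have a5' := mul_le_mul_of_nonneg_left a5 hs.le
  have habs : ∀ x : ℝ, s * |x| = |s * x| := fun x => by rw [abs_mul, abs_of_pos hs]
  rw [habs] at a4' a5' ⊢
  have b1 := abs_le.1 a1'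
  have b2 := abs_le.1 a2
  have b3 := abs_le.1 a3
  have b4 := abs_le.1 a4'
  have b5 := abs_le.1 a5'
  rw [abs_le]
  constructor <;> nlinarith [b1.1, b1.2, b2.1, b2.2, b3.1, b3.2, b4.1, b4.2, b5.1, b5.2]

end path

end Pool.Agent.Lib.R97Q2
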