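import Pool.Agent.Lib.R97Q2.Avg

set_option autoImplicit false
set_option linter.unusedSectionVars false
set_option linter.unusedVariables false

namespace Pool.Agent.Lib.R97Q2

open Finset Equiv

section perm

variable {α β : Type*} [Fintype α] [DecidableEq α] [Fintype β] [DecidableEq β]

/-- one transposition, on the right -/
def RS (α : Type*) [DecidableEq α] : Perm α → Perm α → Prop :=
  fun e e' => ∃ i j, e' = e * swap i j

lemma permCongr_mul_swap (e : α ≃ β) (p : Perm α) (i j : α) :
    e.permCongr (p * swap i j) = e.permCongr p * swap (e i) (e j) := by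
  ext x
  have : swap i j (e.symm x) = e.symm (swap (e i) (e j) x) := by
    by_cases h1 : x = e i
    · subst h1; simp
    · by_cases h2 : x = e j
      · subst h2; simp
      · rw [swap_apply_of_ne_of_ne h1 h2, swap_apply_of_ne_of_ne]
        · intro h; exact h1 (by rw [← h]; simp)
        · intro h; exact h2 (by rw [← h]; simp)
  simp [Equiv.permCongr_apply, Perm.mul_apply, this]

lemma optionCongr_mul_swap (p : Perm α) (i j : α) :
    Equiv.optionCongr (p * swap i j) = Equiv.optionCongr p * swap (some i) (some j) := by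
  rw [← Equiv.optionCongr_swap]
  ext x
  cases x <;> rfl

lemma dec_eq (e : Perm α) (p : Option α) :
    Perm.decomposeOption.symm (p, e) = Equiv.optionCongr e *
      swap ((Equiv.optionCongr e)⁻¹ none) ((Equiv.optionCongr e)⁻¹ p) := by
  rw [← swap_mul_eq_mul_swap]
  rfl

lemma dec_RS (p : Option α) {e e' : Perm α} (h : RS α e e') :
    RS (Option α) (Perm.decomposeOption.symm (p, e)) (Perm.decomposeOption.symm (p, e')) := by
  obtain ⟨i, j, rfl⟩ := h
  refine ⟨some i, some j, ?_⟩
  have h1 : ∀ e : Perm α, Perm.decomposeOption.symm (p, e) = swap none p * Equiv.optionCongr e :=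
    fun e => rfl
  rw [h1, h1, optionCongr_mul_swap, mul_assoc]

lemma conc_option {K : ℝ} (h : Conc (Perm α) (RS α) K) :
    Conc (Perm (Option α)) (RS (Option α)) (K + 4) := by
  intro f c hc hf
  set F : Option α × Perm α → ℝ := fun z => f (Perm.decomposeOption.symm z) with hF
  have e0 : av f = av F := (av_equiv Perm.decomposeOption.symm f).symm
  have e0' : av (fun x => Real.exp (f x - av f)) = av (fun z => Real.exp (F z - av F)) := by
    rw [← av_equiv Perm.decomposeOption.symm, e0]
  rw [e0']
  set φ : Option α → ℝ := fun p => av (fun e => F (p, e)) with hφ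
  have e1 : av F = av φ := av_prod F
  have hφ1 : ∀ p q, |φ p - φ q| ≤ 2 * c := by
    intro p q
    simp only [hφ]
    rw [← av_sub]
    refine abs_av_le_of fun e => ?_
    have a1 : ∀ p, |F (p, e) - f (Equiv.optionCongr e)| ≤ c := by
      intro p
      rw [abs_sub_comm]
      refine hf _ _ ⟨_, _, dec_eq e p⟩
    have a2 := abs_le.1 (a1 p)
    have a3 := abs_le.1 (a1 q)
    rw [abs_le]
    constructor <;> linarith [a2.1, a2.2, a3.1, a3.2]
  have h1 : av (fun p => Real.exp (φ p - av φ)) ≤ Real.exp ((2 * c) ^ 2) := by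
    refine av_exp_le (by linarith) ?_ fun p => ?_
    · rw [av_sub, av_const, sub_self]
    · have : φ p - av φ = av (fun q => φ p - φ q) := by rw [av_sub, av_const]
      rw [this]
      exact abs_av_le_of fun q => hφ1 p q
  rw [av_prod]
  have h2 : ∀ p, av (fun e => Real.exp (F (p, e) - av F)) ≤
      Real.exp (φ p - av φ) * Real.exp (K * c ^ 2) := by
    intro p
    have e2 : ∀ e, Real.exp (F (p, e) - av F) =
        Real.exp (φ p - av φ) * Real.exp (F (p, e) - av (fun e => F (p, e))) := by
      intro e
      rw [← Real.exp_add, e1]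
      congr 1
      simp only [hφ]
      ring
    rw [av_congr e2, av_mul_left]
    refine mul_le_mul_of_nonneg_left ?_ (Real.exp_pos _).le
    exact h (fun e => F (p, e)) c hc fun x y hxy => hf _ _ (dec_RS p hxy)
  refine (av_mono h2).trans ?_
  rw [av_mul_right]
  refine (mul_le_mul_of_nonneg_right h1 (Real.exp_pos _).le).trans (le_of_eq ?_)
  rw [← Real.exp_add]
  congr 1
  ring

lemma conc_perm_equiv (e : α ≃ β) {K : ℝ} (h : Conc (Perm α) (RS α) K) :
    Conc (Perm β) (RS β) K := by
  refine h.equiv e.permCongr ?_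
  rintro x y ⟨i, j, rfl⟩
  exact ⟨e i, e j, permCongr_mul_swap e x i j⟩

lemma Conc.mono {Z : Type*} [Fintype Z] {R : Z → Z → Prop} {K K' : ℝ} (h : Conc Z R K)
    (hK : K ≤ K') : Conc Z R K' := by
  intro f c hc hf
  refine (h f c hc hf).trans (Real.exp_le_exp.2 ?_)
  exact mul_le_mul_of_nonneg_right hK (sq_nonneg c)

lemma conc_perm_fin (n : ℕ) : Conc (Perm (Fin n)) (RS (Fin n)) (4 * n) := by
  induction n with
  | zero =>
    intro f c hc hf
    rw [av_unique, av_unique]
    simp
  | succ n ih =>
    have := conc_perm_equiv (finSuccEquiv n).symm (conc_option ih)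
    refine this.mono (le_of_eq ?_)
    push_cast
    ring

theorem conc_perm (α : Type*) [Fintype α] [DecidableEq α] :
    Conc (Perm α) (RS α) (4 * Fintype.card α) :=
  conc_perm_equiv (Fintype.equivFin α).symm (conc_perm_fin _)

/-! ### adding points -/

lemma av_perm_option {f : Perm (Option α) → ℝ} {c : ℝ}
    (hf : ∀ x y, RS (Option α) x y → |f x - f y| ≤ c) :
    |av f - av (fun e : Perm α => f (Equiv.optionCongr e))| ≤ c := by
  rw [← av_equiv Perm.decomposeOption.symm, av_prod]
  have : av (fun e : Perm α => f (Equiv.optionCongr e)) =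
      av (fun _ : Option α => av (fun e : Perm α => f (Equiv.optionCongr e))) := by
    rw [av_const]
  rw [this, ← av_sub]
  refine abs_av_le_of fun p => ?_
  rw [← av_sub]
  refine abs_av_le_of fun e => ?_
  rw [abs_sub_comm]
  exact hf _ _ ⟨_, _, dec_eq e p⟩

lemma av_perm_sum_fin (n : ℕ) : ∀ {f : Perm (α ⊕ Fin n) → ℝ} {c : ℝ},
    (∀ x y, RS (α ⊕ Fin n) x y → |f x - f y| ≤ c) →
    |av f - av (fun e : Perm α => f (Equiv.sumCongr e 1))| ≤ n * c := by
  induction n with
  | zero =>
    intro f c hf
    let E : α ≃ α ⊕ Fin 0 := (Equiv.sumEmpty α (Fin 0)).symm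
    have h1 : ∀ e : Perm α, Equiv.sumCongr e (1 : Perm (Fin 0)) = E.permCongr e := by
      intro e
      ext x
      rcases x with x | x
      · simp [E, Equiv.permCongr_apply]
      · exact x.elim0
    simp only [h1]
    rw [av_equiv E.permCongr f]
    simp
  | succ n ih =>
    intro f c hf
    let E : Option (α ⊕ Fin n) ≃ α ⊕ Fin (n + 1) :=
      { toFun := fun x => match x with
          | none => Sum.inr (Fin.last n)
          | some (Sum.inl a) => Sum.inl a
          | some (Sum.inr i) => Sum.inr i.castSucc
        invFun := fun x => match x with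
          | Sum.inl a => some (Sum.inl a)
          | Sum.inr i => Fin.lastCases none (fun i => some (Sum.inr i)) i
        left_inv := by
          intro x
          rcases x with _ | x | x <;> simp
        right_inv := by
          intro x
          rcases x with x | x
          · rfl
          · refine Fin.lastCases ?_ (fun i => ?_) x <;> simp }
    have hf' : ∀ x y, RS (Option (α ⊕ Fin n)) x y → |f (E.permCongr x) - f (E.permCongr y)| ≤ c := by
      rintro x y ⟨i, j, rfl⟩
      exact hf _ _ ⟨E i, E j, permCongr_mul_swap E x i j⟩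
    have h1 := av_perm_option hf'
    have h2 : ∀ x y, RS (α ⊕ Fin n) x y →
        |f (E.permCongr (Equiv.optionCongr x)) - f (E.permCongr (Equiv.optionCongr y))| ≤ c := by
      rintro x y ⟨i, j, rfl⟩
      exact hf' _ _ ⟨some i, some j, optionCongr_mul_swap x i j⟩
    have h3 := ih h2
    have h4 : ∀ e : Perm α, E.permCongr (Equiv.optionCongr (Equiv.sumCongr e (1 : Perm (Fin n)))) =
        Equiv.sumCongr e (1 : Perm (Fin (n + 1))) := by
      intro e
      ext x
      rcases x with x | x
      · simp [E, Equiv.permCongr_apply]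
      · refine Fin.lastCases ?_ (fun i => ?_) x <;> simp [E, Equiv.permCongr_apply]
    rw [av_equiv E.permCongr f] at h1
    simp only [h4] at h3
    push_cast
    have h5 : av f - av (fun e : Perm α => f (Equiv.sumCongr e 1)) =
      (av f - av (fun e : Perm (α ⊕ Fin n) => f (E.permCongr (Equiv.optionCongr e)))) +
      (av (fun e : Perm (α ⊕ Fin n) => f (E.permCongr (Equiv.optionCongr e))) -
        av (fun e : Perm α => f (Equiv.sumCongr e 1))) := by ring
    rw [h5]
    refine (abs_add_le _ _).trans ?_
    linarith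

/-- comparison of the averages on the permutations of `α ⊕ β` and of `α` -/
theorem av_perm_sum {f : Perm (α ⊕ β) → ℝ} {c : ℝ}
    (hf : ∀ x y, RS (α ⊕ β) x y → |f x - f y| ≤ c) :
    |av f - av (fun e : Perm α => f (Equiv.sumCongr e 1))| ≤ Fintype.card β * c := by
  let E : α ⊕ Fin (Fintype.card β) ≃ α ⊕ β := Equiv.sumCongr (Equiv.refl α) (Fintype.equivFin β).symm
  have hf' : ∀ x y, RS (α ⊕ Fin (Fintype.card β)) x y →
      |f (E.permCongr x) - f (E.permCongr y)| ≤ c := by
    rintro x y ⟨i, j, rfl⟩
    exact hf _ _ ⟨E i, E j, permCongr_mul_swap E x i j⟩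
  have h1 := av_perm_sum_fin _ hf'
  rw [av_equiv E.permCongr f] at h1
  have h4 : ∀ e : Perm α, E.permCongr (Equiv.sumCongr e 1) = Equiv.sumCongr e (1 : Perm β) := by
    intro e
    ext x
    rcases x with x | x <;> simp [E, Equiv.permCongr_apply]
  simp only [h4] at h1
  exact h1

end perm

section pi

variable {J : Type*} [Fintype J] [DecidableEq J] {α : Type*} [Fintype α] [DecidableEq α]

/-- one transposition in one coordinate, on the right -/
def RPi (J α : Type*) [DecidableEq J] [DecidableEq α] : (J → Perm α) → (J → Perm α) → Prop :=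
  fun g g' => ∃ (i : J) (a b : α), g' = g * (Pi.mulSingle i (swap a b) : J → Perm α)

lemma conc_pi_fin (α : Type*) [Fintype α] [DecidableEq α] (n : ℕ) :
    Conc (Fin n → Perm α) (RPi (Fin n) α) (4 * (n * Fintype.card α)) := by
  induction n with
  | zero =>
    intro f c hc hf
    rw [av_unique, av_unique]
    simp
  | succ n ih =>
    have h1 := (conc_perm α).prod ih
    have h2 := h1.equiv (R' := RPi (Fin (n + 1)) α) (Fin.consEquiv (fun _ => Perm α)) ?_
    · refine h2.mono (le_of_eq ?_)
      push_cast
      ring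
    · rintro ⟨x, g⟩ ⟨y, g'⟩ (⟨⟨i, j, hy⟩, hg⟩ | ⟨hx, ⟨i, a, b, hg⟩⟩)
      · simp only at hy hg
        subst hy hg
        refine ⟨0, i, j, ?_⟩
        funext t
        refine Fin.cases ?_ (fun t => ?_) t
        · simp [Fin.consEquiv]
        · simp [Fin.consEquiv]
      · simp only at hx hg
        subst hx hg
        refine ⟨i.succ, a, b, ?_⟩
        funext t
        refine Fin.cases ?_ (fun t => ?_) t
        · simp [Fin.consEquiv]
        · by_cases h : t = i
          · subst h; simp [Fin.consEquiv]
          · have h' : t.succ ≠ i.succ := fun h2 => h (Fin.succ_injective _ h2)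
            simp [Fin.consEquiv, Pi.mulSingle_eq_of_ne h, Pi.mulSingle_eq_of_ne h']

theorem conc_pi (J α : Type*) [Fintype J] [DecidableEq J] [Fintype α] [DecidableEq α] :
    Conc (J → Perm α) (RPi J α) (4 * (Fintype.card J * Fintype.card α)) := by
  let E := Fintype.equivFin J
  refine (conc_pi_fin α (Fintype.card J)).equiv (Equiv.arrowCongr E.symm (Equiv.refl (Perm α))) ?_
  rintro x y ⟨i, a, b, rfl⟩
  refine ⟨E.symm i, a, b, ?_⟩
  funext t
  by_cases h : t = E.symm i
  · subst h; simp [Equiv.arrowCongr]
  · have h' : E t ≠ i := fun h2 => h (by rw [← h2]; simp)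
    simp [Equiv.arrowCongr, Pi.mulSingle_eq_of_ne h, Pi.mulSingle_eq_of_ne h']

lemma av_mulRight {G : Type*} [Group G] [Fintype G] (s : G) (f : G → ℝ) :
    av (fun g => f (g * s)) = av f := av_equiv (Equiv.mulRight s) f

lemma av_mulLeft {G : Type*} [Group G] [Fintype G] (s : G) (f : G → ℝ) :
    av (fun g => f (s * g)) = av f := av_equiv (Equiv.mulLeft s) f

end pi

end Pool.Agent.Lib.R97Q2
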