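import Pool.Agent.Lib.R97Q2.Simp3
import Pool.Agent.Lib.MP_7587db.Transfer

set_option autoImplicit false
set_option linter.unusedSectionVars false
set_option linter.unusedVariables false

namespace Pool.Agent.Lib.R97Q2

open Finset Equiv Filter MeasureTheory
open Pool.Agent.Lib.MP_7587db

section dev

variable {k : ℕ} {n : ℕ}

/-- the adjacency indicator -/
noncomputable def adjB (G : SimpleGraph (Fin n)) : Fin n × Fin n → Bool := by
  classical
  exact fun p => decide (G.Adj p.1 p.2)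

lemma adjB_iff (G : SimpleGraph (Fin n)) (p : Fin n × Fin n) :
    adjB G p = true ↔ G.Adj p.1 p.2 := by
  unfold adjB; simp

variable {T : Type*} [Fintype T] [DecidableEq T] {Δ : ℕ}

lemma hl_ZL {α : Fin k → ℝ} {A : Fin k → Fin k → ℝ} (hs : ∀ i j, A i j = A j i)
    {vtx : T × Bool → Fin n} {G : SimpleGraph (Fin n)} {E : Perm (T × Bool)}
    (h : InF vtx G E) : hl n α A (adjB G) = ZL α A vtx E := by
  classical
  unfold hl ZL
  congr 1
  refine Finset.sum_congr rfl fun σ _ => ?_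
  unfold EW
  congr 1
  rw [← inF_prod hs h σ]
  refine Finset.prod_congr ?_ fun _ _ => rfl
  ext p
  simp only [Finset.mem_filter, Finset.mem_univ, true_and, adjB_iff]

variable [NeZero k]

/-- few regular graphs have an exceptional partition function -/
lemma dev_bound {α : Fin k → ℝ} {A : Fin k → Fin k → ℝ} (hα : ∀ i, 0 < α i)
    (hs : ∀ i j, A i j = A j i) {D : ℝ} (hD : 0 ≤ D) (hA1 : ∀ i j, Real.exp (-D) ≤ A i j)
    (hA2 : ∀ i j, A i j ≤ Real.exp D) (vtx : T × Bool → Fin n)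
    (hv : ∀ x, (univ.filter (fun a => vtx a = x)).card = Δ)
    (hM4 : 4 ≤ Fintype.card (T × Bool))
    (hM : (4 * Δ + 12 * Δ ^ 2) + (2 * Δ ^ 2 + 3 * Δ) < Fintype.card (T × Bool))
    {θ s : ℝ} (hθ : 0 ≤ θ) :
    ({G : SimpleGraph (Fin n) | Reg G Δ ∧ s ≤ |hl n α A (adjB G) - CF α A vtx|}.ncard : ℝ) ≤
      4 * (Fintype.card (T × Bool) : ℝ) ^ (2 * (4 * Δ + 12 * Δ ^ 2)) *
        Real.exp (4 * Fintype.card (T × Bool) * (4 * D * θ) ^ 2 - θ * s) *
        {G : SimpleGraph (Fin n) | Reg G Δ}.ncard := by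
  set S : Set (SimpleGraph (Fin n)) := {G | Reg G Δ ∧ s ≤ |hl n α A (adjB G) - CF α A vtx|} with hS
  set F : Set (Perm (T × Bool)) := {E | s ≤ |ZL α A vtx E - CF α A vtx|} with hF
  have h1 := ratio_le vtx hv S (fun G hG => hG.1) F (fun E hE hG => by
    have h2 := hG.2
    rw [hl_ZL hs (inF_gr hE)] at h2
    exact h2)
  have h2 := simple_many vtx hv hM4 hM
  set P : ℝ := (Fintype.card (Perm (T × Bool)) : ℝ) with hP
  have hP0 : 0 < P := by rw [hP]; exact_mod_cast Fintype.card_pos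
  set I : ℝ := (({E | Function.Injective (ph vtx E)}.ncard : ℕ) : ℝ) with hI
  set C : ℝ := (Fintype.card (T × Bool) : ℝ) ^ (2 * (4 * Δ + 12 * Δ ^ 2)) with hC
  have hM0 : (0 : ℝ) < Fintype.card (T × Bool) := by
    have : 0 < Fintype.card (T × Bool) := by omega
    exact_mod_cast this
  have hC0 : 0 < C := by rw [hC]; positivity
  have hI0 : 0 < I := by
    by_contra hcon
    push Not at hcon
    have : 2 * C * I ≤ 0 := mul_nonpos_of_nonneg_of_nonpos (by positivity) hcon
    linarith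
  -- the number of exceptional configurations
  have h3 : (F.ncard : ℝ) ≤ P * (2 * Real.exp (4 * Fintype.card (T × Bool) * (4 * D * θ) ^ 2 -
      θ * s)) := by
    have ht := (conc_perm (T × Bool)).tail (f := ZL α A vtx) (c := 4 * D) (by positivity)
      (ZL_RS hα hD hA1 hA2 vtx) (θ := θ) (s := s) hθ
    have e1 : av (ZL α A vtx) = CF α A vtx := rfl
    rw [e1] at ht
    classical
    have e2 : (F.ncard : ℝ) ≤ ∑ E : Perm (T × Bool),
        Real.exp (θ * (|ZL α A vtx E - CF α A vtx| - s)) := by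
      have e3 : F.ncard = (univ.filter (fun E => E ∈ F)).card := by
        rw [← Set.ncard_coe_finset]
        congr 1
        ext E; simp
      rw [e3, Finset.card_filter]
      push_cast
      refine Finset.sum_le_sum fun E _ => ?_
      split_ifs with hE
      · rw [← Real.exp_zero]
        refine Real.exp_le_exp.2 (mul_nonneg hθ ?_)
        have : s ≤ |ZL α A vtx E - CF α A vtx| := hE
        linarith
      · exact (Real.exp_pos _).le
    unfold av at ht
    rw [div_le_iff₀ hP0] at ht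
    linarith
  set X : ℝ := Real.exp (4 * Fintype.card (T × Bool) * (4 * D * θ) ^ 2 - θ * s) with hX
  have hX0 : 0 < X := Real.exp_pos _
  set R : ℝ := (({G : SimpleGraph (Fin n) | Reg G Δ}.ncard : ℕ) : ℝ) with hR
  have hR0 : 0 ≤ R := Nat.cast_nonneg _
  have h4 : (S.ncard : ℝ) * I ≤ (4 * C * X * R) * I := by
    calc (S.ncard : ℝ) * I ≤ F.ncard * R := h1
      _ ≤ (P * (2 * X)) * R := mul_le_mul_of_nonneg_right h3 hR0
      _ ≤ ((2 * C * I) * (2 * X)) * R := by
          refine mul_le_mul_of_nonneg_right ?_ hR0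
          exact mul_le_mul_of_nonneg_right h2 (by positivity)
      _ = (4 * C * X * R) * I := by ring
  exact le_of_mul_le_mul_right h4 hI0

lemma reg_pos (vtx : T × Bool → Fin n)
    (hv : ∀ x, (univ.filter (fun a => vtx a = x)).card = Δ)
    (hM4 : 4 ≤ Fintype.card (T × Bool))
    (hM : (4 * Δ + 12 * Δ ^ 2) + (2 * Δ ^ 2 + 3 * Δ) < Fintype.card (T × Bool)) :
    0 < {G : SimpleGraph (Fin n) | Reg G Δ}.ncard := by
  have h2 := simple_many vtx hv hM4 hM
  have hP0 : (0 : ℝ) < (Fintype.card (Perm (T × Bool)) : ℝ) := by exact_mod_cast Fintype.card_pos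
  have hne : {E | Function.Injective (ph vtx E)}.ncard ≠ 0 := by
    intro h
    rw [h] at h2
    simp at h2
  have hne2 : {E | Function.Injective (ph vtx E)}.Nonempty := by
    by_contra hcon
    rw [Set.not_nonempty_iff_eq_empty] at hcon
    rw [hcon] at hne
    simp at hne
  obtain ⟨E, hE⟩ := hne2
  rw [Set.ncard_pos (Set.toFinite _)]
  exact ⟨gr vtx E, inF_reg hv (inF_gr hE)⟩

end dev

section law

variable {Ω : Type} [MeasurableSpace Ω] {μ : Measure Ω} {n Δ : ℕ}

/-- probability of a set of regular graphs -/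
lemma law_le {G : Ω → SimpleGraph (Fin n)}
    (hlaw : ∀ g : SimpleGraph (Fin n), Reg g Δ →
      μ {ω | G ω = g} = (({g' : SimpleGraph (Fin n) | Reg g' Δ}.ncard : ℕ) : ENNReal)⁻¹)
    (S : Set (SimpleGraph (Fin n))) (hS : ∀ g ∈ S, Reg g Δ) {ε : ℝ} (hε : 0 ≤ ε)
    (hR : 0 < {g' : SimpleGraph (Fin n) | Reg g' Δ}.ncard)
    (h : (S.ncard : ℝ) ≤ ε * {g' : SimpleGraph (Fin n) | Reg g' Δ}.ncard) :
    μ {ω | G ω ∈ S} ≤ ENNReal.ofReal ε := by
  classical
  set R : ℕ := {g' : SimpleGraph (Fin n) | Reg g' Δ}.ncard with hRdef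
  have hsub : {ω | G ω ∈ S} ⊆ ⋃ g ∈ (univ.filter (fun g => g ∈ S)), {ω | G ω = g} := by
    intro ω hω
    simp only [Set.mem_iUnion]
    exact ⟨G ω, by simpa using hω, rfl⟩
  refine (measure_mono hsub).trans ((measure_biUnion_finset_le _ _).trans ?_)
  rw [Finset.sum_congr rfl fun g hg => hlaw g (hS g (Finset.mem_filter.1 hg).2),
    Finset.sum_const, nsmul_eq_mul]
  have e3 : (univ.filter (fun g => g ∈ S)).card = S.ncard := by
    rw [← Set.ncard_coe_finset]
    congr 1
    ext E; simp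
  rw [e3]
  have hR0 : ((R : ℕ) : ENNReal) ≠ 0 := by exact_mod_cast hR.ne'
  have hRt : ((R : ℕ) : ENNReal) ≠ ⊤ := ENNReal.natCast_ne_top R
  rw [← div_eq_mul_inv, ENNReal.div_le_iff hR0 hRt]
  have e4 : ENNReal.ofReal ε * ((R : ℕ) : ENNReal) = ENNReal.ofReal (ε * R) := by
    rw [ENNReal.ofReal_mul hε, ENNReal.ofReal_natCast]
  rw [e4, ← ENNReal.ofReal_natCast]
  exact ENNReal.ofReal_le_ofReal h

lemma law_reg [IsProbabilityMeasure μ] {G : Ω → SimpleGraph (Fin n)}
    (hmeas : ∀ g, MeasurableSet {ω | G ω = g})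
    (hlaw : ∀ g : SimpleGraph (Fin n), Reg g Δ →
      μ {ω | G ω = g} = (({g' : SimpleGraph (Fin n) | Reg g' Δ}.ncard : ℕ) : ENNReal)⁻¹)
    (hR : 0 < {g' : SimpleGraph (Fin n) | Reg g' Δ}.ncard) :
    ∀ᵐ ω ∂μ, Reg (G ω) Δ := by
  classical
  set R : ℕ := {g' : SimpleGraph (Fin n) | Reg g' Δ}.ncard with hRdef
  have hset : {ω | Reg (G ω) Δ} =
      ⋃ g ∈ (univ.filter (fun g : SimpleGraph (Fin n) => Reg g Δ)), {ω | G ω = g} := by
    ext ω
    simp
  have hm : MeasurableSet {ω | Reg (G ω) Δ} := by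
    rw [hset]
    exact Finset.measurableSet_biUnion _ fun g _ => hmeas g
  have h1 : μ {ω | Reg (G ω) Δ} = 1 := by
    rw [hset, measure_biUnion_finset (fun g _ g' _ hgg => by
      refine Set.disjoint_left.2 fun ω h1 h2 => hgg ?_
      have h1' : G ω = g := h1
      have h2' : G ω = g' := h2
      rw [← h1', ← h2']) (fun g _ => hmeas g),
      Finset.sum_congr rfl fun g hg => hlaw g (Finset.mem_filter.1 hg).2,
      Finset.sum_const, nsmul_eq_mul]
    have e3 : (univ.filter (fun g : SimpleGraph (Fin n) => Reg g Δ)).card = R := by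
      rw [hRdef, ← Set.ncard_coe_finset]
      congr 1
      ext E; simp
    rw [e3]
    exact ENNReal.mul_inv_cancel (by exact_mod_cast hR.ne') (ENNReal.natCast_ne_top R)
  have h2 := (prob_compl_eq_zero_iff hm).2 h1
  exact h2

end law

end Pool.Agent.Lib.R97Q2
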