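import Pool.Agent.Lib.R97Q2.Conv2

set_option autoImplicit false
set_option linter.unusedSectionVars false
set_option linter.unusedVariables false

namespace Pool.Agent.Lib.R97Q2

open Finset Equiv Filter

section simp

variable {T X : Type*} [Fintype T] [DecidableEq T] [Fintype X] [DecidableEq X] {Δ : ℕ}

/-- the other end of the edge -/
def fl (p : T × Bool) : T × Bool := (p.1, !p.2)

@[simp] lemma fl_fl (p : T × Bool) : fl (fl p) = p := by
  obtain ⟨t, b⟩ := p; cases b <;> rfl

lemma fl_ne (p : T × Bool) : fl p ≠ p := by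
  obtain ⟨t, b⟩ := p; cases b <;> simp [fl]

lemma fl_inj {p p' : T × Bool} (h : fl p = fl p') : p = p' := by
  rw [← fl_fl p, h, fl_fl]

/-- the ordered pair of end vertices -/
def ph (vtx : T × Bool → X) (E : Perm (T × Bool)) (p : T × Bool) : X × X :=
  (vtx (E p), vtx (E (fl p)))

lemma ph_fl (vtx : T × Bool → X) (E : Perm (T × Bool)) (p : T × Bool) :
    ph vtx E (fl p) = (ph vtx E p).swap := by
  unfold ph; rw [fl_fl]; rfl

/-- the configuration `E` is a simple presentation of the graph `G` -/
def InF (vtx : T × Bool → X) (G : SimpleGraph X) (E : Perm (T × Bool)) : Prop :=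
  Function.Injective (ph vtx E) ∧ ∀ u v, G.Adj u v ↔ (u, v) ∈ Set.range (ph vtx E)

/-- the graph of a configuration -/
def gr (vtx : T × Bool → X) (E : Perm (T × Bool)) : SimpleGraph X where
  Adj u v := u ≠ v ∧ (u, v) ∈ Set.range (ph vtx E)
  symm := ⟨by
    rintro u v ⟨h1, p, hp⟩
    exact ⟨h1.symm, fl p, by rw [ph_fl, hp]; rfl⟩⟩
  loopless := ⟨fun u h => h.1 rfl⟩

lemma ph_ne {vtx : T × Bool → X} {E : Perm (T × Bool)} (h : Function.Injective (ph vtx E))
    (p : T × Bool) : (ph vtx E p).1 ≠ (ph vtx E p).2 := by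
  intro h2
  have h3 : ph vtx E (fl p) = ph vtx E p := by
    rw [ph_fl]
    exact Prod.ext h2.symm h2
  exact fl_ne p (h h3)

lemma inF_gr {vtx : T × Bool → X} {E : Perm (T × Bool)} (h : Function.Injective (ph vtx E)) :
    InF vtx (gr vtx E) E := by
  refine ⟨h, fun u v => ⟨fun h2 => h2.2, fun h2 => ⟨?_, h2⟩⟩⟩
  obtain ⟨p, hp⟩ := h2
  have := ph_ne h p
  rw [hp] at this
  exact this

lemma inF_iff {vtx : T × Bool → X} {E : Perm (T × Bool)} {G : SimpleGraph X} :
    InF vtx G E ↔ Function.Injective (ph vtx E) ∧ gr vtx E = G := by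
  constructor
  · intro h
    refine ⟨h.1, ?_⟩
    ext u v
    rw [h.2 u v]
    exact ((inF_gr h.1).2 u v)
  · rintro ⟨h1, rfl⟩
    exact inF_gr h1

/-- regularity -/
def Reg (G : SimpleGraph X) (Δ : ℕ) : Prop := ∀ v, (G.neighborSet v).ncard = Δ

lemma fibre_comp (vtx : T × Bool → X) (hv : ∀ x, (univ.filter (fun a => vtx a = x)).card = Δ)
    (E : Perm (T × Bool)) (x : X) : (univ.filter (fun p => vtx (E p) = x)).card = Δ := by
  rw [← hv x]
  refine Finset.card_bij (fun p _ => E p) ?_ ?_ ?_
  · intro p hp; simpa using hp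
  · intro p _ q _ h; exact E.injective h
  · intro q hq
    exact ⟨E.symm q, by simpa using hq, by simp⟩

lemma nbr_card {vtx : T × Bool → X} {G : SimpleGraph X} {E : Perm (T × Bool)}
    (h : InF vtx G E) (u : X) :
    (G.neighborSet u).ncard = (univ.filter (fun p => vtx (E p) = u)).card := by
  have e1 : G.neighborSet u = (fun p => (ph vtx E p).2) '' {p | vtx (E p) = u} := by
    ext v
    simp only [SimpleGraph.mem_neighborSet, Set.mem_image]
    rw [h.2 u v]
    constructor
    · rintro ⟨p, hp⟩
      refine ⟨p, ?_, by rw [hp]⟩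
      have := congrArg Prod.fst hp
      exact this
    · rintro ⟨p, hp, hp2⟩
      exact ⟨p, Prod.ext hp hp2⟩
  rw [e1, Set.ncard_image_of_injOn, Set.ncard_eq_toFinset_card']
  · congr 1
    ext p; simp
  · intro p hp q hq hpq
    refine h.1 (Prod.ext ?_ hpq)
    have h1 : vtx (E p) = u := hp
    have h2 : vtx (E q) = u := hq
    exact h1.trans h2.symm

lemma inF_reg {vtx : T × Bool → X} (hv : ∀ x, (univ.filter (fun a => vtx a = x)).card = Δ)
    {G : SimpleGraph X} {E : Perm (T × Bool)} (h : InF vtx G E) : Reg G Δ := by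
  intro u
  rw [nbr_card h, fibre_comp vtx hv]

/-- every regular graph has a presentation -/
lemma exists_inF (vtx : T × Bool → X) (hv : ∀ x, (univ.filter (fun a => vtx a = x)).card = Δ)
    (G : SimpleGraph X) (hG : Reg G Δ) : ∃ E, InF vtx G E := by
  classical
  have hdeg : ∀ v, G.degree v = Δ := by
    intro v
    rw [← hG v, Set.ncard_eq_toFinset_card']
    unfold SimpleGraph.degree SimpleGraph.neighborFinset
    congr 1
  have hcard : Fintype.card T = Fintype.card G.edgeSet := by
    have h1 := G.sum_degrees_eq_twice_card_edges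
    rw [Finset.sum_congr rfl fun v _ => hdeg v, Finset.sum_const, Finset.card_univ,
      smul_eq_mul] at h1
    have h2 := card_of_fibres vtx hv
    have h3 : G.edgeFinset.card = Fintype.card G.edgeSet := Set.toFinset_card _
    rw [h3] at h1
    have h4 : Δ * Fintype.card X = Fintype.card X * Δ := Nat.mul_comm _ _
    omega
  let eE : T ≃ G.edgeSet := Fintype.equivOfCardEq hcard
  let o : T → X × X := fun t => (eE t).1.out
  have ho : ∀ t, s((o t).1, (o t).2) = (eE t).1 := fun t => Quot.out_eq _
  have hadj : ∀ t, G.Adj (o t).1 (o t).2 := by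
    intro t
    have := (eE t).2
    rw [← ho t] at this
    exact this
  let φ : T × Bool → X × X := fun p => cond p.2 (o p.1).swap (o p.1)
  have hφfl : ∀ p, φ (fl p) = (φ p).swap := by
    rintro ⟨t, b⟩; cases b <;> simp [φ, fl]
  have hφadj : ∀ p, G.Adj (φ p).1 (φ p).2 := by
    rintro ⟨t, b⟩; cases b
    · exact hadj t
    · exact (hadj t).symm
  have hφe : ∀ p, s((φ p).1, (φ p).2) = (eE p.1).1 := by
    rintro ⟨t, b⟩; cases b
    · exact ho t
    · rw [← ho t]; exact Sym2.eq_swap
  have hφinj : Function.Injective φ := by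
    rintro ⟨t, b⟩ ⟨t', b'⟩ h
    have h1 : t = t' := by
      apply eE.injective
      apply Subtype.ext
      rw [← hφe (t, b), ← hφe (t', b'), h]
    subst h1
    have h2 := hadj t
    cases b <;> cases b' <;> simp only [φ, cond_true, cond_false] at h ⊢
    · exfalso
      have h3 := congrArg Prod.fst h
      simp only [Prod.fst_swap] at h3
      rw [h3] at h2
      exact G.irrefl h2
    · exfalso
      have h3 := congrArg Prod.fst h
      simp only [Prod.fst_swap] at h3
      rw [h3] at h2
      exact G.irrefl h2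
  have hφrange : ∀ u v, G.Adj u v ↔ (u, v) ∈ Set.range φ := by
    intro u v
    constructor
    · intro h
      let t := eE.symm ⟨s(u, v), h⟩
      have h1 : s((o t).1, (o t).2) = s(u, v) := by rw [ho t]; simp [t]
      rw [Sym2.eq_iff] at h1
      rcases h1 with h1 | h1
      · exact ⟨(t, false), Prod.ext h1.1 h1.2⟩
      · exact ⟨(t, true), Prod.ext h1.2 h1.1⟩
    · rintro ⟨p, hp⟩
      have := hφadj p
      rw [hp] at this
      exact this
  have hfib : ∀ u, (univ.filter (fun p => (φ p).1 = u)).card =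
      (univ.filter (fun a => vtx a = u)).card := by
    intro u
    rw [hv u, ← hdeg u]
    unfold SimpleGraph.degree
    refine Finset.card_bij (fun p _ => (φ p).2) ?_ ?_ ?_
    · intro p hp
      simp only [Finset.mem_filter, Finset.mem_univ, true_and] at hp
      rw [SimpleGraph.mem_neighborFinset, ← hp]
      exact hφadj p
    · intro p hp q hq hpq
      simp only [Finset.mem_filter, Finset.mem_univ, true_and] at hp hq
      exact hφinj (Prod.ext (by rw [hp, hq]) hpq)
    · intro v hv2
      rw [SimpleGraph.mem_neighborFinset, hφrange] at hv2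
      obtain ⟨p, hp⟩ := hv2
      exact ⟨p, by simp [hp], by rw [hp]⟩
  obtain ⟨E, hE⟩ := exists_perm_of_fibres (fun p => (φ p).1) vtx hfib
  have hph : ph vtx E = φ := by
    funext p
    unfold ph
    rw [hE, hE]
    refine Prod.ext rfl ?_
    simp only [hφfl, Prod.fst_swap]
  exact ⟨E, by rw [hph]; exact hφinj, by rw [hph]; exact hφrange⟩

/-! ### all the fibres have the same size -/

/-- vertex preserving permutations -/
def grpA (vtx : T × Bool → X) : Set (Perm (T × Bool)) := {ρ | ∀ p, vtx (ρ p) = vtx p}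

/-- flip equivariant permutations -/
def grpB (T : Type*) : Set (Perm (T × Bool)) := {κ | ∀ p, κ (fl p) = fl (κ p)}

lemma ph_mul (vtx : T × Bool → X) {ρ κ : Perm (T × Bool)} (hρ : ρ ∈ grpA vtx)
    (hκ : κ ∈ grpB T) (E : Perm (T × Bool)) (p : T × Bool) :
    ph vtx (ρ * E * κ) p = ph vtx E (κ p) := by
  unfold ph
  simp only [Perm.mul_apply]
  rw [hρ, hρ, hκ]

lemma fibre_card (vtx : T × Bool → X) {G : SimpleGraph X} {E0 : Perm (T × Bool)}
    (h0 : InF vtx G E0) :
    {E | InF vtx G E}.ncard = (grpA vtx ×ˢ grpB T).ncard := by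
  symm
  have hfin : {E | InF vtx G E}.Finite := Set.toFinite _
  have himg : (fun q : Perm (T × Bool) × Perm (T × Bool) => q.1 * E0 * q.2) ''
      (grpA vtx ×ˢ grpB T) = {E | InF vtx G E} := by
    ext E
    simp only [Set.mem_image]
    constructor
    · rintro ⟨⟨ρ, κ⟩, ⟨hρ, hκ⟩, rfl⟩
      have hph : ph vtx (ρ * E0 * κ) = fun p => ph vtx E0 (κ p) := by
        funext p; exact ph_mul vtx hρ hκ E0 p
      refine ⟨?_, fun u v => ?_⟩
      · rw [hph]
        exact h0.1.comp κ.injective
      · rw [hph, h0.2 u v]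
        constructor
        · rintro ⟨p, hp⟩; exact ⟨κ⁻¹ p, by simp [hp]⟩
        · rintro ⟨p, hp⟩; exact ⟨κ p, hp⟩
    · intro hE
      have hE' : InF vtx G E := hE
      have hex : ∀ p, ∃ p', ph vtx E0 p' = ph vtx E p := by
        intro p
        have h1 : ((ph vtx E p).1, (ph vtx E p).2) ∈ Set.range (ph vtx E) := ⟨p, rfl⟩
        rw [← hE'.2, h0.2] at h1
        exact h1
      choose κ0 hκ0 using hex
      have hinj : Function.Injective κ0 := by
        intro p q hpq
        apply hE'.1
        rw [← hκ0 p, ← hκ0 q, hpq]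
      let κ : Perm (T × Bool) := Equiv.ofBijective κ0 (Finite.injective_iff_bijective.1 hinj)
      have hκ : ∀ p, ph vtx E0 (κ p) = ph vtx E p := hκ0
      have hκB : κ ∈ grpB T := by
        intro p
        apply h0.1
        rw [hκ, ph_fl, ph_fl, hκ]
      refine ⟨(E * κ⁻¹ * E0⁻¹, κ), ⟨?_, hκB⟩, ?_⟩
      · intro x
        set p := κ⁻¹ (E0⁻¹ x) with hp
        have hx : x = E0 (κ p) := by rw [hp]; simp
        have h2 := hκ p
        have h3 : vtx (E0 (κ p)) = vtx (E p) := congrArg Prod.fst h2
        have h4 : (E * κ⁻¹ * E0⁻¹) x = E p := by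
          simp only [Perm.mul_apply]; rfl
        simp only
        rw [h4, ← h3, ← hx]
      · simp only
        group
  have hinj : Set.InjOn (fun q : Perm (T × Bool) × Perm (T × Bool) => q.1 * E0 * q.2)
      (grpA vtx ×ˢ grpB T) := by
    rintro ⟨ρ, κ⟩ ⟨hρ, hκ⟩ ⟨ρ', κ'⟩ ⟨hρ', hκ'⟩ h
    simp only at h hρ hκ hρ' hκ'
    have h1 : κ = κ' := by
      ext1 p
      apply h0.1
      rw [← ph_mul vtx hρ hκ, ← ph_mul vtx hρ' hκ', h]
    subst h1
    have h2 : ρ = ρ' := by
      have := mul_right_cancel (mul_right_cancel h)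
      exact this
    rw [h2]
  rw [← himg, Set.ncard_image_of_injOn hinj]

end simp

end Pool.Agent.Lib.R97Q2
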