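import Pool.Agent.Lib.R97Q2.Simp

set_option autoImplicit false
set_option linter.unusedSectionVars false
set_option linter.unusedVariables false

namespace Pool.Agent.Lib.R97Q2

open Finset Equiv Filter

section count

variable {T X : Type*} [Fintype T] [DecidableEq T] [Fintype X] [DecidableEq X] {Δ : ℕ}

/-- common size of the fibres -/
noncomputable def NF (vtx : T × Bool → X) : ℕ := (grpA vtx ×ˢ grpB T).ncard

lemma NF_pos (vtx : T × Bool → X) : 0 < NF vtx := by
  unfold NF
  rw [Set.ncard_pos (Set.toFinite _)]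
  exact ⟨(1, 1), fun p => rfl, fun p => rfl⟩

lemma count_S (vtx : T × Bool → X) (hv : ∀ x, (univ.filter (fun a => vtx a = x)).card = Δ)
    (S : Set (SimpleGraph X)) (hS : ∀ G ∈ S, Reg G Δ) :
    {E | Function.Injective (ph vtx E) ∧ gr vtx E ∈ S}.ncard = NF vtx * S.ncard := by
  classical
  have e1 : {E | Function.Injective (ph vtx E) ∧ gr vtx E ∈ S}.ncard =
      (univ.filter (fun E => Function.Injective (ph vtx E) ∧ gr vtx E ∈ S)).card := by
    rw [← Set.ncard_coe_finset]
    congr 1
    ext E; simp
  have e2 : S.ncard = (univ.filter (fun G => G ∈ S)).card := by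
    rw [← Set.ncard_coe_finset]
    congr 1
    ext E; simp
  rw [e1, e2, Finset.card_eq_sum_card_fiberwise (f := gr vtx)
    (t := univ.filter (fun G => G ∈ S)) (fun E hE => by simpa using (Finset.mem_filter.1 hE).2.2)]
  have h1 : ∀ G ∈ univ.filter (fun G => G ∈ S),
      ((univ.filter (fun E => Function.Injective (ph vtx E) ∧ gr vtx E ∈ S)).filter
        (fun E => gr vtx E = G)).card = NF vtx := by
    intro G hG
    have hGS : G ∈ S := (Finset.mem_filter.1 hG).2
    obtain ⟨E0, hE0⟩ := exists_inF vtx hv G (hS G hGS)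
    unfold NF
    rw [← fibre_card vtx hE0, ← Set.ncard_coe_finset]
    congr 1
    ext E
    simp only [Finset.coe_filter, Finset.mem_filter, Finset.mem_univ, true_and]
    constructor
    · rintro ⟨⟨h1, h2⟩, h3⟩
      exact inF_iff.2 ⟨h1, h3⟩
    · intro h
      obtain ⟨h1, h2⟩ := inF_iff.1 h
      exact ⟨⟨h1, by rw [h2]; exact hGS⟩, h2⟩
  rw [Finset.sum_congr rfl h1, Finset.sum_const, smul_eq_mul, mul_comm]

/-- comparison of proportions -/
lemma ratio_le (vtx : T × Bool → X) (hv : ∀ x, (univ.filter (fun a => vtx a = x)).card = Δ)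
    (S : Set (SimpleGraph X)) (hS : ∀ G ∈ S, Reg G Δ) (F : Set (Perm (T × Bool)))
    (hF : ∀ E, Function.Injective (ph vtx E) → gr vtx E ∈ S → E ∈ F) :
    (S.ncard : ℝ) * {E | Function.Injective (ph vtx E)}.ncard ≤
      F.ncard * {G : SimpleGraph X | Reg G Δ}.ncard := by
  have h1 := count_S vtx hv S hS
  have h2 := count_S vtx hv {G : SimpleGraph X | Reg G Δ} (fun G hG => hG)
  have h3 : {E | Function.Injective (ph vtx E) ∧ gr vtx E ∈ {G : SimpleGraph X | Reg G Δ}} =
      {E | Function.Injective (ph vtx E)} := by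
    ext E
    constructor
    · exact fun h => h.1
    · exact fun h => ⟨h, inF_reg hv (inF_gr h)⟩
  rw [h3] at h2
  have h4 : {E | Function.Injective (ph vtx E) ∧ gr vtx E ∈ S}.ncard ≤ F.ncard :=
    Set.ncard_le_ncard (fun E hE => hF E hE.1 hE.2) (Set.toFinite _)
  rw [h1] at h4
  rw [h2]
  have h5 : (NF vtx : ℝ) * S.ncard ≤ F.ncard := by exact_mod_cast h4
  push_cast
  calc (S.ncard : ℝ) * (NF vtx * {G : SimpleGraph X | Reg G Δ}.ncard)
      = (NF vtx * S.ncard) * {G : SimpleGraph X | Reg G Δ}.ncard := by ring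
    _ ≤ F.ncard * {G : SimpleGraph X | Reg G Δ}.ncard :=
        mul_le_mul_of_nonneg_right h5 (Nat.cast_nonneg _)

/-- homomorphism weights of a presented graph -/
lemma inF_prod {k : ℕ} [LinearOrder X] {A : Fin k → Fin k → ℝ} (hs : ∀ i j, A i j = A j i)
    {vtx : T × Bool → X} {G : SimpleGraph X} {E : Perm (T × Bool)} (h : InF vtx G E)
    [DecidablePred (fun p : X × X => p.1 < p.2 ∧ G.Adj p.1 p.2)] (σ : X → Fin k) :
    ∏ p ∈ univ.filter (fun p : X × X => p.1 < p.2 ∧ G.Adj p.1 p.2), A (σ p.1) (σ p.2) =
      ∏ t : T, A (σ (vtx (E (t, false)))) (σ (vtx (E (t, true)))) := by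
  symm
  refine Finset.prod_bij (fun t _ => if (ph vtx E (t, false)).1 < (ph vtx E (t, false)).2
    then ph vtx E (t, false) else ph vtx E (t, true)) ?_ ?_ ?_ ?_
  · intro t _
    simp only [Finset.mem_filter, Finset.mem_univ, true_and]
    have hne := ph_ne h.1 (t, false)
    split_ifs with hlt
    · exact ⟨hlt, (h.2 _ _).2 ⟨(t, false), rfl⟩⟩
    · have h2 : ph vtx E (t, true) = (ph vtx E (t, false)).swap := ph_fl vtx E (t, false)
      refine ⟨?_, (h.2 _ _).2 ⟨(t, true), rfl⟩⟩
      rw [h2]
      simp only [Prod.fst_swap, Prod.snd_swap]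
      exact lt_of_le_of_ne (not_lt.1 hlt) hne.symm
  · intro t _ t' _ htt
    have key : ∀ b b' : Bool, ph vtx E (t, b) = ph vtx E (t', b') → t = t' := fun b b' h2 =>
      congrArg Prod.fst (h.1 h2)
    split_ifs at htt
    · exact key _ _ htt
    · exact key _ _ htt
    · exact key _ _ htt
    · exact key _ _ htt
  · intro p hp
    simp only [Finset.mem_filter, Finset.mem_univ, true_and] at hp
    obtain ⟨⟨t, b⟩, hq⟩ := (h.2 p.1 p.2).1 hp.2
    refine ⟨t, Finset.mem_univ _, ?_⟩
    cases b
    · rw [if_pos (by rw [hq]; exact hp.1), hq]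
    · have h2 : ph vtx E (t, false) = (ph vtx E (t, true)).swap := ph_fl vtx E (t, true)
      rw [if_neg, hq]
      rw [h2, hq]
      simp only [Prod.swap_prod_mk]
      exact not_lt.2 hp.1.le
  · intro t _
    have h3 : ph vtx E (t, true) = (ph vtx E (t, false)).swap := ph_fl vtx E (t, false)
    have h4 : ph vtx E (t, false) = (vtx (E (t, false)), vtx (E (t, true))) := rfl
    split_ifs
    · rw [h4]
    · rw [h3, h4]
      exact hs _ _

end count

section bad

variable {T X : Type*} [Fintype T] [DecidableEq T] [Fintype X] [DecidableEq X] {Δ : ℕ}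

/-- the positions of loops and multiple edges -/
def badp (vtx : T × Bool → X) (E : Perm (T × Bool)) : Finset (T × Bool) :=
  univ.filter (fun p => ∃ p', p' ≠ p ∧ ph vtx E p' = ph vtx E p)

lemma mem_badp {vtx : T × Bool → X} {E : Perm (T × Bool)} {p : T × Bool} :
    p ∈ badp vtx E ↔ ∃ p', p' ≠ p ∧ ph vtx E p' = ph vtx E p := by
  simp [badp]

lemma inj_of_badp {vtx : T × Bool → X} {E : Perm (T × Bool)} (h : (badp vtx E).card = 0) :
    Function.Injective (ph vtx E) := by
  intro p q hpq
  by_contra hne
  have : q ∈ badp vtx E := mem_badp.2 ⟨p, hne, hpq⟩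
  rw [Finset.card_eq_zero] at h
  rw [h] at this
  simp at this

lemma fl_mem_badp {vtx : T × Bool → X} {E : Perm (T × Bool)} {p : T × Bool}
    (h : p ∈ badp vtx E) : fl p ∈ badp vtx E := by
  rw [mem_badp] at h ⊢
  obtain ⟨p', h1, h2⟩ := h
  exact ⟨fl p', fun h3 => h1 (fl_inj h3), by rw [ph_fl, ph_fl, h2]⟩

/-- a switch which removes a bad position -/
lemma switch_bad {vtx : T × Bool → X} {E : Perm (T × Bool)} {p p1 : T × Bool}
    (hp : p ∈ badp vtx E) (hp1 : p1 ∉ badp vtx E)
    (h1 : (vtx (E p), vtx (E p1)) ∉ Set.range (ph vtx E)) (h2 : vtx (E p1) ≠ vtx (E p))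
    (h3 : (vtx (E (fl p1)), vtx (E (fl p))) ∉ Set.range (ph vtx E))
    (h4 : vtx (E (fl p1)) ≠ vtx (E (fl p))) (h5 : vtx (E p1) ≠ vtx (E (fl p))) :
    (badp vtx (E * swap (fl p) p1)).card < (badp vtx E).card := by
  have n1 : p1 ≠ p := fun h => hp1 (h ▸ hp)
  have n2 : p1 ≠ fl p := fun h => hp1 (h ▸ fl_mem_badp hp)
  have n3 : fl p1 ≠ fl p := fun h => n1 (fl_inj h)
  have n4 : fl p1 ≠ p := fun h => n2 (by rw [← h, fl_fl])
  have n5 : fl p1 ≠ p1 := fl_ne p1
  have n6 : fl p ≠ p := fl_ne p
  have h6 : vtx (E p1) ≠ vtx (E (fl p1)) := by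
    intro h
    apply hp1
    rw [mem_badp]
    refine ⟨fl p1, n5, ?_⟩
    rw [ph_fl]
    exact Prod.ext h.symm h
  set E' := E * swap (fl p) p1 with hE'
  set u := vtx (E p) with hu
  set v := vtx (E (fl p)) with hv
  set x := vtx (E p1) with hx
  set w := vtx (E (fl p1)) with hw
  have a1 : E' p = E p := by
    rw [hE', Perm.mul_apply, swap_apply_of_ne_of_ne n6.symm n1.symm]
  have a2 : E' (fl p) = E p1 := by rw [hE', Perm.mul_apply, swap_apply_left]
  have a3 : E' p1 = E (fl p) := by rw [hE', Perm.mul_apply, swap_apply_right]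
  have a4 : E' (fl p1) = E (fl p1) := by
    rw [hE', Perm.mul_apply, swap_apply_of_ne_of_ne n3 n5]
  have b1 : ph vtx E' p = (u, x) := by unfold ph; rw [a1, a2]
  have b2 : ph vtx E' (fl p) = (x, u) := by unfold ph; rw [fl_fl, a1, a2]
  have b3 : ph vtx E' p1 = (v, w) := by unfold ph; rw [a3, a4]
  have b4 : ph vtx E' (fl p1) = (w, v) := by unfold ph; rw [fl_fl, a3, a4]
  have b5 : ∀ q, q ≠ p → q ≠ fl p → q ≠ p1 → q ≠ fl p1 → ph vtx E' q = ph vtx E q := by
    intro q q1 q2 q3 q4
    have q5 : fl q ≠ fl p := fun h => q1 (fl_inj h)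
    have q6 : fl q ≠ p1 := fun h => q4 (by rw [← h, fl_fl])
    unfold ph
    rw [hE', Perm.mul_apply, Perm.mul_apply, swap_apply_of_ne_of_ne q2 q3,
      swap_apply_of_ne_of_ne q5 q6]
  have hrs : ∀ y z : X, (y, z) ∉ Set.range (ph vtx E) → (z, y) ∉ Set.range (ph vtx E) := by
    rintro y z h ⟨q, hq⟩
    exact h ⟨fl q, by rw [ph_fl, hq]; rfl⟩
  have r1 := hrs _ _ h1
  have r3 := hrs _ _ h3
  have hsub : badp vtx E' ⊆ (badp vtx E).erase p := by
    intro q hq
    rw [mem_badp] at hq
    obtain ⟨q', hne, heq⟩ := hq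
    by_cases c1 : q = p
    · exfalso
      subst c1
      rw [b1] at heq
      by_cases d2 : q' = fl q
      · rw [d2, b2] at heq; exact h2 (congrArg Prod.fst heq)
      · by_cases d3 : q' = p1
        · rw [d3, b3] at heq
          have e1 : v = u := congrArg Prod.fst heq
          have e2 : w = x := congrArg Prod.snd heq
          exact h6 e2.symm
        · by_cases d4 : q' = fl p1
          · rw [d4, b4] at heq
            exact h5 (congrArg Prod.snd heq).symm
          · rw [b5 q' hne d2 d3 d4] at heq
            exact h1 ⟨q', heq⟩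
    · by_cases c2 : q = fl p
      · exfalso
        subst c2
        rw [b2] at heq
        by_cases d2 : q' = p
        · rw [d2, b1] at heq; exact h2 (congrArg Prod.snd heq)
        · by_cases d3 : q' = p1
          · rw [d3, b3] at heq
            exact h5 (congrArg Prod.fst heq).symm
          · by_cases d4 : q' = fl p1
            · rw [d4, b4] at heq
              have e2 : w = x := congrArg Prod.fst heq
              exact h6 e2.symm
            · rw [b5 q' d2 hne d3 d4] at heq
              exact r1 ⟨q', heq⟩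
      · by_cases c3 : q = p1
        · exfalso
          subst c3
          rw [b3] at heq
          by_cases d2 : q' = p
          · rw [d2, b1] at heq
            have e2 : x = w := congrArg Prod.snd heq
            exact h6 e2
          · by_cases d3 : q' = fl p
            · rw [d3, b2] at heq
              exact h5 (congrArg Prod.fst heq)
            · by_cases d4 : q' = fl q
              · rw [d4, b4] at heq
                exact h4 (congrArg Prod.fst heq)
              · rw [b5 q' d2 d3 hne d4] at heq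
                exact r3 ⟨q', heq⟩
        · by_cases c4 : q = fl p1
          · exfalso
            subst c4
            rw [b4] at heq
            by_cases d2 : q' = p
            · rw [d2, b1] at heq
              exact h5 (congrArg Prod.snd heq)
            · by_cases d3 : q' = fl p
              · rw [d3, b2] at heq
                have e2 : x = w := congrArg Prod.fst heq
                exact h6 e2
              · by_cases d4 : q' = p1
                · rw [d4, b3] at heq
                  exact h4 (congrArg Prod.snd heq)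
                · rw [b5 q' d2 d3 d4 hne] at heq
                  exact h3 ⟨q', heq⟩
          · rw [b5 q c1 c2 c3 c4] at heq
            rw [Finset.mem_erase]
            refine ⟨c1, ?_⟩
            rw [mem_badp]
            by_cases d1 : q' = p
            · rw [d1, b1] at heq; exact absurd ⟨q, heq.symm⟩ h1
            · by_cases d2 : q' = fl p
              · rw [d2, b2] at heq; exact absurd ⟨q, heq.symm⟩ r1
              · by_cases d3 : q' = p1
                · rw [d3, b3] at heq; exact absurd ⟨q, heq.symm⟩ r3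
                · by_cases d4 : q' = fl p1
                  · rw [d4, b4] at heq; exact absurd ⟨q, heq.symm⟩ h3
                  · rw [b5 q' d1 d2 d3 d4] at heq
                    exact ⟨q', hne, heq⟩
  refine lt_of_le_of_lt (Finset.card_le_card hsub) ?_
  exact Finset.card_erase_lt_of_mem hp

end bad

end Pool.Agent.Lib.R97Q2
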