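import Pool.Agent.Lib.R97Q2.Simp2

set_option autoImplicit false
set_option linter.unusedSectionVars false
set_option linter.unusedVariables false

namespace Pool.Agent.Lib.R97Q2

open Finset Equiv Filter

section bad

variable {T X : Type*} [Fintype T] [DecidableEq T] [Fintype X] [DecidableEq X] {Δ : ℕ}

lemma fibre_fl (vtx : T × Bool → X) (hv : ∀ x, (univ.filter (fun a => vtx a = x)).card = Δ)
    (E : Perm (T × Bool)) (x : X) : (univ.filter (fun p => vtx (E (fl p)) = x)).card = Δ := by
  rw [← fibre_comp vtx hv E x]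
  refine Finset.card_bij (fun p _ => fl p) ?_ ?_ ?_
  · intro p hp; simpa using hp
  · intro p _ q _ h; exact fl_inj h
  · intro q hq
    exact ⟨fl q, by simpa using hq, by simp⟩

lemma nbr_set_card (vtx : T × Bool → X) (hv : ∀ x, (univ.filter (fun a => vtx a = x)).card = Δ)
    (E : Perm (T × Bool)) (u : X) [DecidablePred (fun x => (u, x) ∈ Set.range (ph vtx E))] :
    (univ.filter (fun x => (u, x) ∈ Set.range (ph vtx E))).card ≤ Δ := by
  rw [← fibre_comp vtx hv E u]
  have : (univ.filter (fun x => (u, x) ∈ Set.range (ph vtx E))) ⊆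
      (univ.filter (fun p => vtx (E p) = u)).image (fun p => (ph vtx E p).2) := by
    intro x hx
    simp only [Finset.mem_filter, Finset.mem_univ, true_and] at hx
    obtain ⟨p, hp⟩ := hx
    simp only [Finset.mem_image, Finset.mem_filter, Finset.mem_univ, true_and]
    exact ⟨p, congrArg Prod.fst hp, by rw [hp]⟩
  exact (Finset.card_le_card this).trans Finset.card_image_le

/-- existence of a good switch -/
lemma exists_switch (vtx : T × Bool → X)
    (hv : ∀ x, (univ.filter (fun a => vtx a = x)).card = Δ) (E : Perm (T × Bool)) {b : ℕ}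
    (hb : (badp vtx E).card ≤ b) (hb0 : 0 < (badp vtx E).card)
    (hM : b + (2 * Δ ^ 2 + 3 * Δ) < Fintype.card (T × Bool)) :
    ∃ a c, (badp vtx (E * swap a c)).card < (badp vtx E).card := by
  classical
  obtain ⟨p, hp⟩ := Finset.card_pos.1 hb0
  set u := vtx (E p) with hu
  set v := vtx (E (fl p)) with hv'
  set S1 := univ.filter (fun q => (u, vtx (E q)) ∈ Set.range (ph vtx E)) with hS1
  set S2 := univ.filter (fun q => vtx (E q) = u) with hS2
  set S3 := univ.filter (fun q => (vtx (E (fl q)), v) ∈ Set.range (ph vtx E)) with hS3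
  set S4 := univ.filter (fun q => vtx (E (fl q)) = v) with hS4
  set S5 := univ.filter (fun q => vtx (E q) = v) with hS5
  have hrs : ∀ y z : X, (y, z) ∈ Set.range (ph vtx E) → (z, y) ∈ Set.range (ph vtx E) := by
    rintro y z ⟨q, hq⟩
    exact ⟨fl q, by rw [ph_fl, hq]; rfl⟩
  have c1 : S1.card ≤ Δ ^ 2 := by
    have h1 := Finset.card_eq_sum_card_fiberwise (f := fun q => vtx (E q)) (s := S1)
      (t := univ.filter (fun x => (u, x) ∈ Set.range (ph vtx E))) (fun q hq => by
        simpa [hS1] using hq)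
    rw [h1]
    have h2 : ∀ x ∈ univ.filter (fun x => (u, x) ∈ Set.range (ph vtx E)),
        (S1.filter (fun q => vtx (E q) = x)).card ≤ Δ := by
      intro x _
      rw [← fibre_comp vtx hv E x]
      exact Finset.card_le_card (Finset.filter_subset_filter _ (Finset.subset_univ _))
    refine (Finset.sum_le_sum h2).trans ?_
    rw [Finset.sum_const, smul_eq_mul, sq]
    exact Nat.mul_le_mul_right _ (nbr_set_card vtx hv E u)
  have c3 : S3.card ≤ Δ ^ 2 := by
    have h1 := Finset.card_eq_sum_card_fiberwise (f := fun q => vtx (E (fl q))) (s := S3)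
      (t := univ.filter (fun x => (v, x) ∈ Set.range (ph vtx E))) (fun q hq => by
        have hq' : q ∈ S3 := hq
        rw [hS3, Finset.mem_filter] at hq'
        simp only [Finset.coe_filter, Finset.mem_univ, true_and, Set.mem_ofPred_eq]
        exact hrs _ _ hq'.2)
    rw [h1]
    have h2 : ∀ x ∈ univ.filter (fun x => (v, x) ∈ Set.range (ph vtx E)),
        (S3.filter (fun q => vtx (E (fl q)) = x)).card ≤ Δ := by
      intro x _
      rw [← fibre_fl vtx hv E x]
      exact Finset.card_le_card (Finset.filter_subset_filter _ (Finset.subset_univ _))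
    refine (Finset.sum_le_sum h2).trans ?_
    rw [Finset.sum_const, smul_eq_mul, sq]
    exact Nat.mul_le_mul_right _ (nbr_set_card vtx hv E v)
  have c2 : S2.card = Δ := fibre_comp vtx hv E u
  have c4 : S4.card = Δ := fibre_fl vtx hv E v
  have c5 : S5.card = Δ := fibre_comp vtx hv E v
  set U := badp vtx E ∪ (S1 ∪ (S2 ∪ (S3 ∪ (S4 ∪ S5)))) with hU
  have hUc : U.card < Fintype.card (T × Bool) := by
    have h1 := Finset.card_union_le (badp vtx E) (S1 ∪ (S2 ∪ (S3 ∪ (S4 ∪ S5))))
    have h2 := Finset.card_union_le S1 (S2 ∪ (S3 ∪ (S4 ∪ S5)))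
    have h3 := Finset.card_union_le S2 (S3 ∪ (S4 ∪ S5))
    have h4 := Finset.card_union_le S3 (S4 ∪ S5)
    have h5 := Finset.card_union_le S4 S5
    rw [← hU] at h1
    omega
  obtain ⟨p1, hp1⟩ : ∃ p1, p1 ∉ U := by
    by_contra hcon
    push Not at hcon
    have : U = univ := Finset.eq_univ_iff_forall.2 hcon
    rw [this, Finset.card_univ] at hUc
    exact lt_irrefl _ hUc
  simp only [hU, hS1, hS2, hS3, hS4, hS5, Finset.mem_union, Finset.mem_filter, Finset.mem_univ,
    true_and, not_or] at hp1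
  exact ⟨fl p, p1, switch_bad hp hp1.1 hp1.2.1 hp1.2.2.1 hp1.2.2.2.1 hp1.2.2.2.2.1
    hp1.2.2.2.2.2⟩

/-- removing the bad positions one by one -/
lemma count_bad_step (vtx : T × Bool → X)
    (hv : ∀ x, (univ.filter (fun a => vtx a = x)).card = Δ) {b j : ℕ} (hj : j + 1 ≤ b)
    (hM : b + (2 * Δ ^ 2 + 3 * Δ) < Fintype.card (T × Bool)) :
    (univ.filter (fun E => (badp vtx E).card ≤ j + 1)).card ≤
      Fintype.card (T × Bool) ^ 2 * (univ.filter (fun E => (badp vtx E).card ≤ j)).card := by
  have hne : Nonempty (T × Bool) := Fintype.card_pos_iff.1 (by omega)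
  have hsub : (univ.filter (fun E => (badp vtx E).card ≤ j + 1)) ⊆
      (univ : Finset ((T × Bool) × (T × Bool))).biUnion (fun ac =>
        (univ.filter (fun E => (badp vtx E).card ≤ j)).image (fun E => E * swap ac.1 ac.2)) := by
    intro E hE
    simp only [Finset.mem_filter, Finset.mem_univ, true_and] at hE
    simp only [Finset.mem_biUnion, Finset.mem_univ, true_and, Finset.mem_image,
      Finset.mem_filter]
    by_cases h : (badp vtx E).card ≤ j
    · obtain ⟨a⟩ := hne
      exact ⟨(a, a), E, h, by rw [swap_self]; rfl⟩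
    · obtain ⟨a, c, hac⟩ := exists_switch vtx hv E (b := b) (by omega) (by omega) hM
      refine ⟨(a, c), E * swap a c, by omega, ?_⟩
      rw [mul_assoc, swap_mul_self, mul_one]
  refine (Finset.card_le_card hsub).trans (Finset.card_biUnion_le.trans ?_)
  have h1 : ∀ ac ∈ (univ : Finset ((T × Bool) × (T × Bool))),
      ((univ.filter (fun E => (badp vtx E).card ≤ j)).image (fun E => E * swap ac.1 ac.2)).card ≤
      (univ.filter (fun E => (badp vtx E).card ≤ j)).card := fun ac _ => Finset.card_image_le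
  refine (Finset.sum_le_sum h1).trans (le_of_eq ?_)
  rw [Finset.sum_const, Finset.card_univ, Fintype.card_prod, smul_eq_mul, sq]

lemma count_bad (vtx : T × Bool → X)
    (hv : ∀ x, (univ.filter (fun a => vtx a = x)).card = Δ) {b : ℕ}
    (hM : b + (2 * Δ ^ 2 + 3 * Δ) < Fintype.card (T × Bool)) (j : ℕ) (hj : j ≤ b) :
    (univ.filter (fun E => (badp vtx E).card ≤ j)).card ≤
      Fintype.card (T × Bool) ^ (2 * j) *
        (univ.filter (fun E => (badp vtx E).card = 0)).card := by
  induction j with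
  | zero => simp
  | succ j ih =>
    refine (count_bad_step vtx hv hj hM).trans ?_
    have h1 := Nat.mul_le_mul_left (Fintype.card (T × Bool) ^ 2) (ih (by omega))
    refine h1.trans (le_of_eq ?_)
    rw [← mul_assoc, ← pow_add]
    congr 2
    ring

/-! ### the mean number of bad positions -/

lemma av_meet (vtx : T × Bool → X) (hv : ∀ x, (univ.filter (fun a => vtx a = x)).card = Δ)
    {x x' : T × Bool} (hx : x ≠ x') :
    ((Fintype.card (T × Bool) : ℝ) - 1) *
      av (fun E : Perm (T × Bool) => if vtx (E x) = vtx (E x') then (1 : ℝ) else 0) ≤ Δ := by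
  have h1 : ∀ y ∈ univ.erase x',
      av (fun E : Perm (T × Bool) => if vtx (E y) = vtx (E x') then (1 : ℝ) else 0) =
      av (fun E : Perm (T × Bool) => if vtx (E x) = vtx (E x') then (1 : ℝ) else 0) := by
    intro y hy
    have hyx : y ≠ x' := Finset.ne_of_mem_erase hy
    rw [← av_mulRight (swap x y)
      (fun E : Perm (T × Bool) => if vtx (E y) = vtx (E x') then (1 : ℝ) else 0)]
    refine av_congr fun E => ?_
    rw [Perm.mul_apply, Perm.mul_apply, swap_apply_right, swap_apply_of_ne_of_ne hx.symm hyx.symm]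
  have h2 : ((Fintype.card (T × Bool) : ℝ) - 1) *
      av (fun E : Perm (T × Bool) => if vtx (E x) = vtx (E x') then (1 : ℝ) else 0) =
      ∑ y ∈ univ.erase x',
      av (fun E : Perm (T × Bool) => if vtx (E y) = vtx (E x') then (1 : ℝ) else 0) := by
    rw [Finset.sum_congr rfl h1, Finset.sum_const, Finset.card_erase_of_mem (Finset.mem_univ x'),
      Finset.card_univ, nsmul_eq_mul, Nat.cast_sub (Fintype.card_pos_iff.2 ⟨x⟩)]
    simp
  rw [h2, ← av_sum]
  refine av_le fun E => ?_
  have h3 : ∑ y ∈ univ.erase x', (if vtx (E y) = vtx (E x') then (1 : ℝ) else 0) ≤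
      ∑ y, (if vtx (E y) = vtx (E x') then (1 : ℝ) else 0) :=
    Finset.sum_le_sum_of_subset_of_nonneg (Finset.subset_univ _) fun y _ _ => by
      split_ifs <;> norm_num
  refine h3.trans (le_of_eq ?_)
  rw [← fibre_comp vtx hv E (vtx (E x')), Finset.card_filter]
  push_cast
  rfl

lemma av_meet_two (vtx : T × Bool → X) (hv : ∀ x, (univ.filter (fun a => vtx a = x)).card = Δ)
    {p q p' s : T × Bool} (h1 : p' ≠ p) (h2 : p' ≠ q) (h3 : p' ≠ s) (h4 : p ≠ q) (h5 : p ≠ s)
    (h6 : q ≠ s) :
    ((Fintype.card (T × Bool) : ℝ) - 3) *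
      av (fun E : Perm (T × Bool) => (if vtx (E p') = vtx (E p) then (1 : ℝ) else 0) *
        (if vtx (E s) = vtx (E q) then (1 : ℝ) else 0)) ≤
      Δ * av (fun E : Perm (T × Bool) => if vtx (E s) = vtx (E q) then (1 : ℝ) else 0) := by
  set R : Finset (T × Bool) := {p, q, s} with hR
  have hRc : R.card = 3 := Finset.card_eq_three.2 ⟨p, q, s, h4, h5, h6, rfl⟩
  have e1 : ∀ y ∈ Rᶜ,
      av (fun E : Perm (T × Bool) => (if vtx (E y) = vtx (E p) then (1 : ℝ) else 0) *
        (if vtx (E s) = vtx (E q) then (1 : ℝ) else 0)) =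
      av (fun E : Perm (T × Bool) => (if vtx (E p') = vtx (E p) then (1 : ℝ) else 0) *
        (if vtx (E s) = vtx (E q) then (1 : ℝ) else 0)) := by
    intro y hy
    simp only [hR, Finset.mem_compl, Finset.mem_insert, Finset.mem_singleton, not_or] at hy
    rw [← av_mulRight (swap p' y)
      (fun E : Perm (T × Bool) => (if vtx (E y) = vtx (E p) then (1 : ℝ) else 0) *
        (if vtx (E s) = vtx (E q) then (1 : ℝ) else 0))]
    refine av_congr fun E => ?_
    rw [Perm.mul_apply, Perm.mul_apply, Perm.mul_apply, Perm.mul_apply, swap_apply_right,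
      swap_apply_of_ne_of_ne h1.symm (Ne.symm hy.1), swap_apply_of_ne_of_ne h3.symm
      (Ne.symm hy.2.2), swap_apply_of_ne_of_ne h2.symm (Ne.symm hy.2.1)]
  have hM3 : 3 ≤ Fintype.card (T × Bool) := by
    rw [← hRc]; exact Finset.card_le_univ R
  have e2 : ((Fintype.card (T × Bool) : ℝ) - 3) *
      av (fun E : Perm (T × Bool) => (if vtx (E p') = vtx (E p) then (1 : ℝ) else 0) *
        (if vtx (E s) = vtx (E q) then (1 : ℝ) else 0)) =
      ∑ y ∈ Rᶜ,
      av (fun E : Perm (T × Bool) => (if vtx (E y) = vtx (E p) then (1 : ℝ) else 0) *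
        (if vtx (E s) = vtx (E q) then (1 : ℝ) else 0)) := by
    rw [Finset.sum_congr rfl e1, Finset.sum_const, Finset.card_compl, hRc, nsmul_eq_mul,
      Nat.cast_sub hM3]
    norm_num
  rw [e2, ← av_sum, ← av_mul_left]
  refine av_mono fun E => ?_
  rw [← Finset.sum_mul]
  refine mul_le_mul_of_nonneg_right ?_ (by split_ifs <;> norm_num)
  have e3 : ∑ y ∈ Rᶜ, (if vtx (E y) = vtx (E p) then (1 : ℝ) else 0) ≤
      ∑ y, (if vtx (E y) = vtx (E p) then (1 : ℝ) else 0) :=
    Finset.sum_le_sum_of_subset_of_nonneg (Finset.subset_univ _) fun y _ _ => by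
      split_ifs <;> norm_num
  refine e3.trans (le_of_eq ?_)
  rw [← fibre_comp vtx hv E (vtx (E p)), Finset.card_filter]
  push_cast
  rfl

lemma av_badp (vtx : T × Bool → X) (hv : ∀ x, (univ.filter (fun a => vtx a = x)).card = Δ)
    (hM : 4 ≤ Fintype.card (T × Bool)) :
    av (fun E : Perm (T × Bool) => ((badp vtx E).card : ℝ)) ≤ 2 * Δ + 6 * Δ ^ 2 := by
  set M : ℝ := (Fintype.card (T × Bool) : ℝ) with hMdef
  have hM4 : (4 : ℝ) ≤ M := by rw [hMdef]; exact_mod_cast hM
  have hpt : ∀ E : Perm (T × Bool), ((badp vtx E).card : ℝ) ≤ ∑ p : T × Bool,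
      ((if vtx (E p) = vtx (E (fl p)) then (1 : ℝ) else 0) +
      ∑ p' ∈ univ.filter (fun p' => p' ≠ p ∧ p' ≠ fl p),
        (if vtx (E p') = vtx (E p) then (1 : ℝ) else 0) *
        (if vtx (E (fl p')) = vtx (E (fl p)) then (1 : ℝ) else 0)) := by
    intro E
    unfold badp
    rw [Finset.card_filter]
    push_cast
    refine Finset.sum_le_sum fun p _ => ?_
    have hnn : ∀ p', 0 ≤ (if vtx (E p') = vtx (E p) then (1 : ℝ) else 0) *
        (if vtx (E (fl p')) = vtx (E (fl p)) then (1 : ℝ) else 0) := fun p' => by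
      split_ifs <;> norm_num
    have h0 : 0 ≤ ∑ p' ∈ univ.filter (fun p' => p' ≠ p ∧ p' ≠ fl p),
        (if vtx (E p') = vtx (E p) then (1 : ℝ) else 0) *
        (if vtx (E (fl p')) = vtx (E (fl p)) then (1 : ℝ) else 0) :=
      Finset.sum_nonneg fun p' _ => hnn p'
    have h0' : (0 : ℝ) ≤ if vtx (E p) = vtx (E (fl p)) then (1 : ℝ) else 0 := by
      split_ifs <;> norm_num
    split_ifs with hex hloop
    · linarith
    · obtain ⟨p', hne, heq⟩ := hex
      have e1 : vtx (E p') = vtx (E p) := congrArg Prod.fst heq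
      have e2 : vtx (E (fl p')) = vtx (E (fl p)) := congrArg Prod.snd heq
      have hfl : p' ≠ fl p := by
        intro h
        rw [h] at e1
        exact hloop e1.symm
      have h1 := Finset.single_le_sum (s := univ.filter (fun p' => p' ≠ p ∧ p' ≠ fl p))
        (f := fun p' => (if vtx (E p') = vtx (E p) then (1 : ℝ) else 0) *
        (if vtx (E (fl p')) = vtx (E (fl p)) then (1 : ℝ) else 0)) (fun p' _ => hnn p')
        (a := p') (by simp [hne, hfl])
      simp only [e1, e2, if_true, mul_one] at h1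
      linarith
    · linarith
    · linarith
  refine (av_mono hpt).trans ?_
  rw [av_sum]
  have hterm : ∀ p ∈ (univ : Finset (T × Bool)), av (fun E : Perm (T × Bool) =>
      ((if vtx (E p) = vtx (E (fl p)) then (1 : ℝ) else 0) +
      ∑ p' ∈ univ.filter (fun p' => p' ≠ p ∧ p' ≠ fl p),
        (if vtx (E p') = vtx (E p) then (1 : ℝ) else 0) *
        (if vtx (E (fl p')) = vtx (E (fl p)) then (1 : ℝ) else 0))) ≤
      Δ / (M - 1) + M * (Δ * (Δ / (M - 1)) / (M - 3)) := by
    intro p _
    rw [av_add, av_sum]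
    have hm : ∀ x x' : T × Bool, x ≠ x' →
        av (fun E : Perm (T × Bool) => if vtx (E x) = vtx (E x') then (1 : ℝ) else 0) ≤
        Δ / (M - 1) := by
      intro x x' hx
      rw [le_div_iff₀ (by linarith), mul_comm]
      exact av_meet vtx hv hx
    refine add_le_add (hm p (fl p) (fl_ne p).symm) ?_
    have h2 : ∀ p' ∈ univ.filter (fun p' => p' ≠ p ∧ p' ≠ fl p),
        av (fun E : Perm (T × Bool) => (if vtx (E p') = vtx (E p) then (1 : ℝ) else 0) *
        (if vtx (E (fl p')) = vtx (E (fl p)) then (1 : ℝ) else 0)) ≤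
        Δ * (Δ / (M - 1)) / (M - 3) := by
      intro p' hp'
      simp only [Finset.mem_filter, Finset.mem_univ, true_and] at hp'
      rw [le_div_iff₀ (by linarith), mul_comm]
      refine (av_meet_two vtx hv hp'.1 hp'.2 (fl_ne p').symm (fl_ne p).symm
        (fun h => hp'.2 (by rw [h, fl_fl])) (fun h => hp'.1 (fl_inj h).symm)).trans ?_
      refine mul_le_mul_of_nonneg_left ?_ (Nat.cast_nonneg _)
      exact hm (fl p') (fl p) (fun h => hp'.1 (fl_inj h))
    refine (Finset.sum_le_sum h2).trans ?_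
    rw [Finset.sum_const, nsmul_eq_mul]
    refine mul_le_mul_of_nonneg_right ?_ ?_
    · rw [hMdef]; exact_mod_cast Finset.card_le_univ _
    · have : 0 < M - 1 := by linarith
      have : 0 < M - 3 := by linarith
      positivity
  refine (Finset.sum_le_sum hterm).trans ?_
  rw [Finset.sum_const, Finset.card_univ, nsmul_eq_mul, ← hMdef]
  have hM1 : 0 < M - 1 := by linarith
  have hM3 : 0 < M - 3 := by linarith
  have e1 : M * (Δ / (M - 1) + M * (Δ * (Δ / (M - 1)) / (M - 3))) =
      (M / (M - 1)) * Δ + ((M / (M - 1)) * (M / (M - 3))) * Δ ^ 2 := by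
    field_simp
  rw [e1]
  have h1 : M / (M - 1) ≤ 4 / 3 := by
    rw [div_le_div_iff₀ hM1 (by norm_num)]; linarith
  have h2 : (M / (M - 1)) * (M / (M - 3)) ≤ 16 / 3 := by
    rw [div_mul_div_comm, div_le_div_iff₀ (by positivity) (by norm_num)]
    nlinarith
  have h3 : (M / (M - 1)) * Δ ≤ 4 / 3 * Δ := mul_le_mul_of_nonneg_right h1 (Nat.cast_nonneg _)
  have h4 : ((M / (M - 1)) * (M / (M - 3))) * (Δ : ℝ) ^ 2 ≤ 16 / 3 * (Δ : ℝ) ^ 2 :=
    mul_le_mul_of_nonneg_right h2 (by positivity)
  have h5 : (0 : ℝ) ≤ Δ := Nat.cast_nonneg _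
  have h6 : (0 : ℝ) ≤ (Δ : ℝ) ^ 2 := by positivity
  linarith

/-- a positive (polynomially small) proportion of the configurations is simple -/
theorem simple_many (vtx : T × Bool → X)
    (hv : ∀ x, (univ.filter (fun a => vtx a = x)).card = Δ)
    (hM4 : 4 ≤ Fintype.card (T × Bool))
    (hM : (4 * Δ + 12 * Δ ^ 2) + (2 * Δ ^ 2 + 3 * Δ) < Fintype.card (T × Bool)) :
    (Fintype.card (Perm (T × Bool)) : ℝ) ≤
      2 * (Fintype.card (T × Bool) : ℝ) ^ (2 * (4 * Δ + 12 * Δ ^ 2)) *
        {E | Function.Injective (ph vtx E)}.ncard := by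
  set b : ℕ := 4 * Δ + 12 * Δ ^ 2 with hb
  have h1 := av_badp vtx hv hM4
  have h2 := count_bad vtx hv hM b le_rfl
  set P : ℝ := (Fintype.card (Perm (T × Bool)) : ℝ) with hP
  have hP0 : 0 < P := by rw [hP]; exact_mod_cast Fintype.card_pos
  -- Markov
  have h3 : P / 2 ≤ ((univ.filter (fun E => (badp vtx E).card ≤ b)).card : ℝ) := by
    have e1 : ((univ.filter (fun E => (badp vtx E).card ≤ b)).card : ℝ) +
        ((univ.filter (fun E => ¬ (badp vtx E).card ≤ b)).card : ℝ) = P := by
      have := Finset.card_filter_add_card_filter_not (s := (univ : Finset (Perm (T × Bool))))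
        (fun E => (badp vtx E).card ≤ b)
      rw [Finset.card_univ] at this
      rw [hP]
      exact_mod_cast this
    have e2 : ((b : ℝ) + 1) * ((univ.filter (fun E => ¬ (badp vtx E).card ≤ b)).card : ℝ) ≤
        P * (2 * Δ + 6 * Δ ^ 2) := by
      have e3 : ∑ E : Perm (T × Bool), ((badp vtx E).card : ℝ) ≤ P * (2 * Δ + 6 * Δ ^ 2) := by
        unfold av at h1
        rw [div_le_iff₀ hP0] at h1
        linarith
      refine le_trans ?_ e3
      have e4 : ∑ E ∈ univ.filter (fun E => ¬ (badp vtx E).card ≤ b), ((badp vtx E).card : ℝ) ≤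
          ∑ E : Perm (T × Bool), ((badp vtx E).card : ℝ) :=
        Finset.sum_le_sum_of_subset_of_nonneg (Finset.subset_univ _) fun E _ _ =>
          Nat.cast_nonneg _
      refine le_trans ?_ e4
      rw [mul_comm, ← nsmul_eq_mul, ← Finset.sum_const]
      refine Finset.sum_le_sum fun E hE => ?_
      have : b + 1 ≤ (badp vtx E).card := by
        have := (Finset.mem_filter.1 hE).2
        omega
      exact_mod_cast this
    have hbR : (b : ℝ) = 4 * Δ + 12 * Δ ^ 2 := by rw [hb]; push_cast; ring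
    have e5 : P * (2 * Δ + 6 * Δ ^ 2) = P / 2 * b := by rw [hbR]; ring
    rw [e5] at e2
    have hb0 : (0 : ℝ) ≤ b := Nat.cast_nonneg _
    have e6 : ((univ.filter (fun E => ¬ (badp vtx E).card ≤ b)).card : ℝ) ≤ P / 2 := by
      refine le_of_mul_le_mul_left (a := (b : ℝ) + 1) (e2.trans ?_) (by linarith)
      nlinarith
    linarith
  have h4 : ((univ.filter (fun E => (badp vtx E).card = 0)).card : ℝ) ≤
      {E | Function.Injective (ph vtx E)}.ncard := by
    have : (univ.filter (fun E => (badp vtx E).card = 0)).card ≤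
        {E | Function.Injective (ph vtx E)}.ncard := by
      rw [← Set.ncard_coe_finset]
      refine Set.ncard_le_ncard ?_ (Set.toFinite _)
      intro E hE
      simp only [Finset.coe_filter, Finset.mem_univ, true_and] at hE
      exact inj_of_badp hE
    exact_mod_cast this
  have h5 : ((univ.filter (fun E => (badp vtx E).card ≤ b)).card : ℝ) ≤
      (Fintype.card (T × Bool) : ℝ) ^ (2 * b) *
        (univ.filter (fun E => (badp vtx E).card = 0)).card := by exact_mod_cast h2
  have h6 : (Fintype.card (T × Bool) : ℝ) ^ (2 * b) *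
        ((univ.filter (fun E => (badp vtx E).card = 0)).card : ℝ) ≤
      (Fintype.card (T × Bool) : ℝ) ^ (2 * b) * {E | Function.Injective (ph vtx E)}.ncard :=
    mul_le_mul_of_nonneg_left h4 (by positivity)
  linarith

end bad

end Pool.Agent.Lib.R97Q2
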