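import Pool.Agent.Lib.R97Q2.Cyc

set_option autoImplicit false
set_option linter.unusedSectionVars false
set_option linter.unusedVariables false

namespace Pool.Agent.Lib.R97Q2

open Finset Equiv
open Function (update update_self update_of_ne update_eq_self update_comm)
open Pool.Agent.Lib.MP_7587db

section ai

variable {G : Type*} [Fintype G] {s : ℝ}

/-- average over `G` and integral over the field -/
noncomputable def AI (s : ℝ) (f : G → ℝ → ℝ) : ℝ := av (fun g => ∫ l in (0 : ℝ)..s, f g l)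

lemma AI_add {f f' : G → ℝ → ℝ} (hf : ∀ g, Continuous (f g)) (hf' : ∀ g, Continuous (f' g)) :
    AI s (fun g l => f g l + f' g l) = AI s f + AI s f' := by
  unfold AI
  rw [← av_add]
  exact av_congr fun g => intervalIntegral.integral_add ((hf g).intervalIntegrable _ _)
    ((hf' g).intervalIntegrable _ _)

lemma AI_sub {f f' : G → ℝ → ℝ} (hf : ∀ g, Continuous (f g)) (hf' : ∀ g, Continuous (f' g)) :
    AI s (fun g l => f g l - f' g l) = AI s f - AI s f' := by
  unfold AI
  rw [← av_sub]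
  exact av_congr fun g => intervalIntegral.integral_sub ((hf g).intervalIntegrable _ _)
    ((hf' g).intervalIntegrable _ _)

lemma AI_mul_left (c : ℝ) (f : G → ℝ → ℝ) : AI s (fun g l => c * f g l) = c * AI s f := by
  unfold AI
  rw [← av_mul_left]
  exact av_congr fun g => intervalIntegral.integral_const_mul _ _

lemma AI_sum {β : Type*} (I : Finset β) (f : β → G → ℝ → ℝ) (hf : ∀ b g, Continuous (f b g)) :
    AI s (fun g l => ∑ b ∈ I, f b g l) = ∑ b ∈ I, AI s (f b) := by
  unfold AI
  rw [← av_sum]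
  exact av_congr fun g => intervalIntegral.integral_finsetSum
    fun b _ => (hf b g).intervalIntegrable _ _

lemma AI_mono (hs : 0 ≤ s) {f f' : G → ℝ → ℝ} (hf : ∀ g, Continuous (f g))
    (hf' : ∀ g, Continuous (f' g)) (h : ∀ g l, 0 ≤ l → f g l ≤ f' g l) : AI s f ≤ AI s f' := by
  unfold AI
  exact av_mono fun g => intervalIntegral.integral_mono_on hs ((hf g).intervalIntegrable _ _)
    ((hf' g).intervalIntegrable _ _) fun l hl => h g l hl.1

lemma AI_const [Nonempty G] (c : ℝ) : AI s (fun (_ : G) _ => c) = s * c := by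
  unfold AI
  simp only [intervalIntegral.integral_const, sub_zero, smul_eq_mul]
  exact av_const _

lemma abs_AI_le (hs : 0 ≤ s) (f : G → ℝ → ℝ) : |AI s f| ≤ AI s (fun g l => |f g l|) := by
  unfold AI
  exact (abs_av_le _).trans (av_mono fun g => intervalIntegral.abs_integral_le_integral_abs hs)

end ai

section fw

variable {k : ℕ} [NeZero k] {L : Type} [DistribLattice L] [Fintype L]
  {V : Type*} [Fintype V] [DecidableEq V]

/-- the weight `W0` in the field `l` -/
noncomputable def FW (sf : Fin k → ℝ) (W0 : (V → Fin k) → ℝ) (l : ℝ) : (V → Fin k) → ℝ :=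
  fun σ => W0 σ * Real.exp (l * Msum sf σ)

lemma GM_false' {κ : Type*} [Fintype κ] (sf : Fin k → ℝ) (W0 : (V → Fin k) → ℝ) (w : Fin k → ℝ)
    (z : κ → V) (l : ℝ) : GM sf W0 w z (fun _ => false) l = FW sf W0 l := by
  funext σ; simp [GM, FW]

variable {sf : Fin k → ℝ} {W0 : (V → Fin k) → ℝ}

lemma FW_pos (h0 : ∀ σ, 0 < W0 σ) (l : ℝ) (σ : V → Fin k) : 0 < FW sf W0 l σ :=
  mul_pos (h0 σ) (Real.exp_pos _)

lemma FW_lsmv {e : Fin k ≃ L} (h0 : ∀ σ, 0 < W0 σ) (hL : LSMV e W0) {l : ℝ} (hl : 0 ≤ l) :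
    LSMV e (FW (sL e) W0 l) := by
  rw [← GM_false' (sL e) W0 (fun _ => 1) (fun v : V => v) l]
  exact GM_lsmv h0 hL (fun _ => one_pos) (fun i j => by simp) _ hl

lemma continuous_gE_FW (h0 : ∀ σ, 0 < W0 σ) (f : (V → Fin k) → ℝ) :
    Continuous (fun l => gE (FW sf W0 l) f) := by
  have h := continuous_gE_GM (sf := sf) (w := fun _ => 1) (z := fun v : V => v) h0
    (fun _ => one_pos) (fun _ => false) f
  simpa only [GM_false'] using h

lemma continuous_cov_FW (h0 : ∀ σ, 0 < W0 σ) (f g : (V → Fin k) → ℝ) :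
    Continuous (fun l => cov (FW sf W0 l) f g) :=
  (continuous_gE_FW h0 _).sub ((continuous_gE_FW h0 _).mul (continuous_gE_FW h0 _))

lemma continuous_log_gE_FW (h0 : ∀ σ, 0 < W0 σ) {f : (V → Fin k) → ℝ} (hf : ∀ σ, 0 < f σ) :
    Continuous (fun l => Real.log (gE (FW sf W0 l) f)) :=
  (continuous_gE_FW h0 f).log fun l => (gE_pos (FW_pos h0 l) hf).ne'

lemma continuous_log_sum_FW (h0 : ∀ σ, 0 < W0 σ) :
    Continuous (fun l => Real.log (∑ σ, FW sf W0 l σ)) := by
  have h := continuous_FM (sf := sf) (w := fun _ => 1) (z := fun v : V => v) h0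
    (fun _ => one_pos) (fun _ => false)
  unfold FM at h
  simpa only [GM_false'] using h

lemma integral_cov_FW (h0 : ∀ σ, 0 < W0 σ) {S : ℝ} (hs0 : ∀ i, 0 ≤ sf i) (hs1 : ∀ i, sf i ≤ S)
    (v : V) (s : ℝ) :
    ∫ l in (0 : ℝ)..s, cov (FW sf W0 l) (sv sf v) (Msum sf) ≤ S := by
  have h := integral_cov_GM (sf := sf) (w := fun _ => 1) (z := fun v : V => v) h0
    (fun _ => one_pos) hs0 hs1 (fun _ => false) v s
  simpa only [GM_false'] using h

/-- decoupled edge expectation -/
noncomputable def LL (sf : Fin k → ℝ) (A : Fin k → Fin k → ℝ) (W0 : (V → Fin k) → ℝ) (u v : V)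
    (l : ℝ) : ℝ :=
  Real.log (gE (FW sf W0 l) (fun σ => rv A (FW sf W0 l) v (σ u)))

lemma continuous_LL {A : Fin k → Fin k → ℝ} (h0 : ∀ σ, 0 < W0 σ) (hA : ∀ i j, 0 < A i j)
    (u v : V) : Continuous (fun l => LL sf A W0 u v l) := by
  unfold LL
  have e1 : ∀ l, gE (FW sf W0 l) (fun σ => rv A (FW sf W0 l) v (σ u)) =
      ∑ i, gE (FW sf W0 l) (fun σ => (if σ u = i then (1 : ℝ) else 0)) *
        gE (FW sf W0 l) (fun σ => A i (σ v)) := by
    intro l
    have : ∀ i, gE (FW sf W0 l) (fun σ => (if σ u = i then (1 : ℝ) else 0)) *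
        gE (FW sf W0 l) (fun σ => A i (σ v)) =
        gE (FW sf W0 l) (fun σ => (if σ u = i then (1 : ℝ) else 0) * rv A (FW sf W0 l) v i) := by
      intro i
      rw [gE_mul_right]; rfl
    simp only [this]
    rw [← gE_sum]
    refine gE_congr _ fun σ => ?_
    simp
  have hpos : ∀ l, 0 < gE (FW sf W0 l) (fun σ => rv A (FW sf W0 l) v (σ u)) := fun l =>
    gE_pos (FW_pos h0 l) fun σ => gE_pos (FW_pos h0 l) fun τ => hA _ _
  refine Continuous.log ?_ fun l => (hpos l).ne'
  simp only [e1]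
  exact continuous_finsetSum _ fun i _ => (continuous_gE_FW h0 _).mul (continuous_gE_FW h0 _)

lemma rv_mem {e : Fin k ≃ L} {A : Fin k → Fin k → ℝ} {W : (V → Fin k) → ℝ} (hW : ∀ σ, 0 < W σ)
    (hL : LSMV e W) (hA : ∀ i j, 0 < A i j) (hA2 : LSM2 e A) (v : V) : rv A W v ∈ WL e := by
  refine ⟨fun i => gE_pos hW fun σ => hA _ _, fun i j => ?_⟩
  have h := four_e e (f₁ := fun σ : V → Fin k => W σ * A i (σ v))
    (f₂ := fun σ => W σ * A j (σ v))
    (f₃ := fun σ => W σ * A (mt e i j) (σ v))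
    (f₄ := fun σ => W σ * A (jn e i j) (σ v))
    (fun σ => (mul_pos (hW σ) (hA _ _)).le) (fun σ => (mul_pos (hW σ) (hA _ _)).le)
    (fun σ => (mul_pos (hW σ) (hA _ _)).le) (fun σ => (mul_pos (hW σ) (hA _ _)).le)
    (fun σ τ => by
      calc W σ * A i (σ v) * (W τ * A j (τ v))
          = (W σ * W τ) * (A i (σ v) * A j (τ v)) := by ring
        _ ≤ (W (fun u => mt e (σ u) (τ u)) * W (fun u => jn e (σ u) (τ u))) *
            (A (mt e i j) (mt e (σ v) (τ v)) * A (jn e i j) (jn e (σ v) (τ v))) :=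
            mul_le_mul (hL σ τ) (hA2 _ _ _ _) (mul_pos (hA _ _) (hA _ _)).le
              (mul_pos (hW _) (hW _)).le
        _ = _ := by ring)
  have hpos := sum_W_pos hW
  unfold rv gE
  rw [div_mul_div_comm, div_mul_div_comm]
  exact div_le_div_of_nonneg_right h (mul_pos hpos hpos).le

lemma one_mem_WL (e : Fin k ≃ L) : (fun _ : Fin k => (1 : ℝ)) ∈ WL e :=
  ⟨fun _ => one_pos, fun i j => by simp⟩

end fw

section step

variable {J T X : Type*} [Fintype J] [DecidableEq J] [AddCommGroup J] [Fintype T] [DecidableEq T]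
  [Fintype X] [DecidableEq X] {k : ℕ} {α : Fin k → ℝ} {A : Fin k → Fin k → ℝ}
  {vtx : T × Bool → X} {δ : T → J}

/-- exchangeability of the free positions -/
lemma av_swap (Ψ : ((J × X → Fin k) → ℝ) → J × X → J × X → ℝ) (B : Finset T) {y : T}
    (hy : y ∉ B) (i j : J) (β β' : Bool) (a : T × Bool) (ha : a.1 ∉ B)
    (hne : (i, (y, β)) ≠ (j, (y, β'))) (ha2 : a ≠ (y, β')) :
    av (fun g : J → Perm (T × Bool) => Ψ (CW α A vtx δ B g) (loc vtx g (i, (y, β)))
      (loc vtx g (j, (y, β')))) =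
    av (fun g : J → Perm (T × Bool) => Ψ (CW α A vtx δ B g) (loc vtx g (i, a))
      (loc vtx g (j, (y, β')))) := by
  rw [← av_mulRight (Pi.mulSingle i (swap (y, β) a) : J → Perm (T × Bool))]
  refine av_congr fun g => ?_
  rw [CW_mul B g i (y, β) a hy ha, loc_mul_left, loc_mul_of_ne g i (y, β) a (j, (y, β'))
    (fun h => hne h.symm) (fun h => ha2 (Prod.mk.inj h).2.symm)]

/-- the free positions, except one -/
def QQ (B : Finset T) (y : T) (β : Bool) : Finset (T × Bool) :=
  (univ.filter (fun a : T × Bool => a.1 ∉ B)).erase (y, β)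

lemma card_QQ (B : Finset T) {y : T} (hy : y ∉ B) (β : Bool) :
    (QQ B y β).card = 2 * (Fintype.card T - B.card) - 1 := by
  unfold QQ
  rw [Finset.card_erase_of_mem (by simp [hy])]
  have : (univ.filter (fun a : T × Bool => a.1 ∉ B)) = Bᶜ ×ˢ (univ : Finset Bool) := by
    ext a; simp
  rw [this, Finset.card_product, Finset.card_compl]
  simp
  ring_nf

lemma mem_QQ {B : Finset T} {y : T} {β : Bool} {a : T × Bool} :
    a ∈ QQ B y β ↔ a ≠ (y, β) ∧ a.1 ∉ B := by
  simp [QQ]

lemma QQ_card_pos (B : Finset T) {y : T} (hy : y ∉ B) (β : Bool) : 0 < (QQ B y β).card := by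
  refine Finset.card_pos.2 ⟨(y, !β), ?_⟩
  rw [mem_QQ]
  refine ⟨?_, hy⟩
  intro h
  have := (Prod.mk.inj h).2
  cases β <;> simp at this

variable [NeZero k] {L : Type} [DistribLattice L] [Fintype L] {e : Fin k ≃ L} {D : ℝ}

/-- covariance between two positions -/
noncomputable def cc (e : Fin k ≃ L) (α : Fin k → ℝ) (A : Fin k → Fin k → ℝ) (vtx : T × Bool → X)
    (δ : T → J) (B : Finset T) (P P' : J × (T × Bool)) (g : J → Perm (T × Bool)) (l : ℝ) : ℝ :=
  cov (FW (sL e) (CW α A vtx δ B g) l) (sv (sL e) (loc vtx g P)) (sv (sL e) (loc vtx g P'))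

lemma continuous_cc (H : Att e α A D) (B : Finset T) (P P' : J × (T × Bool))
    (g : J → Perm (T × Bool)) : Continuous (cc e α A vtx δ B P P' g) :=
  continuous_cov_FW (EW_pos H.αp H.Ap _ _ _) _ _

lemma cc_nonneg (H : Att e α A D) (B : Finset T) (P P' : J × (T × Bool))
    (g : J → Perm (T × Bool)) {l : ℝ} (hl : 0 ≤ l) : 0 ≤ cc e α A vtx δ B P P' g l :=
  cov_sv_nonneg (FW_pos (EW_pos H.αp H.Ap _ _ _) l)
    (FW_lsmv (EW_pos H.αp H.Ap _ _ _) (EW_lsmv H _ _ _) hl) _ _

lemma cc_av (H : Att e α A D) {Δ : ℕ} (hv : ∀ x, (univ.filter (fun a => vtx a = x)).card ≤ Δ)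
    (B : Finset T) {y : T} (hy : y ∉ B) {s : ℝ} (hs : 0 ≤ s) (i j : J) (β β' : Bool)
    (hne : (i, (y, β)) ≠ (j, (y, β'))) :
    AI s (cc e α A vtx δ B (i, (y, β)) (j, (y, β'))) ≤
      Δ * k / (2 * (Fintype.card T - B.card) - 1 : ℕ) := by
  set f : ℕ := (QQ B y β').card with hf
  have hf0 : (0 : ℝ) < f := by
    have := QQ_card_pos B hy β'
    exact_mod_cast this
  rw [← card_QQ B hy β', ← hf, le_div_iff₀ hf0, mul_comm]
  have e1 : ∀ a ∈ QQ B y β', AI s (cc e α A vtx δ B (i, (y, β)) (j, (y, β'))) =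
      AI s (cc e α A vtx δ B (i, a) (j, (y, β'))) := by
    intro a ha
    rw [mem_QQ] at ha
    exact av_swap (fun W u v => ∫ l in (0 : ℝ)..s, cov (FW (sL e) W l) (sv (sL e) u)
      (sv (sL e) v)) B hy i j β β' a ha.2 hne ha.1
  have e2 : (f : ℝ) * AI s (cc e α A vtx δ B (i, (y, β)) (j, (y, β'))) =
      ∑ a ∈ QQ B y β', AI s (cc e α A vtx δ B (i, a) (j, (y, β'))) := by
    rw [← Finset.sum_congr rfl e1, Finset.sum_const, nsmul_eq_mul]
  rw [e2, ← AI_sum _ _ (fun a g => continuous_cc H B _ _ g)]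
  have h0 : ∀ g : J → Perm (T × Bool), ∀ σ, 0 < CW α A vtx δ B g σ := fun g =>
    EW_pos H.αp H.Ap _ _ _
  have h3 : AI s (fun (g : J → Perm (T × Bool)) l =>
      ∑ a ∈ QQ B y β', cc e α A vtx δ B (i, a) (j, (y, β')) g l) ≤
      AI s (fun (g : J → Perm (T × Bool)) l => (Δ : ℝ) * cov (FW (sL e) (CW α A vtx δ B g) l)
        (sv (sL e) (loc vtx g (j, (y, β')))) (Msum (sL e))) := by
    refine AI_mono hs (fun g => continuous_finsetSum _ fun a _ => continuous_cc H B _ _ g)
      (fun g => continuous_const.mul (continuous_cov_FW (h0 g) _ _)) fun g l hl => ?_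
    have hW := FW_pos (sf := sL e) (h0 g) l
    have hL := FW_lsmv (e := e) (h0 g) (EW_lsmv H _ _ _) hl
    refine le_trans (le_of_eq ?_) (sum_cov_le hW hL (z := fun a => loc vtx g (i, a))
      (loc_fibre' hv g i) (QQ B y β') (loc vtx g (j, (y, β'))))
    exact Finset.sum_congr rfl fun a _ => cov_comm _ _ _
  refine h3.trans ?_
  rw [AI_mul_left]
  refine mul_le_mul_of_nonneg_left ?_ (Nat.cast_nonneg _)
  unfold AI
  exact av_le fun g => integral_cov_FW (h0 g) (sL_nonneg e) (sL_le e) _ s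

/-- log-expectation of the new edges, for the shift `d` -/
noncomputable def Fd (e : Fin k ≃ L) (α : Fin k → ℝ) (A : Fin k → Fin k → ℝ) (vtx : T × Bool → X)
    (δ : T → J) (B : Finset T) (y : T) (d : J) (g : J → Perm (T × Bool)) (l : ℝ) : ℝ :=
  Real.log (gE (FW (sL e) (CW α A vtx δ B g) l) (fun σ => ∏ i : J,
    A (σ (loc vtx g (i, (y, false)))) (σ (loc vtx g (i + d, (y, true))))))

/-- decoupled log-expectation of the edge between two positions -/
noncomputable def ll (e : Fin k ≃ L) (α : Fin k → ℝ) (A : Fin k → Fin k → ℝ) (vtx : T × Bool → X)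
    (δ : T → J) (B : Finset T) (P P' : J × (T × Bool)) (g : J → Perm (T × Bool)) (l : ℝ) : ℝ :=
  LL (sL e) A (CW α A vtx δ B g) (loc vtx g P) (loc vtx g P') l

lemma continuous_ll (H : Att e α A D) (B : Finset T) (P P' : J × (T × Bool))
    (g : J → Perm (T × Bool)) : Continuous (ll e α A vtx δ B P P' g) :=
  continuous_LL (EW_pos H.αp H.Ap _ _ _) H.Ap _ _

lemma continuous_Fd (H : Att e α A D) (B : Finset T) (y : T) (d : J)
    (g : J → Perm (T × Bool)) : Continuous (Fd e α A vtx δ B y d g) :=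
  continuous_log_gE_FW (EW_pos H.αp H.Ap _ _ _) fun σ => Finset.prod_pos fun _ _ => H.Ap _ _

/-- the decoupling error -/
noncomputable def EE (e : Fin k ≃ L) (α : Fin k → ℝ) (A : Fin k → Fin k → ℝ) (vtx : T × Bool → X)
    (δ : T → J) (B : Finset T) (D : ℝ) (y : T) (d : J) (g : J → Perm (T × Bool)) (l : ℝ) : ℝ :=
  Real.exp (2 * D * Fintype.card J) * (∑ i : J, ∑ j ∈ univ.erase i,
    (cc e α A vtx δ B (i, (y, false)) (j, (y, false)) g l +
    cc e α A vtx δ B (i, (y, false)) (j + d, (y, true)) g l +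
    cc e α A vtx δ B (i + d, (y, true)) (j, (y, false)) g l +
    cc e α A vtx δ B (i + d, (y, true)) (j + d, (y, true)) g l)) +
  k * Real.exp (2 * D) * ∑ i : J, cc e α A vtx δ B (i, (y, false)) (i + d, (y, true)) g l

lemma Fd_approx (H : Att e α A D) (B : Finset T) (y : T) (d : J) (g : J → Perm (T × Bool))
    {l : ℝ} (hl : 0 ≤ l) :
    |Fd e α A vtx δ B y d g l - ∑ i : J, ll e α A vtx δ B (i, (y, false)) (i + d, (y, true)) g l| ≤
      EE e α A vtx δ B D y d g l := by
  have h0 : ∀ σ, 0 < CW α A vtx δ B g σ := EW_pos H.αp H.Ap _ _ _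
  have hW := FW_pos (sf := sL e) h0 l
  have hL := FW_lsmv (e := e) h0 (EW_lsmv H _ _ _) hl
  have h1 := multi_decouple hW hL H.D0.le H.A1 H.A2 (fun i : J => loc vtx g (i, (y, false)))
    (fun i : J => loc vtx g (i + d, (y, true))) univ
  have h2 : |(∑ i : J, Real.log (gE (FW (sL e) (CW α A vtx δ B g) l)
      (fun σ => A (σ (loc vtx g (i, (y, false)))) (σ (loc vtx g (i + d, (y, true))))))) -
      ∑ i : J, ll e α A vtx δ B (i, (y, false)) (i + d, (y, true)) g l| ≤
      k * Real.exp (2 * D) * ∑ i : J, cc e α A vtx δ B (i, (y, false)) (i + d, (y, true)) g l := by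
    rw [← Finset.sum_sub_distrib, Finset.mul_sum]
    refine (Finset.abs_sum_le_sum_abs _ _).trans (Finset.sum_le_sum fun i _ => ?_)
    exact edge_approx hW (LSMV.dec hW hL) H.A1 H.A2 _ _
  have e3 : Fd e α A vtx δ B y d g l -
      ∑ i : J, ll e α A vtx δ B (i, (y, false)) (i + d, (y, true)) g l =
      (Fd e α A vtx δ B y d g l - ∑ i : J, Real.log (gE (FW (sL e) (CW α A vtx δ B g) l)
      (fun σ => A (σ (loc vtx g (i, (y, false)))) (σ (loc vtx g (i + d, (y, true))))))) +
      ((∑ i : J, Real.log (gE (FW (sL e) (CW α A vtx δ B g) l)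
      (fun σ => A (σ (loc vtx g (i, (y, false)))) (σ (loc vtx g (i + d, (y, true))))))) -
      ∑ i : J, ll e α A vtx δ B (i, (y, false)) (i + d, (y, true)) g l) := by ring
  rw [e3]
  refine (abs_add_le _ _).trans ?_
  unfold EE
  refine add_le_add ?_ h2
  rw [Finset.card_univ] at h1
  exact h1

lemma EE_av (H : Att e α A D) {Δ : ℕ} (hv : ∀ x, (univ.filter (fun a => vtx a = x)).card ≤ Δ)
    (B : Finset T) {y : T} (hy : y ∉ B) {s : ℝ} (hs : 0 ≤ s) (d : J) :
    AI s (EE e α A vtx δ B D y d) ≤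
      (Real.exp (2 * D * Fintype.card J) * (4 * (Fintype.card J : ℝ) ^ 2) +
        k * Real.exp (2 * D) * Fintype.card J) *
      (Δ * k / (2 * (Fintype.card T - B.card) - 1 : ℕ)) := by
  set R : ℝ := Δ * k / (2 * (Fintype.card T - B.card) - 1 : ℕ) with hR
  have hR0 : 0 ≤ R := by positivity
  have cC : ∀ P P' : J × (T × Bool), ∀ g, Continuous (cc e α A vtx δ B P P' g) :=
    fun P P' g => continuous_cc H B P P' g
  have e1 : AI s (EE e α A vtx δ B D y d) =
      Real.exp (2 * D * Fintype.card J) * (∑ i : J, ∑ j ∈ univ.erase i,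
      (AI s (cc e α A vtx δ B (i, (y, false)) (j, (y, false))) +
      AI s (cc e α A vtx δ B (i, (y, false)) (j + d, (y, true))) +
      AI s (cc e α A vtx δ B (i + d, (y, true)) (j, (y, false))) +
      AI s (cc e α A vtx δ B (i + d, (y, true)) (j + d, (y, true))))) +
      k * Real.exp (2 * D) * ∑ i : J, AI s (cc e α A vtx δ B (i, (y, false)) (i + d, (y, true))) := by
    unfold EE
    rw [AI_add, AI_mul_left, AI_mul_left, AI_sum, AI_sum]
    · congr 2
      refine Finset.sum_congr rfl fun i _ => ?_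
      rw [AI_sum]
      · refine Finset.sum_congr rfl fun j _ => ?_
        rw [AI_add, AI_add, AI_add]
        · exact fun g => cC _ _ g
        · exact fun g => cC _ _ g
        · exact fun g => (cC _ _ g).add (cC _ _ g)
        · exact fun g => cC _ _ g
        · exact fun g => ((cC _ _ g).add (cC _ _ g)).add (cC _ _ g)
        · exact fun g => cC _ _ g
      · exact fun j g => (((cC _ _ g).add (cC _ _ g)).add (cC _ _ g)).add (cC _ _ g)
    · exact fun i g => cC _ _ g
    · exact fun i g => continuous_finsetSum _ fun j _ =>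
        (((cC _ _ g).add (cC _ _ g)).add (cC _ _ g)).add (cC _ _ g)
    · exact fun g => continuous_const.mul (continuous_finsetSum _ fun i _ =>
        continuous_finsetSum _ fun j _ =>
        (((cC _ _ g).add (cC _ _ g)).add (cC _ _ g)).add (cC _ _ g))
    · exact fun g => continuous_const.mul (continuous_finsetSum _ fun i _ => cC _ _ g)
  rw [e1]
  have hc : ∀ (i j : J) (β β' : Bool), (i, (y, β)) ≠ (j, (y, β')) →
      AI s (cc e α A vtx δ B (i, (y, β)) (j, (y, β'))) ≤ R := fun i j β β' hne =>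
    cc_av H hv B hy hs i j β β' hne
  have h1 : (∑ i : J, ∑ j ∈ univ.erase i,
      (AI s (cc e α A vtx δ B (i, (y, false)) (j, (y, false))) +
      AI s (cc e α A vtx δ B (i, (y, false)) (j + d, (y, true))) +
      AI s (cc e α A vtx δ B (i + d, (y, true)) (j, (y, false))) +
      AI s (cc e α A vtx δ B (i + d, (y, true)) (j + d, (y, true))))) ≤
      4 * (Fintype.card J : ℝ) ^ 2 * R := by
    have h2 : ∀ i ∈ (univ : Finset J), (∑ j ∈ univ.erase i,
        (AI s (cc e α A vtx δ B (i, (y, false)) (j, (y, false))) +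
        AI s (cc e α A vtx δ B (i, (y, false)) (j + d, (y, true))) +
        AI s (cc e α A vtx δ B (i + d, (y, true)) (j, (y, false))) +
        AI s (cc e α A vtx δ B (i + d, (y, true)) (j + d, (y, true))))) ≤
        4 * (Fintype.card J : ℝ) * R := by
      intro i _
      have h3 : ∀ j ∈ univ.erase i,
        (AI s (cc e α A vtx δ B (i, (y, false)) (j, (y, false))) +
        AI s (cc e α A vtx δ B (i, (y, false)) (j + d, (y, true))) +
        AI s (cc e α A vtx δ B (i + d, (y, true)) (j, (y, false))) +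
        AI s (cc e α A vtx δ B (i + d, (y, true)) (j + d, (y, true)))) ≤ 4 * R := by
        intro j hj
        have hji : i ≠ j := (Finset.ne_of_mem_erase hj).symm
        have a1 := hc i j false false (fun h => hji (Prod.mk.inj h).1)
        have a2 := hc i (j + d) false true (fun h => by
          have := (Prod.mk.inj (Prod.mk.inj h).2).2
          simp at this)
        have a3 := hc (i + d) j true false (fun h => by
          have := (Prod.mk.inj (Prod.mk.inj h).2).2
          simp at this)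
        have a4 := hc (i + d) (j + d) true true (fun h => hji (add_right_cancel (Prod.mk.inj h).1))
        linarith
      refine (Finset.sum_le_sum h3).trans ?_
      rw [Finset.sum_const, nsmul_eq_mul]
      have h4 : ((univ.erase i).card : ℝ) ≤ Fintype.card J := by
        have := Finset.card_le_univ (univ.erase i)
        exact_mod_cast this
      calc ((univ.erase i).card : ℝ) * (4 * R) ≤ Fintype.card J * (4 * R) :=
            mul_le_mul_of_nonneg_right h4 (by positivity)
        _ = _ := by ring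
    refine (Finset.sum_le_sum h2).trans (le_of_eq ?_)
    rw [Finset.sum_const, Finset.card_univ, nsmul_eq_mul]
    ring
  have h5 : ∑ i : J, AI s (cc e α A vtx δ B (i, (y, false)) (i + d, (y, true))) ≤
      Fintype.card J * R := by
    have : ∀ i ∈ (univ : Finset J), AI s (cc e α A vtx δ B (i, (y, false)) (i + d, (y, true))) ≤ R :=
      fun i _ => hc i (i + d) false true (fun h => by
          have := (Prod.mk.inj (Prod.mk.inj h).2).2
          simp at this)
    refine (Finset.sum_le_sum this).trans (le_of_eq ?_)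
    rw [Finset.sum_const, Finset.card_univ, nsmul_eq_mul]
  calc _ ≤ Real.exp (2 * D * Fintype.card J) * (4 * (Fintype.card J : ℝ) ^ 2 * R) +
        k * Real.exp (2 * D) * (Fintype.card J * R) :=
        add_le_add (mul_le_mul_of_nonneg_left h1 (Real.exp_pos _).le)
          (mul_le_mul_of_nonneg_left h5 (by positivity))
    _ = _ := by ring

end step

end Pool.Agent.Lib.R97Q2
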