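import Pool.Agent.Lib.R97Q2.Step

set_option autoImplicit false
set_option linter.unusedSectionVars false
set_option linter.unusedVariables false

namespace Pool.Agent.Lib.R97Q2

open Finset Equiv
open Function (update update_self update_of_ne update_eq_self update_comm)
open Pool.Agent.Lib.MP_7587db

section step

variable {J T X : Type*} [Fintype J] [DecidableEq J] [AddCommGroup J] [Fintype T] [DecidableEq T]
  [Fintype X] [DecidableEq X] {k : ℕ} {α : Fin k → ℝ} {A : Fin k → Fin k → ℝ}
  {vtx : T × Bool → X} {δ : T → J}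
  [NeZero k] {L : Type} [DistribLattice L] [Fintype L] {e : Fin k ≃ L} {D : ℝ}

/-- the sum of the log-expectations over part `i` -/
noncomputable def mm (e : Fin k ≃ L) (α : Fin k → ℝ) (A : Fin k → Fin k → ℝ) (vtx : T × Bool → X)
    (δ : T → J) (B : Finset T) (w : Fin k → ℝ) (Q : Finset (T × Bool)) (i : J)
    (g : J → Perm (T × Bool)) (l : ℝ) : ℝ :=
  mM (sL e) (CW α A vtx δ B g) w (loc vtx g) (UU i Q) l

lemma mm_eq (B : Finset T) (w : Fin k → ℝ) (Q : Finset (T × Bool)) (i : J)
    (g : J → Perm (T × Bool)) (l : ℝ) :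
    mm e α A vtx δ B w Q i g l = ∑ a ∈ Q, Real.log (gE (FW (sL e) (CW α A vtx δ B g) l)
      (fun σ => w (σ (loc vtx g (i, a))))) := by
  unfold mm mM UU
  rw [Finset.sum_product, Finset.sum_singleton]
  simp only [GM_false']

lemma continuous_mm (H : Att e α A D) (B : Finset T) {w : Fin k → ℝ} (hw : ∀ i, 0 < w i)
    (Q : Finset (T × Bool)) (i : J) (g : J → Perm (T × Bool)) :
    Continuous (mm e α A vtx δ B w Q i g) := by
  have : (mm e α A vtx δ B w Q i g) = fun l => ∑ a ∈ Q, Real.log
      (gE (FW (sL e) (CW α A vtx δ B g) l) (fun σ => w (σ (loc vtx g (i, a))))) := by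
    funext l; exact mm_eq B w Q i g l
  rw [this]
  exact continuous_finsetSum _ fun a _ =>
    continuous_log_gE_FW (EW_pos H.αp H.Ap _ _ _) fun σ => hw _

/-- a finite net of messages -/
lemma ll_net (H : Att e α A D) (B : Finset T) (Q : Finset (T × Bool)) {K : ℕ} (hK : 1 ≤ K)
    (i j : J) (P : J × (T × Bool)) (g : J → Perm (T × Bool)) {l : ℝ} (hl : 0 ≤ l) :
    |(∑ a ∈ Q, ll e α A vtx δ B (i, a) P g l) - ∑ a ∈ Q, ll e α A vtx δ B (j, a) P g l| ≤
      (∑ τ : Fin k → Fin (K + 1), |mm e α A vtx δ B (thW (WL e) D K τ) Q i g l -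
        mm e α A vtx δ B (thW (WL e) D K τ) Q j g l|) + 2 * (Q.card * (2 * Real.exp (2 * D) / K)) := by
  have hD := H.D0
  have h0 : ∀ σ, 0 < CW α A vtx δ B g σ := EW_pos H.αp H.Ap _ _ _
  have hW := FW_pos (sf := sL e) h0 l
  have hL := FW_lsmv (e := e) h0 (EW_lsmv H _ _ _) hl
  have hK0 : (0 : ℝ) < K := by exact_mod_cast hK
  set W := FW (sL e) (CW α A vtx δ B g) l with hWdef
  set v := loc vtx g P with hv
  have hr1 : ∀ i, Real.exp (-D) ≤ rv A W v i := fun i => le_gE hW fun σ => H.A1 _ _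
  have hr2 : ∀ i, rv A W v i ≤ Real.exp D := fun i => gE_le hW fun σ => H.A2 _ _
  obtain ⟨τ, hτ⟩ := exists_thW hD hK (rv A W v) (rv_mem hW hL H.Ap H.AL v) hr1 hr2
  have hs : ∀ j : J, |(∑ a ∈ Q, ll e α A vtx δ B (j, a) P g l) -
      mm e α A vtx δ B (thW (WL e) D K τ) Q j g l| ≤ Q.card * (2 * Real.exp (2 * D) / K) := by
    intro j
    rw [mm_eq, ← Finset.sum_sub_distrib]
    refine (Finset.abs_sum_le_sum_abs _ _).trans ?_
    have : ∀ a ∈ Q, |ll e α A vtx δ B (j, a) P g l -
        Real.log (gE W (fun σ => thW (WL e) D K τ (σ (loc vtx g (j, a)))))| ≤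
        2 * Real.exp (2 * D) / K := by
      intro a _
      refine (abs_log_sub_log_le (Real.exp_pos (-D)) (le_gE hW fun σ => hr1 _)
        (le_gE hW fun σ => thW_ge hD.le K τ _)).trans ?_
      rw [div_le_iff₀ (Real.exp_pos _)]
      have h5 : |gE W (fun σ => rv A W v (σ (loc vtx g (j, a)))) -
          gE W (fun σ => thW (WL e) D K τ (σ (loc vtx g (j, a))))| ≤
          2 * (Real.exp D / K) := by
        rw [← gE_sub, abs_le]
        constructor
        · refine le_gE hW fun σ => ?_
          exact (abs_le.1 (hτ (σ (loc vtx g (j, a))))).1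
        · refine gE_le hW fun σ => ?_
          exact (abs_le.1 (hτ (σ (loc vtx g (j, a))))).2
      refine h5.trans (le_of_eq ?_)
      have : Real.exp D = Real.exp (2 * D) * Real.exp (-D) := by
        rw [← Real.exp_add]; congr 1; ring
      rw [this]; ring
    refine (Finset.sum_le_sum this).trans ?_
    rw [Finset.sum_const, nsmul_eq_mul]
  have hG1 : |mm e α A vtx δ B (thW (WL e) D K τ) Q i g l -
      mm e α A vtx δ B (thW (WL e) D K τ) Q j g l| ≤
      ∑ τ : Fin k → Fin (K + 1), |mm e α A vtx δ B (thW (WL e) D K τ) Q i g l -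
        mm e α A vtx δ B (thW (WL e) D K τ) Q j g l| :=
    Finset.single_le_sum (f := fun τ => |mm e α A vtx δ B (thW (WL e) D K τ) Q i g l -
      mm e α A vtx δ B (thW (WL e) D K τ) Q j g l|) (fun τ _ => abs_nonneg _) (Finset.mem_univ τ)
  have a1 := abs_le.1 (hs i)
  have a2 := abs_le.1 (hs j)
  have a3 := abs_le.1 hG1
  rw [abs_le]
  constructor <;> linarith [a1.1, a1.2, a2.1, a2.2, a3.1, a3.2]

/-- the parts look alike -/
lemma mm_av (H : Att e α A D) {Δ : ℕ} (hv : ∀ x, (univ.filter (fun a => vtx a = x)).card ≤ Δ)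
    (B : Finset T) (Q : Finset (T × Bool)) (hT : 0 < Fintype.card T)
    {w : Fin k → ℝ} (hwL : w ∈ WL e) (hw1 : ∀ i, Real.exp (-D) ≤ w i)
    (hw2 : ∀ i, w i ≤ Real.exp D) {s h : ℝ} (hs : 0 ≤ s) (h0 : 0 < h) (h1 : h ≤ 1) (i j : J) :
    AI s (fun (g : J → Perm (T × Bool)) l =>
      |mm e α A vtx δ B w Q i g l - mm e α A vtx δ B w Q j g l|) ≤
      1 / h * (s * (120 * D * Real.sqrt (8 * (Fintype.card J * Fintype.card T))) +
        2 * Q.card * (h ^ 2 * Real.exp (4 * D) * Δ * k)) := by
  have hD := H.D0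
  have hw := hwL.1
  have hp : ∀ g : J → Perm (T × Bool), ∀ σ, 0 < CW α A vtx δ B g σ := fun g =>
    EW_pos H.αp H.Ap _ _ _
  have cH : ∀ (i : J) (g : J → Perm (T × Bool)),
      Continuous (fun l => bE (PT h (UU i Q)) (FM (sL e) (CW α A vtx δ B g) w (loc vtx g) l)) :=
    fun i g => continuous_bE _ fun ξ => continuous_FM (hp g) hw ξ
  rw [one_div, le_inv_mul_iff₀ h0, ← AI_mul_left]
  have step1 : AI s (fun (g : J → Perm (T × Bool)) l =>
      h * |mm e α A vtx δ B w Q i g l - mm e α A vtx δ B w Q j g l|) ≤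
      AI s (fun (g : J → Perm (T × Bool)) l =>
        |bE (PT h (UU i Q)) (FM (sL e) (CW α A vtx δ B g) w (loc vtx g) l) -
        bE (PT h (UU j Q)) (FM (sL e) (CW α A vtx δ B g) w (loc vtx g) l)|) +
      2 * Q.card * (h ^ 2 * Real.exp (4 * D) * Δ * k) := by
    unfold AI
    have : ∀ c : ℝ, c = av (fun _ : J → Perm (T × Bool) => c) := fun c => (av_const c).symm
    rw [this (2 * Q.card * (h ^ 2 * Real.exp (4 * D) * Δ * k)), ← av_add]
    refine av_mono fun g => ?_
    rw [intervalIntegral.integral_const_mul]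
    exact mM_compare (hp g) (EW_lsmv H _ _ _) hw hwL.2 hw1 hw2 (loc_fibre hv g) h0 h1 hs
      (UU i Q) (UU j Q) (card_UU i Q) (card_UU j Q)
  refine step1.trans (add_le_add ?_ le_rfl)
  have hcard : (0 : ℝ) < 8 * (Fintype.card J * Fintype.card T) := by
    have h2 : (0 : ℝ) < Fintype.card J := by
      exact_mod_cast Fintype.card_pos_iff.2 ⟨(0 : J)⟩
    have h3 : (0 : ℝ) < Fintype.card T := by exact_mod_cast hT
    positivity
  have hconc : Conc (J → Perm (T × Bool)) (RPi J (T × Bool))
      (8 * (Fintype.card J * Fintype.card T)) := by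
    refine (conc_pi J (T × Bool)).mono (le_of_eq ?_)
    rw [Fintype.card_prod, Fintype.card_bool]
    push_cast; ring
  have hlip : ∀ (i : J) (l : ℝ) (g g' : J → Perm (T × Bool)), RPi J (T × Bool) g g' →
      |bE (PT h (UU i Q)) (FM (sL e) (CW α A vtx δ B g) w (loc vtx g) l) -
        bE (PT h (UU i Q)) (FM (sL e) (CW α A vtx δ B g') w (loc vtx g') l)| ≤ 12 * D := by
    intro i l g g' hgg
    rw [← bE_sub]
    refine (abs_bE_le (PT_nonneg h0.le _) (PT_le_one h1 _) _).trans
      (bE_le_of_le (PT_nonneg h0.le _) (PT_le_one h1 _) fun ξ => ?_)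
    exact FM_RPi H.αp hD.le H.A1 H.A2 hw1 hw2 B l ξ g g' hgg
  have hpt : ∀ l : ℝ, av (fun g : J → Perm (T × Bool) =>
      |bE (PT h (UU i Q)) (FM (sL e) (CW α A vtx δ B g) w (loc vtx g) l) -
        bE (PT h (UU j Q)) (FM (sL e) (CW α A vtx δ B g) w (loc vtx g) l)|) ≤
      120 * D * Real.sqrt (8 * (Fintype.card J * Fintype.card T)) := by
    intro l
    have c1 := hconc.l1 hcard (by positivity : 0 < 12 * D) (hlip i l)
    have c2 := hconc.l1 hcard (by positivity : 0 < 12 * D) (hlip j l)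
    have hsym := rot_symm (sf := sL e) (w := w) (α := α) (A := A) (δ := δ) (vtx := vtx) B Q h l i j
    rw [← hsym] at c2
    set m := av (fun g : J → Perm (T × Bool) =>
      bE (PT h (UU i Q)) (FM (sL e) (CW α A vtx δ B g) w (loc vtx g) l)) with hm
    have : av (fun g : J → Perm (T × Bool) =>
        |bE (PT h (UU i Q)) (FM (sL e) (CW α A vtx δ B g) w (loc vtx g) l) -
        bE (PT h (UU j Q)) (FM (sL e) (CW α A vtx δ B g) w (loc vtx g) l)|) ≤
        av (fun g : J → Perm (T × Bool) =>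
          |bE (PT h (UU i Q)) (FM (sL e) (CW α A vtx δ B g) w (loc vtx g) l) - m| +
          |bE (PT h (UU j Q)) (FM (sL e) (CW α A vtx δ B g) w (loc vtx g) l) - m|) := by
      refine av_mono fun g => ?_
      have := abs_sub (bE (PT h (UU i Q)) (FM (sL e) (CW α A vtx δ B g) w (loc vtx g) l) - m)
          (bE (PT h (UU j Q)) (FM (sL e) (CW α A vtx δ B g) w (loc vtx g) l) - m)
      simpa using this
    rw [av_add] at this
    linarith
  have hia := integral_av (f := fun l (g : J → Perm (T × Bool)) =>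
      |bE (PT h (UU i Q)) (FM (sL e) (CW α A vtx δ B g) w (loc vtx g) l) -
        bE (PT h (UU j Q)) (FM (sL e) (CW α A vtx δ B g) w (loc vtx g) l)|)
      (fun g => ((cH i g).sub (cH j g)).abs) 0 s
  unfold AI
  rw [← hia]
  have hint := intervalIntegral.integral_mono_on (μ := MeasureTheory.volume) (a := (0 : ℝ)) (b := s) hs
    ((continuous_av (f := fun l (g : J → Perm (T × Bool)) =>
      |bE (PT h (UU i Q)) (FM (sL e) (CW α A vtx δ B g) w (loc vtx g) l) -
        bE (PT h (UU j Q)) (FM (sL e) (CW α A vtx δ B g) w (loc vtx g) l)|)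
      (fun g => ((cH i g).sub (cH j g)).abs)).intervalIntegrable _ _)
    ((continuous_const (y := 120 * D * Real.sqrt (8 * (Fintype.card J * Fintype.card T)))
      ).intervalIntegrable _ _) (fun l _ => hpt l)
  refine hint.trans (le_of_eq ?_)
  rw [intervalIntegral.integral_const, sub_zero, smul_eq_mul]

/-- the error of one switch -/
noncomputable def stepErr (D s h : ℝ) (Δ k K J T f : ℕ) : ℝ :=
  2 * ((Real.exp (2 * D * J) * (4 * (J : ℝ) ^ 2) + k * Real.exp (2 * D) * J) * (Δ * k / f)) +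
  J / f * ((K + 1 : ℝ) ^ k * (1 / h * (s * (120 * D * Real.sqrt (8 * (J * T))) +
        2 * f * (h ^ 2 * Real.exp (4 * D) * Δ * k)))) +
  s * (J * (4 * Real.exp (2 * D) / K))

theorem switch_step (H : Att e α A D) {Δ : ℕ}
    (hv : ∀ x, (univ.filter (fun a => vtx a = x)).card ≤ Δ) (B : Finset T) {y : T} (hy : y ∉ B)
    {K : ℕ} (hK : 1 ≤ K) {s h : ℝ} (hs : 0 ≤ s) (h0 : 0 < h) (h1 : h ≤ 1) (d : J) :
    |AI s (Fd e α A vtx δ B y d) - AI s (Fd e α A vtx δ B y 0)| ≤
      stepErr D s h Δ k K (Fintype.card J) (Fintype.card T)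
        (2 * (Fintype.card T - B.card) - 1) := by
  have hD := H.D0
  set f : ℕ := 2 * (Fintype.card T - B.card) - 1 with hf
  set Q := QQ B y true with hQ
  have hQc : Q.card = f := card_QQ B hy true
  have hf0 : (0 : ℝ) < f := by
    rw [← hQc]; exact_mod_cast QQ_card_pos B hy true
  have hT : 0 < Fintype.card T := Fintype.card_pos_iff.2 ⟨y⟩
  have cF : ∀ d g, Continuous (Fd e α A vtx δ B y d g) := fun d g => continuous_Fd H B y d g
  have cl : ∀ P P' g, Continuous (ll e α A vtx δ B P P' g) := fun P P' g => continuous_ll H B P P' g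
  have cE : ∀ d (g : J → Perm (T × Bool)), Continuous (EE e α A vtx δ B D y d g) := by
    intro d g
    have cC : ∀ P P' : J × (T × Bool), ∀ g, Continuous (cc e α A vtx δ B P P' g) :=
      fun P P' g => continuous_cc H B P P' g
    exact (continuous_const.mul (continuous_finsetSum _ fun i _ => continuous_finsetSum _ fun j _ =>
        (((cC _ _ g).add (cC _ _ g)).add (cC _ _ g)).add (cC _ _ g))).add
        (continuous_const.mul (continuous_finsetSum _ fun i _ => cC _ _ g))
  -- decoupling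
  have h2 : ∀ d : J, |AI s (Fd e α A vtx δ B y d) -
      ∑ i : J, AI s (ll e α A vtx δ B (i, (y, false)) (i + d, (y, true)))| ≤
      (Real.exp (2 * D * Fintype.card J) * (4 * (Fintype.card J : ℝ) ^ 2) +
        k * Real.exp (2 * D) * Fintype.card J) * (Δ * k / f) := by
    intro d
    rw [← AI_sum _ _ (fun i g => cl _ _ g), ← AI_sub (fun g => cF d g)
      (fun g => continuous_finsetSum _ fun i _ => cl _ _ g)]
    refine (abs_AI_le hs _).trans (le_trans ?_ (EE_av (δ := δ) H hv B hy hs d))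
    exact AI_mono hs (fun g => ((cF d g).sub (continuous_finsetSum _ fun i _ => cl _ _ g)).abs)
      (fun g => cE d g) fun g l hl => Fd_approx H B y d g hl
  -- averaging over the free positions
  have h3 : ∀ i j : J, (f : ℝ) * AI s (ll e α A vtx δ B (i, (y, false)) (j, (y, true))) =
      AI s (fun (g : J → Perm (T × Bool)) l => ∑ a ∈ Q, ll e α A vtx δ B (i, a) (j, (y, true)) g l) := by
    intro i j
    have e1 : ∀ a ∈ Q, AI s (ll e α A vtx δ B (i, (y, false)) (j, (y, true))) =
        AI s (ll e α A vtx δ B (i, a) (j, (y, true))) := by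
      intro a ha
      rw [hQ, mem_QQ] at ha
      exact av_swap (fun W u v => ∫ l in (0 : ℝ)..s, LL (sL e) A W u v l) B hy i j false true a
        ha.2 (fun h => by
          have := (Prod.mk.inj (Prod.mk.inj h).2).2
          simp at this) ha.1
    rw [AI_sum _ _ (fun a g => cl _ _ g), ← Finset.sum_congr rfl e1, Finset.sum_const,
      nsmul_eq_mul, hQc]
  -- comparison of the two shifts
  set G : ℝ := (K + 1 : ℝ) ^ k * (1 / h * (s * (120 * D * Real.sqrt (8 * (Fintype.card J *
    Fintype.card T))) + 2 * f * (h ^ 2 * Real.exp (4 * D) * Δ * k))) +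
    s * (2 * (f * (2 * Real.exp (2 * D) / K))) with hG
  have h4 : ∀ i j : J, (f : ℝ) * |AI s (ll e α A vtx δ B (i, (y, false)) (j, (y, true))) -
      AI s (ll e α A vtx δ B (j, (y, false)) (j, (y, true)))| ≤ G := by
    intro i j
    have habs : ∀ x : ℝ, (f : ℝ) * |x| = |(f : ℝ) * x| := fun x => by
      rw [abs_mul, abs_of_pos hf0]
    rw [habs, mul_sub, h3, h3, ← AI_sub (fun g => continuous_finsetSum _ fun a _ => cl _ _ g)
      (fun g => continuous_finsetSum _ fun a _ => cl _ _ g)]
    refine (abs_AI_le hs _).trans ?_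
    have cM : ∀ (τ : Fin k → Fin (K + 1)) (i : J) (g : J → Perm (T × Bool)),
        Continuous (mm e α A vtx δ B (thW (WL e) D K τ) Q i g) := fun τ i g =>
      continuous_mm H B (thW_mem (one_mem_WL e) D K τ).1 Q i g
    have h5 : AI s (fun (g : J → Perm (T × Bool)) l =>
        |(∑ a ∈ Q, ll e α A vtx δ B (i, a) (j, (y, true)) g l) -
          ∑ a ∈ Q, ll e α A vtx δ B (j, a) (j, (y, true)) g l|) ≤
        AI s (fun (g : J → Perm (T × Bool)) l =>
          (∑ τ : Fin k → Fin (K + 1), |mm e α A vtx δ B (thW (WL e) D K τ) Q i g l -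
          mm e α A vtx δ B (thW (WL e) D K τ) Q j g l|) +
          2 * (Q.card * (2 * Real.exp (2 * D) / K))) :=
      AI_mono hs (fun g => ((continuous_finsetSum _ fun a _ => cl _ _ g).sub
        (continuous_finsetSum _ fun a _ => cl _ _ g)).abs)
        (fun g => (continuous_finsetSum _ fun τ _ => ((cM τ i g).sub (cM τ j g)).abs).add
          continuous_const) fun g l hl => ll_net H B Q hK i j (j, (y, true)) g hl
    refine h5.trans ?_
    have e5 := AI_add (s := s) (f := fun (g : J → Perm (T × Bool)) l =>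
      ∑ τ : Fin k → Fin (K + 1), |mm e α A vtx δ B (thW (WL e) D K τ) Q i g l -
          mm e α A vtx δ B (thW (WL e) D K τ) Q j g l|)
      (f' := fun _ _ => 2 * (Q.card * (2 * Real.exp (2 * D) / K)))
      (fun g => continuous_finsetSum _ fun τ _ => ((cM τ i g).sub (cM τ j g)).abs)
      (fun g => continuous_const)
    have e6 := AI_sum (s := s) (univ : Finset (Fin k → Fin (K + 1)))
      (fun τ (g : J → Perm (T × Bool)) l => |mm e α A vtx δ B (thW (WL e) D K τ) Q i g l -
          mm e α A vtx δ B (thW (WL e) D K τ) Q j g l|)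
      (fun τ g => ((cM τ i g).sub (cM τ j g)).abs)
    rw [e5, e6, AI_const, hQc]
    refine add_le_add ?_ le_rfl
    have h6 : ∀ τ ∈ (univ : Finset (Fin k → Fin (K + 1))), AI s (fun (g : J → Perm (T × Bool)) l =>
        |mm e α A vtx δ B (thW (WL e) D K τ) Q i g l -
          mm e α A vtx δ B (thW (WL e) D K τ) Q j g l|) ≤
        1 / h * (s * (120 * D * Real.sqrt (8 * (Fintype.card J * Fintype.card T))) +
          2 * Q.card * (h ^ 2 * Real.exp (4 * D) * Δ * k)) := fun τ _ =>
      mm_av H hv B Q hT (thW_mem (one_mem_WL e) D K τ) (thW_ge hD.le K τ) (thW_le hD.le K τ)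
        hs h0 h1 i j
    refine (Finset.sum_le_sum h6).trans (le_of_eq ?_)
    rw [Finset.sum_const, Finset.card_univ, nsmul_eq_mul, Fintype.card_pi, hQc]
    simp only [Fintype.card_fin, Finset.prod_const, Finset.card_univ]
    push_cast
    ring
  have h7 : |(∑ i : J, AI s (ll e α A vtx δ B (i, (y, false)) (i + d, (y, true)))) -
      ∑ i : J, AI s (ll e α A vtx δ B (i, (y, false)) (i + 0, (y, true)))| ≤
      Fintype.card J * (G / f) := by
    have e1 : (∑ i : J, AI s (ll e α A vtx δ B (i, (y, false)) (i + d, (y, true)))) =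
        ∑ j : J, AI s (ll e α A vtx δ B (j - d, (y, false)) (j, (y, true))) := by
      rw [← Equiv.sum_comp (Equiv.addRight d) (fun j : J =>
        AI s (ll e α A vtx δ B (j - d, (y, false)) (j, (y, true))))]
      refine Finset.sum_congr rfl fun i _ => ?_
      simp
    simp only [add_zero]
    rw [e1, ← Finset.sum_sub_distrib]
    refine (Finset.abs_sum_le_sum_abs _ _).trans ?_
    have : ∀ j ∈ (univ : Finset J), |AI s (ll e α A vtx δ B (j - d, (y, false)) (j, (y, true))) -
        AI s (ll e α A vtx δ B (j, (y, false)) (j, (y, true)))| ≤ G / f := by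
      intro j _
      rw [le_div_iff₀ hf0, mul_comm]
      exact h4 (j - d) j
    refine (Finset.sum_le_sum this).trans (le_of_eq ?_)
    rw [Finset.sum_const, Finset.card_univ, nsmul_eq_mul]
  have a1 := abs_le.1 (h2 d)
  have a2 := abs_le.1 (h2 0)
  have a3 := abs_le.1 h7
  have e4 : (Fintype.card J : ℝ) * (G / f) = Fintype.card J / f * ((K + 1 : ℝ) ^ k * (1 / h *
      (s * (120 * D * Real.sqrt (8 * (Fintype.card J * Fintype.card T))) +
        2 * f * (h ^ 2 * Real.exp (4 * D) * Δ * k)))) +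
      s * (Fintype.card J * (4 * Real.exp (2 * D) / K)) := by
    rw [hG]
    have : (f : ℝ) ≠ 0 := hf0.ne'
    field_simp
    ring
  rw [e4] at a3
  unfold stepErr
  rw [abs_le]
  constructor <;> linarith [a1.1, a1.2, a2.1, a2.2, a3.1, a3.2]

end step

end Pool.Agent.Lib.R97Q2
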